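import Mathlib

/-!
# Chain complexes spanned by words

Words over an alphabet `α`, the boundary map which deletes one letter, and the subquotients
spanned by a set of words that is convex with respect to deletion of letters.
-/

set_option autoImplicit false

namespace Pool.Agent.T6.H82.MA

open Finsupp

variable {α : Type*}

/-- chains on words -/
abbrev Chn (α : Type*) := List α →₀ ℤ

/-- `Del w w'`: the word `w'` arises from `w` by deletion of one letter. -/
inductive Del : List α → List α → Prop
  | head (a : α) (w : List α) : Del (a :: w) w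
  | tail (a : α) {w w' : List α} (h : Del w w') : Del (a :: w) (a :: w')

theorem Del.length {w w' : List α} (h : Del w w') : w.length = w'.length + 1 := by
  induction h with
  | head => simp
  | tail a h ih => simp [ih]

theorem Del.sublist {w w' : List α} (h : Del w w') : w'.Sublist w := by
  induction h with
  | head => simp
  | tail a h ih => exact ih.cons_cons a

theorem not_del_nil {w : List α} : ¬ Del [] w := by
  intro h; cases h

theorem del_cons {a : α} {w w' : List α} :
    Del (a :: w) w' ↔ w' = w ∨ ∃ v, Del w v ∧ w' = a :: v := by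
  constructor
  · intro h
    cases h with
    | head => exact Or.inl rfl
    | tail a h => exact Or.inr ⟨_, h, rfl⟩
  · rintro (rfl | ⟨v, h, rfl⟩)
    · exact Del.head _ _
    · exact Del.tail _ h

theorem del_append {u v w : List α} :
    Del (u ++ v) w ↔ (∃ u', Del u u' ∧ w = u' ++ v) ∨ ∃ v', Del v v' ∧ w = u ++ v' := by
  induction u generalizing w with
  | nil =>
    simp only [List.nil_append]
    constructor
    · intro h; exact Or.inr ⟨w, h, rfl⟩
    · rintro (⟨u', h, _⟩ | ⟨v', h, rfl⟩)
      · exact absurd h not_del_nil
      · exact h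
  | cons a u ih =>
    simp only [List.cons_append, del_cons, ih]
    constructor
    · rintro (rfl | ⟨x, (⟨u', h, rfl⟩ | ⟨v', h, rfl⟩), rfl⟩)
      · exact Or.inl ⟨u, Or.inl rfl, rfl⟩
      · exact Or.inl ⟨a :: u', Or.inr ⟨u', h, rfl⟩, rfl⟩
      · exact Or.inr ⟨v', h, rfl⟩
    · rintro (⟨u', (rfl | ⟨x, h, rfl⟩), rfl⟩ | ⟨v', h, rfl⟩)
      · exact Or.inl rfl
      · exact Or.inr ⟨x ++ v, Or.inl ⟨x, h, rfl⟩, rfl⟩
      · exact Or.inr ⟨u ++ v', Or.inr ⟨v', h, rfl⟩, rfl⟩

theorem Del.filter (q : α → Bool) {w w' : List α} (h : Del w w') :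
    w'.filter q = w.filter q ∨ Del (w.filter q) (w'.filter q) := by
  induction h with
  | head a w =>
    by_cases ha : q a
    · right; simp only [List.filter_cons, ha, if_true]; exact Del.head _ _
    · left; simp [ha]
  | tail a h ih =>
    by_cases ha : q a
    · rcases ih with ih | ih
      · left; simp [ha, ih]
      · right; simp only [List.filter_cons, ha, if_true]; exact Del.tail _ ih
    · simpa [List.filter_cons, ha] using ih

theorem Del.dropWhile (q : α → Bool) {w w' : List α} (h : Del w w') :
    w'.dropWhile q = w.dropWhile q ∨ (w'.dropWhile q).length < (w.dropWhile q).length := by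
  induction h with
  | head a w =>
    by_cases ha : q a
    · left; simp [ha]
    · right
      simp only [List.dropWhile_cons, ha]
      have := (List.dropWhile_sublist q (l := w)).length_le
      simp
      omega
  | @tail a w w' h ih =>
    by_cases ha : q a
    · simpa [List.dropWhile_cons, ha] using ih
    · right
      have := h.length
      simp [ha]
      omega

/-- the boundary of a word: the alternating sum of the words with one letter deleted -/
noncomputable def bd : List α → Chn α
  | [] => 0
  | a :: w => single w 1 - mapDomain (List.cons a) (bd w)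

/-- the boundary map on chains of words -/
noncomputable def D : Chn α →ₗ[ℤ] Chn α := Finsupp.linearCombination ℤ bd

theorem D_single (w : List α) (n : ℤ) : D (single w n) = n • bd w := by
  simp [D]

theorem bd_eq (w : List α) : bd w = D (single w 1) := by
  rw [D_single, one_smul]

theorem mapD_cons_single (a : α) (w : List α) (n : ℤ) :
    mapDomain (List.cons a) (single w n) = single (a :: w) n := mapDomain_single

theorem D_cons (a : α) (c : Chn α) :
    D (mapDomain (List.cons a) c) = c - mapDomain (List.cons a) (D c) := by
  induction c using Finsupp.induction_linear with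
  | zero => simp
  | add f g hf hg =>
    rw [mapDomain_add, map_add, hf, hg, map_add, mapDomain_add]; abel
  | single w n =>
    rw [mapD_cons_single, D_single, D_single, bd, smul_sub, mapDomain_smul]
    simp

theorem D_D_single (w : List α) : D (D (single w 1)) = 0 := by
  induction w with
  | nil => simp [D_single, bd]
  | cons a w ih =>
    rw [← mapD_cons_single, D_cons, map_sub, D_cons, ih, mapDomain_zero, sub_zero, sub_self]

theorem D_D (c : Chn α) : D (D c) = 0 := by
  induction c using Finsupp.induction_linear with
  | zero => simp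
  | add f g hf hg => rw [map_add, map_add, hf, hg, add_zero]
  | single w n =>
    have : single w n = n • single w (1 : ℤ) := by simp
    rw [this, map_smul, map_smul, D_D_single, smul_zero]

theorem bd_support {w w' : List α} (h : bd w w' ≠ 0) : Del w w' := by
  induction w generalizing w' with
  | nil => simp [bd] at h
  | cons a w ih =>
    classical
    rw [bd, Finsupp.sub_apply] at h
    by_cases h1 : single w (1 : ℤ) w' = 0
    · have h2 : mapDomain (List.cons a) (bd w) w' ≠ 0 := by
        intro h2; apply h; rw [h1, h2, sub_zero]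
      have h3 : w' ∈ (mapDomain (List.cons a) (bd w)).support := by simpa using h2
      have h4 := Finsupp.mapDomain_support h3
      rw [Finset.mem_image] at h4
      obtain ⟨v, hv, rfl⟩ := h4
      exact Del.tail _ (ih (by simpa using hv))
    · have : w' = w := by
        by_contra hne
        exact h1 (by rw [single_apply, if_neg (fun h => hne h.symm)])
      subst this
      exact Del.head _ _

theorem D_support {c : Chn α} {w' : List α} (h : D c w' ≠ 0) :
    ∃ w, c w ≠ 0 ∧ Del w w' := by
  by_contra hcon
  push Not at hcon
  apply h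
  rw [D, Finsupp.linearCombination_apply, Finsupp.sum, Finsupp.finsetSum_apply]
  apply Finset.sum_eq_zero
  intro w hw
  rw [Finsupp.smul_apply]
  have h1 : bd w w' = 0 := by
    by_contra h2
    exact hcon w (by simpa using hw) (bd_support h2)
  rw [h1, smul_zero]

/-- restriction of a chain to a set of words -/
noncomputable def res (X : Set (List α)) : Chn α →ₗ[ℤ] Chn α :=
  letI := Classical.decPred (· ∈ X)
  { toFun := fun c => c.filter (· ∈ X)
    map_add' := fun _ _ => filter_add
    map_smul' := fun _ _ => filter_smul }

theorem res_apply_of_mem {X : Set (List α)} {w : List α} (h : w ∈ X) (c : Chn α) :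
    res X c w = c w := by
  classical
  simp [res, h]

theorem res_apply_of_notMem {X : Set (List α)} {w : List α} (h : w ∉ X) (c : Chn α) :
    res X c w = 0 := by
  classical
  simp [res, h]

/-- the chain `c` is supported on `X` -/
def On (X : Set (List α)) (c : Chn α) : Prop := ∀ w, c w ≠ 0 → w ∈ X

theorem On.zero (X : Set (List α)) : On X 0 := fun w h => absurd rfl h

theorem On.add {X : Set (List α)} {c c' : Chn α} (h : On X c) (h' : On X c') : On X (c + c') := by
  intro w hw
  by_contra hX
  apply hw
  have h1 : c w = 0 := by by_contra h2; exact hX (h w h2)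
  have h3 : c' w = 0 := by by_contra h2; exact hX (h' w h2)
  simp [h1, h3]

theorem On.smul {X : Set (List α)} {c : Chn α} (n : ℤ) (h : On X c) : On X (n • c) := by
  intro w hw
  by_contra hX
  apply hw
  have h1 : c w = 0 := by by_contra h2; exact hX (h w h2)
  simp [h1]

theorem On.neg {X : Set (List α)} {c : Chn α} (h : On X c) : On X (-c) := by
  intro w hw
  exact h w (by simpa using hw)

theorem On.sub {X : Set (List α)} {c c' : Chn α} (h : On X c) (h' : On X c') : On X (c - c') := by
  rw [sub_eq_add_neg]; exact h.add h'.neg

theorem On.mono {X Y : Set (List α)} (hXY : X ⊆ Y) {c : Chn α} (h : On X c) : On Y c :=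
  fun w hw => hXY (h w hw)

theorem On.sum {ι : Type*} {X : Set (List α)} {s : Finset ι} {c : ι → Chn α}
    (h : ∀ i ∈ s, On X (c i)) : On X (∑ i ∈ s, c i) := by
  classical
  induction s using Finset.induction_on with
  | empty => simpa using On.zero X
  | insert a s ha ih =>
    rw [Finset.sum_insert ha]
    exact (h a (by simp)).add (ih fun i hi => h i (by simp [hi]))

theorem on_res (X : Set (List α)) (c : Chn α) : On X (res X c) := by
  intro w hw
  by_contra h
  exact hw (res_apply_of_notMem h c)

theorem on_single {X : Set (List α)} {w : List α} (h : w ∈ X) (n : ℤ) : On X (single w n) := by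
  classical
  intro v hv
  by_contra hX
  apply hv
  rw [single_apply, if_neg]
  rintro rfl
  exact hX h

theorem res_eq_self {X : Set (List α)} {c : Chn α} (h : On X c) : res X c = c := by
  ext w
  by_cases hw : w ∈ X
  · exact res_apply_of_mem hw c
  · rw [res_apply_of_notMem hw]
    by_contra h2
    exact hw (h w (Ne.symm h2))

theorem res_eq_zero {X : Set (List α)} {c : Chn α} (h : ∀ w, c w ≠ 0 → w ∉ X) : res X c = 0 := by
  ext w
  by_cases hw : w ∈ X
  · rw [res_apply_of_mem hw]
    by_contra h2
    exact h w h2 hw
  · exact res_apply_of_notMem hw c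

theorem res_res (X Y : Set (List α)) (c : Chn α) : res X (res Y c) = res (X ∩ Y) c := by
  ext w
  by_cases h1 : w ∈ X <;> by_cases h2 : w ∈ Y
  · rw [res_apply_of_mem h1, res_apply_of_mem h2, res_apply_of_mem (show w ∈ X ∩ Y from ⟨h1, h2⟩)]
  · rw [res_apply_of_mem h1, res_apply_of_notMem h2,
      res_apply_of_notMem (fun h : w ∈ X ∩ Y => h2 h.2)]
  · rw [res_apply_of_notMem h1, res_apply_of_notMem (fun h : w ∈ X ∩ Y => h1 h.1)]
  · rw [res_apply_of_notMem h1, res_apply_of_notMem (fun h : w ∈ X ∩ Y => h1 h.1)]

theorem res_union {X Y : Set (List α)} (h : Disjoint X Y) (c : Chn α) :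
    res (X ∪ Y) c = res X c + res Y c := by
  ext w
  rw [Finsupp.add_apply]
  by_cases h1 : w ∈ X <;> by_cases h2 : w ∈ Y
  · exact absurd h2 (Set.disjoint_left.1 h h1)
  · rw [res_apply_of_mem (Or.inl h1), res_apply_of_mem h1, res_apply_of_notMem h2, add_zero]
  · rw [res_apply_of_mem (Or.inr h2), res_apply_of_notMem h1, res_apply_of_mem h2, zero_add]
  · rw [res_apply_of_notMem (by simp [h1, h2]), res_apply_of_notMem h1, res_apply_of_notMem h2,
      add_zero]

/-- the boundary map of the complex spanned by `X` -/
noncomputable def DX (X : Set (List α)) : Chn α →ₗ[ℤ] Chn α := (res X).comp D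

theorem DX_apply (X : Set (List α)) (c : Chn α) : DX X c = res X (D c) := rfl

theorem on_DX (X : Set (List α)) (c : Chn α) : On X (DX X c) := on_res _ _

/-- the set `X` of words is convex for deletion of letters -/
def LC (X : Set (List α)) : Prop :=
  ∀ ⦃w w' w''⦄, w ∈ X → Del w w' → Del w' w'' → w'' ∈ X → w' ∈ X

theorem DX_DX {X : Set (List α)} (hX : LC X) {c : Chn α} (hc : On X c) : DX X (DX X c) = 0 := by
  rw [DX_apply, DX_apply]
  have h1 : D c = res X (D c) + res Xᶜ (D c) := by
    have h2 := res_union (disjoint_compl_right : Disjoint X Xᶜ) (D c)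
    rw [Set.union_compl_self] at h2
    rw [← h2]
    exact (res_eq_self (fun _ _ => trivial)).symm
  have h3 : D (res X (D c)) = - D (res Xᶜ (D c)) := by
    have h4 : D (D c) = 0 := D_D c
    rw [h1, map_add] at h4
    exact eq_neg_of_add_eq_zero_left h4
  rw [h3, map_neg, neg_eq_zero]
  apply res_eq_zero
  intro w'' hw'' hmem
  obtain ⟨w', hw', hdel⟩ := D_support hw''
  have hw'X : w' ∈ Xᶜ := on_res _ _ _ hw'
  rw [res_apply_of_mem hw'X] at hw'
  obtain ⟨w, hw, hdel'⟩ := D_support hw'
  exact hw'X (hX (hc w hw) hdel' hdel hmem)

/-- the complex spanned by `X` is acyclic -/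
def Acyc (X : Set (List α)) : Prop :=
  ∀ c, On X c → DX X c = 0 → ∃ b, On X b ∧ DX X b = c

theorem acyc_empty : Acyc (∅ : Set (List α)) := by
  intro c hc _
  refine ⟨0, On.zero _, ?_⟩
  have : c = 0 := by
    ext w; by_contra h; exact hc w h
  rw [map_zero, this]

/-- Union of pieces without deletions between different pieces. -/
theorem acyc_of_disjoint {γ : Type*} {X : Set (List α)} (g : List α → γ)
    (hg : ∀ w ∈ X, ∀ w' ∈ X, Del w w' → g w' = g w)
    (h : ∀ s, Acyc {w | w ∈ X ∧ g w = s}) : Acyc X := by
  classical
  intro c hc hD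
  set P : γ → Set (List α) := fun s => {w | w ∈ X ∧ g w = s} with hP
  have key : ∀ s b, On (P s) b → DX X b = DX (P s) b := by
    intro s b hb
    ext w'
    rw [DX_apply, DX_apply]
    by_cases hw' : w' ∈ P s
    · rw [res_apply_of_mem hw', res_apply_of_mem hw'.1]
    · rw [res_apply_of_notMem hw']
      by_cases hX : w' ∈ X
      · rw [res_apply_of_mem hX]
        by_contra hne
        obtain ⟨w, hw, hdel⟩ := D_support hne
        have := hb w hw
        exact hw' ⟨hX, (hg w this.1 w' hX hdel).trans this.2⟩
      · rw [res_apply_of_notMem hX]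
  have hcyc : ∀ s, DX (P s) (res (P s) c) = 0 := by
    intro s
    ext w'
    rw [DX_apply]
    by_cases hw' : w' ∈ P s
    · rw [res_apply_of_mem hw']
      have h0 : (DX X c) w' = 0 := by rw [hD]; rfl
      rw [DX_apply, res_apply_of_mem hw'.1] at h0
      have h1 : c = res (P s) c + res (P s)ᶜ c := by
        have h2 := res_union (disjoint_compl_right : Disjoint (P s) (P s)ᶜ) c
        rw [Set.union_compl_self] at h2
        rw [← h2]
        exact (res_eq_self (fun _ _ => trivial)).symm
      have h3 : D (res (P s)ᶜ c) w' = 0 := by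
        by_contra hne
        obtain ⟨w, hw, hdel⟩ := D_support hne
        have hwc : w ∈ (P s)ᶜ := on_res _ _ _ hw
        rw [res_apply_of_mem hwc] at hw
        have hwX := hc w hw
        exact hwc ⟨hwX, (hg w hwX w' hw'.1 hdel).symm.trans hw'.2⟩
      rw [h1, map_add, Finsupp.add_apply, h3, add_zero] at h0
      exact h0
    · rw [res_apply_of_notMem hw']; rfl
  choose b hb hbD using fun s => h s (res (P s) c) (on_res _ _) (hcyc s)
  refine ⟨∑ s ∈ c.support.image g, b s, On.sum fun s _ => (hb s).mono fun w hw => hw.1, ?_⟩
  rw [map_sum]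
  have h5 : ∀ s ∈ c.support.image g, DX X (b s) = res (P s) c := fun s _ => by
    rw [key s (b s) (hb s)]; exact hbD s
  rw [Finset.sum_congr rfl h5]
  ext w
  rw [Finsupp.finsetSum_apply]
  by_cases hw : c w = 0
  · rw [hw]
    apply Finset.sum_eq_zero
    intro s _
    by_cases hm : w ∈ P s
    · rw [res_apply_of_mem hm, hw]
    · exact res_apply_of_notMem hm c
  · rw [Finset.sum_eq_single (g w)]
    · exact res_apply_of_mem (show w ∈ P (g w) from ⟨hc w hw, rfl⟩) c
    · intro s _ hs
      exact res_apply_of_notMem (fun hm : w ∈ P s => hs hm.2.symm) c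
    · intro hn
      exact absurd (Finset.mem_image_of_mem g (by simpa using hw)) hn

/-- Filtration by a function that does not increase under deletion. -/
theorem acyc_of_filt {X : Set (List α)} (hX : LC X) (f : List α → ℕ)
    (hf : ∀ w ∈ X, ∀ w' ∈ X, Del w w' → f w' ≤ f w)
    (h : ∀ n, Acyc {w | w ∈ X ∧ f w = n}) : Acyc X := by
  suffices H : ∀ N c, On X c → DX X c = 0 → (∀ w, c w ≠ 0 → f w < N) →
      ∃ b, On X b ∧ DX X b = c by
    intro c hc hD
    refine H (c.support.sup f + 1) c hc hD ?_
    intro w hw
    exact Nat.lt_succ_of_le (Finset.le_sup (f := f) (by simpa using hw))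
  intro N
  induction N with
  | zero =>
    intro c _ _ hN
    refine ⟨0, On.zero _, ?_⟩
    have : c = 0 := by
      ext w; by_contra hne; exact absurd (hN w hne) (by omega)
    rw [map_zero, this]
  | succ N ih =>
    intro c hc hD hN
    set P : Set (List α) := {w | w ∈ X ∧ f w = N} with hP
    have h1 : DX P (res P c) = 0 := by
      ext w'
      rw [DX_apply]
      by_cases hw' : w' ∈ P
      · rw [res_apply_of_mem hw']
        have h0 : (DX X c) w' = 0 := by rw [hD]; rfl
        rw [DX_apply, res_apply_of_mem hw'.1] at h0
        have h1 : c = res P c + res Pᶜ c := by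
          have h2 := res_union (disjoint_compl_right : Disjoint P Pᶜ) c
          rw [Set.union_compl_self] at h2
          rw [← h2]
          exact (res_eq_self (fun _ _ => trivial)).symm
        have h3 : D (res Pᶜ c) w' = 0 := by
          by_contra hne
          obtain ⟨w, hw, hdel⟩ := D_support hne
          have hwc : w ∈ Pᶜ := on_res _ _ _ hw
          rw [res_apply_of_mem hwc] at hw
          have hwX := hc w hw
          have h4 := hf w hwX w' hw'.1 hdel
          have h5 := hN w hw
          have h6 := hw'.2
          exact hwc ⟨hwX, by omega⟩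
        rw [h1, map_add, Finsupp.add_apply, h3, add_zero] at h0
        exact h0
      · rw [res_apply_of_notMem hw']; rfl
    obtain ⟨b, hb, hbD⟩ := h N (res P c) (on_res _ _) h1
    have hbX : On X b := hb.mono fun w hw => hw.1
    have h2 : On X (c - DX X b) := hc.sub (on_DX _ _)
    have h3 : DX X (c - DX X b) = 0 := by
      rw [map_sub, hD, DX_DX hX hbX, sub_zero]
    have h4 : ∀ w, (c - DX X b) w ≠ 0 → f w < N := by
      intro w' hw'
      have hw'X := h2 w' hw'
      by_contra hlt
      push Not at hlt
      apply hw'
      rw [Finsupp.sub_apply]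
      rcases hlt.eq_or_lt with heq | hgt
      · have hm : w' ∈ P := ⟨hw'X, heq.symm⟩
        have h5 : (DX P b) w' = c w' := by rw [hbD, res_apply_of_mem hm]
        rw [DX_apply, res_apply_of_mem hm] at h5
        rw [DX_apply, res_apply_of_mem hw'X, h5, sub_self]
      · have h5 : c w' = 0 := by
          by_contra hne
          have := hN w' hne
          omega
        have h6 : D b w' = 0 := by
          by_contra hne
          obtain ⟨w, hw, hdel⟩ := D_support hne
          have h7 := hf w (hbX w hw) w' hw'X hdel
          have h8 := (hb w hw).2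
          omega
        rw [h5, DX_apply, res_apply_of_mem hw'X, h6, sub_self]
    obtain ⟨b', hb', hb'D⟩ := ih _ h2 h3 h4
    exact ⟨b + b', hbX.add hb', by rw [map_add, hb'D]; abel⟩

theorem acyc_of_fibers {γ : Type*} {X : Set (List α)} (hX : LC X) (g : List α → γ) (f : γ → ℕ)
    (hg : ∀ w ∈ X, ∀ w' ∈ X, Del w w' → g w' = g w ∨ f (g w') < f (g w))
    (h : ∀ s, Acyc {w | w ∈ X ∧ g w = s}) : Acyc X := by
  apply acyc_of_filt hX (fun w => f (g w))
  · intro w hw w' hw' hd
    rcases hg w hw w' hw' hd with h1 | h1
    · exact le_of_eq (congrArg f h1)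
    · exact h1.le
  · intro n
    apply acyc_of_disjoint g
    · intro w hw w' hw' hd
      rcases hg w hw.1 w' hw'.1 hd with h1 | h1
      · exact h1
      · have h2 := hw.2
        have h3 := hw'.2
        omega
    · intro s
      by_cases hs : f s = n
      · convert h s using 1
        ext w
        constructor
        · rintro ⟨⟨h1, _⟩, h2⟩; exact ⟨h1, h2⟩
        · rintro ⟨h1, h2⟩; exact ⟨⟨h1, by simp only [h2, hs]⟩, h2⟩
      · convert acyc_empty using 1
        ext w
        constructor
        · rintro ⟨⟨_, h1⟩, h2⟩
          apply hs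
          rw [← h2]; exact h1
        · intro h; exact absurd h (Set.notMem_empty w)

theorem acyc_of_filter {X : Set (List α)} (hX : LC X) (q : α → Bool)
    (h : ∀ s, Acyc {w | w ∈ X ∧ w.filter q = s}) : Acyc X := by
  apply acyc_of_fibers hX (fun w => w.filter q) List.length _ h
  intro w _ w' _ hd
  rcases hd.filter q with h1 | h1
  · exact Or.inl h1
  · right
    have := h1.length
    show (w'.filter q).length < (w.filter q).length
    omega

theorem acyc_of_dropWhile {X : Set (List α)} (hX : LC X) (q : α → Bool)
    (h : ∀ s, Acyc {w | w ∈ X ∧ w.dropWhile q = s}) : Acyc X := by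
  apply acyc_of_fibers hX (fun w => w.dropWhile q) List.length _ h
  intro w _ w' _ hd
  exact hd.dropWhile q

end Pool.Agent.T6.H82.MA
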