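import Mathlib
import Pool.Agent.T6.H82.MA.Word

/-!
# Homology of complexes spanned by words
-/

set_option autoImplicit false

namespace Pool.Agent.T6.H82.MA

open Finsupp

variable {α : Type*}

/-- two linear maps which agree on the words of `X` agree on the chains on `X` -/
theorem lin_ext_on {M : Type*} [AddCommGroup M] {X : Set (List α)} (L₁ L₂ : Chn α →ₗ[ℤ] M)
    (h : ∀ w ∈ X, L₁ (single w 1) = L₂ (single w 1)) {c : Chn α} (hc : On X c) :
    L₁ c = L₂ c := by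
  have h1 : c = ∑ w ∈ c.support, c w • single w (1 : ℤ) := by
    conv_lhs => rw [← Finsupp.sum_single c]
    rw [Finsupp.sum]
    apply Finset.sum_congr rfl
    intro w _
    simp
  rw [h1, map_sum, map_sum]
  apply Finset.sum_congr rfl
  intro w hw
  rw [map_smul, map_smul, h w (hc w (by simpa using hw))]

/-- words of length `n` -/
def Len (α : Type*) (n : ℕ) : Set (List α) := {w | w.length = n}

theorem res_len_D (n : ℕ) (c : Chn α) : res (Len α n) (D c) = D (res (Len α (n + 1)) c) := by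
  have h1 : c = res (Len α (n + 1)) c + res (Len α (n + 1))ᶜ c := by
    have h2 := res_union (disjoint_compl_right : Disjoint (Len α (n + 1)) (Len α (n + 1))ᶜ) c
    rw [Set.union_compl_self] at h2
    rw [← h2]
    exact (res_eq_self (fun _ _ => trivial)).symm
  conv_lhs => rw [h1, map_add, map_add]
  have h3 : res (Len α n) (D (res (Len α (n + 1))ᶜ c)) = 0 := by
    apply res_eq_zero
    intro w' hw' hl
    obtain ⟨w, hw, hd⟩ := D_support hw'
    apply on_res _ _ _ hw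
    have h4 := hd.length
    have h5 : w'.length = n := hl
    show w.length = n + 1
    omega
  rw [h3, add_zero]
  apply res_eq_self
  intro w' hw'
  obtain ⟨w, hw, hd⟩ := D_support hw'
  have h4 := hd.length
  have h5 : w.length = n + 1 := on_res _ _ _ hw
  show w'.length = n
  omega

theorem on_D_len {n : ℕ} {c : Chn α} (h : On (Len α (n + 1)) c) : On (Len α n) (D c) := by
  intro w' hw'
  obtain ⟨w, hw, hd⟩ := D_support hw'
  have h4 := hd.length
  have h5 : w.length = n + 1 := h w hw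
  show w'.length = n
  omega

theorem on_inter {X Y : Set (List α)} {c : Chn α} : On (X ∩ Y) c ↔ On X c ∧ On Y c :=
  ⟨fun h => ⟨fun w hw => (h w hw).1, fun w hw => (h w hw).2⟩,
   fun h w hw => ⟨h.1 w hw, h.2 w hw⟩⟩

theorem on_res_of_on {X Y : Set (List α)} {c : Chn α} (h : On Y c) : On Y (res X c) := by
  intro w hw
  have hX : w ∈ X := on_res _ _ _ hw
  rw [res_apply_of_mem hX] at hw
  exact h w hw

theorem acyc_graded {X : Set (List α)} (h : Acyc X) {n : ℕ} {c : Chn α}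
    (hc : On (X ∩ Len α n) c) (hD : DX X c = 0) :
    ∃ b, On (X ∩ Len α (n + 1)) b ∧ DX X b = c := by
  rw [on_inter] at hc
  obtain ⟨b, hb, hbD⟩ := h c hc.1 hD
  refine ⟨res (Len α (n + 1)) b, on_inter.2 ⟨on_res_of_on hb, on_res _ _⟩, ?_⟩
  rw [DX_apply, ← res_len_D, res_res, Set.inter_comm, ← res_res, ← DX_apply, hbD]
  exact res_eq_self hc.2

/-- cycles of degree `n` -/
noncomputable def Cyc (X : Set (List α)) (n : ℕ) : Submodule ℤ (Chn α) where
  carrier := {c | On (X ∩ Len α n) c ∧ DX X c = 0}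
  add_mem' := fun ha hb => ⟨ha.1.add hb.1, by rw [map_add, ha.2, hb.2, add_zero]⟩
  zero_mem' := ⟨On.zero _, map_zero _⟩
  smul_mem' := fun n c hc => ⟨hc.1.smul n, by rw [map_smul, hc.2, smul_zero]⟩

/-- boundaries of degree `n` -/
noncomputable def Bou (X : Set (List α)) (n : ℕ) : Submodule ℤ (Chn α) where
  carrier := {c | ∃ b, On (X ∩ Len α (n + 1)) b ∧ DX X b = c}
  add_mem' := by
    rintro _ _ ⟨b, hb, rfl⟩ ⟨b', hb', rfl⟩
    exact ⟨b + b', hb.add hb', map_add _ _ _⟩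
  zero_mem' := ⟨0, On.zero _, map_zero _⟩
  smul_mem' := by
    rintro n _ ⟨b, hb, rfl⟩
    exact ⟨n • b, hb.smul n, map_smul _ _ _⟩

theorem mem_Cyc {X : Set (List α)} {n : ℕ} {c : Chn α} :
    c ∈ Cyc X n ↔ On (X ∩ Len α n) c ∧ DX X c = 0 := Iff.rfl

theorem mem_Bou {X : Set (List α)} {n : ℕ} {c : Chn α} :
    c ∈ Bou X n ↔ ∃ b, On (X ∩ Len α (n + 1)) b ∧ DX X b = c := Iff.rfl

/-- homology in degree `n` -/
abbrev H (X : Set (List α)) (n : ℕ) : Type _ := (Cyc X n) ⧸ (Bou X n).submoduleOf (Cyc X n)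

/-- the homology in degree `n` is free of rank `f n` -/
def HomIs (X : Set (List α)) (f : ℕ → ℕ) : Prop := ∀ n, Nonempty (H X n ≃ₗ[ℤ] (Fin (f n) → ℤ))

theorem quot_equiv {M N : Type*} [AddCommGroup M] [AddCommGroup N]
    (Z₁ B₁ : Submodule ℤ M) (Z₀ B₀ : Submodule ℤ N) (δ : M →ₗ[ℤ] N)
    (hZ : ∀ c ∈ Z₁, δ c ∈ Z₀) (hB : ∀ c ∈ Z₁, δ c ∈ B₀ ↔ c ∈ B₁)
    (hs : ∀ c ∈ Z₀, ∃ b ∈ Z₁, c - δ b ∈ B₀) :
    Nonempty ((Z₁ ⧸ B₁.submoduleOf Z₁) ≃ₗ[ℤ] (Z₀ ⧸ B₀.submoduleOf Z₀)) := by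
  let δ' : Z₁ →ₗ[ℤ] Z₀ := δ.restrict hZ
  have hle : B₁.submoduleOf Z₁ ≤ (B₀.submoduleOf Z₀).comap δ' := by
    intro c hc
    exact (hB c.1 c.2).2 hc
  refine ⟨LinearEquiv.ofBijective (Submodule.mapQ _ _ δ' hle) ⟨?_, ?_⟩⟩
  · rw [← LinearMap.ker_eq_bot, LinearMap.ker_eq_bot']
    intro x hx
    obtain ⟨c, rfl⟩ := Submodule.Quotient.mk_surjective _ x
    rw [Submodule.mapQ_apply, Submodule.Quotient.mk_eq_zero] at hx
    rw [Submodule.Quotient.mk_eq_zero]
    exact (hB c.1 c.2).1 hx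
  · intro y
    obtain ⟨c, rfl⟩ := Submodule.Quotient.mk_surjective _ y
    obtain ⟨b, hb, hbc⟩ := hs c.1 c.2
    refine ⟨Submodule.Quotient.mk ⟨b, hb⟩, ?_⟩
    rw [Submodule.mapQ_apply]
    symm
    rw [Submodule.Quotient.eq]
    exact hbc

theorem homIs_of_acyc {X : Set (List α)} (h : Acyc X) : HomIs X (fun _ => 0) := by
  intro n
  have : Subsingleton (H X n) := by
    rw [Submodule.Quotient.subsingleton_iff, Submodule.submoduleOf_eq_top]
    intro c hc
    obtain ⟨b, hb, hbD⟩ := acyc_graded h hc.1 hc.2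
    exact ⟨b, hb, hbD⟩
  exact ⟨LinearEquiv.ofSubsingleton _ _⟩

theorem HomIs.congr {X : Set (List α)} {f f' : ℕ → ℕ} (h : HomIs X f) (hf : ∀ n, f n = f' n) :
    HomIs X f' := by
  have : f = f' := funext hf
  rwa [← this]

section les

variable {X₀ X₁ : Set (List α)}

theorem DX_union (hd : Disjoint X₀ X₁) (c : Chn α) :
    DX (X₀ ∪ X₁) c = DX X₀ c + DX X₁ c := res_union hd _

theorem DX_closed (hcl : ∀ w ∈ X₀, ∀ w', Del w w' → w' ∉ X₁) {c : Chn α} (hc : On X₀ c) :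
    DX X₁ c = 0 := by
  apply res_eq_zero
  intro w' hw'
  obtain ⟨w, hw, hdl⟩ := D_support hw'
  exact hcl w (hc w hw) w' hdl

theorem split_on (hd : Disjoint X₀ X₁) {c : Chn α} (hc : On (X₀ ∪ X₁) c) :
    c = res X₀ c + res X₁ c := by
  rw [← res_union hd]; exact (res_eq_self hc).symm

theorem res_disj (hd : Disjoint X₀ X₁) {c : Chn α} (hc : On X₀ c) : res X₁ c = 0 :=
  res_eq_zero fun w hw h1 => Set.disjoint_left.1 hd (hc w hw) h1

theorem acyc_union (hX : LC (X₀ ∪ X₁)) (hd : Disjoint X₀ X₁)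
    (hcl : ∀ w ∈ X₀, ∀ w', Del w w' → w' ∉ X₁) (h0 : Acyc X₀) (h1 : Acyc X₁) :
    Acyc (X₀ ∪ X₁) := by
  classical
  apply acyc_of_filt hX (fun w => if w ∈ X₀ then 0 else 1)
  · intro w hw w' hw' hdl
    by_cases h0 : w ∈ X₀
    · have h2 : w' ∈ X₀ := by
        rcases hw' with h | h
        · exact h
        · exact absurd h (hcl w h0 w' hdl)
      simp [h0, h2]
    · simp only [h0, if_false]
      split_ifs <;> omega
  · intro n
    match n with
    | 0 =>
      convert h0 using 1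
      ext w
      simp only [Set.mem_union, ite_eq_left_iff, one_ne_zero, imp_false, not_not]
      constructor
      · rintro ⟨_, h⟩; exact h
      · intro h; exact ⟨Or.inl h, h⟩
    | 1 =>
      convert h1 using 1
      ext w
      simp only [Set.mem_union, ite_eq_right_iff, zero_ne_one, imp_false]
      constructor
      · rintro ⟨h | h, h'⟩
        · exact absurd h h'
        · exact h
      · intro h; exact ⟨Or.inr h, fun h' => Set.disjoint_left.1 hd h' h⟩
    | n + 2 =>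
      convert acyc_empty using 1
      ext w
      simp only [Set.mem_empty_iff_false, iff_false]
      rintro ⟨_, h⟩
      have h' : (if w ∈ X₀ then 0 else 1) = n + 2 := h
      by_cases h3 : w ∈ X₀
      · rw [if_pos h3] at h'; omega
      · rw [if_neg h3] at h'; omega

/-- If the whole complex is acyclic then the homology of the closed part is that of the
quotient, shifted by one. -/
theorem les_shift (hX : LC (X₀ ∪ X₁)) (hd : Disjoint X₀ X₁)
    (hcl : ∀ w ∈ X₀, ∀ w', Del w w' → w' ∉ X₁) (h : Acyc (X₀ ∪ X₁)) (n : ℕ) :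
    Nonempty (H X₁ (n + 1) ≃ₗ[ℤ] H X₀ n) := by
  apply quot_equiv _ _ _ _ (DX X₀)
  · intro c hc
    rw [mem_Cyc, on_inter] at hc ⊢
    obtain ⟨⟨hc1, hc2⟩, hc3⟩ := hc
    refine ⟨⟨on_DX _ _, on_res_of_on (on_D_len hc2)⟩, ?_⟩
    have h1 := DX_DX hX (hc1.mono Set.subset_union_right)
    rw [DX_union hd c, hc3, add_zero, DX_union hd, DX_closed hcl (on_DX _ _), add_zero] at h1
    exact h1
  · intro c hc
    rw [mem_Cyc, on_inter] at hc
    obtain ⟨⟨hc1, hc2⟩, hc3⟩ := hc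
    rw [mem_Bou, mem_Bou]
    constructor
    · rintro ⟨b, hb, hbD⟩
      rw [on_inter] at hb
      have h1 : DX (X₀ ∪ X₁) (c - b) = 0 := by
        rw [DX_union hd, map_sub, map_sub, hc3, DX_closed hcl hb.1, ← hbD]; simp
      obtain ⟨e, he, heD⟩ := acyc_graded h (n := n + 1)
        (on_inter.2 ⟨(hc1.mono Set.subset_union_right).sub (hb.1.mono Set.subset_union_left),
          hc2.sub hb.2⟩) h1
      rw [on_inter] at he
      refine ⟨res X₁ e, on_inter.2 ⟨on_res _ _, on_res_of_on he.2⟩, ?_⟩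
      have h2 : res X₁ (DX (X₀ ∪ X₁) e) = res X₁ (c - b) := by rw [heD]
      rw [DX_union hd, map_add, res_disj hd (on_DX _ _), zero_add, res_eq_self (on_DX _ _),
        map_sub, res_eq_self hc1, res_disj hd hb.1, sub_zero] at h2
      rw [← h2]
      conv_rhs => rw [split_on hd he.1, map_add, DX_closed hcl (on_res _ _), zero_add]
    · rintro ⟨b, hb, hbD⟩
      rw [on_inter] at hb
      refine ⟨- DX X₀ b, on_inter.2 ⟨(on_DX _ _).neg, ?_⟩, ?_⟩
      · exact (on_res_of_on (on_D_len hb.2)).neg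
      · have h1 := DX_DX hX (hb.1.mono Set.subset_union_right)
        rw [DX_union hd b, hbD, DX_union hd, map_add, map_add, hc3,
          DX_closed hcl (on_DX X₀ b)] at h1
        rw [map_neg, neg_eq_iff_add_eq_zero]
        simpa using h1
  · intro c hc
    rw [mem_Cyc, on_inter] at hc
    obtain ⟨⟨hc1, hc2⟩, hc3⟩ := hc
    obtain ⟨b, hb, hbD⟩ := acyc_graded h (n := n) (c := c)
      (on_inter.2 ⟨hc1.mono Set.subset_union_left, hc2⟩)
      (by rw [DX_union hd, hc3, DX_closed hcl hc1, add_zero])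
    rw [on_inter] at hb
    have hsp := split_on hd hb.1
    have h1 : DX X₁ (res X₁ b) = 0 := by
      have h2 : res X₁ (DX (X₀ ∪ X₁) b) = res X₁ c := by rw [hbD]
      rw [DX_union hd, map_add, res_disj hd (on_DX _ _), zero_add, res_eq_self (on_DX _ _),
        res_disj hd hc1, hsp, map_add, DX_closed hcl (on_res _ _), zero_add] at h2
      exact h2
    refine ⟨res X₁ b, ⟨on_inter.2 ⟨on_res _ _, on_res_of_on hb.2⟩, h1⟩, ?_⟩
    refine ⟨res X₀ b, on_inter.2 ⟨on_res _ _, on_res_of_on hb.2⟩, ?_⟩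
    rw [← hbD, DX_union hd]
    conv_rhs => rw [hsp, map_add, map_add, h1, DX_closed hcl (on_res _ _)]
    rw [← hsp]
    simp

/-- If the closed part is acyclic then the homology is that of the quotient. -/
theorem les_quot (hX : LC (X₀ ∪ X₁)) (hd : Disjoint X₀ X₁)
    (hcl : ∀ w ∈ X₀, ∀ w', Del w w' → w' ∉ X₁) (h : Acyc X₀) (n : ℕ) :
    Nonempty (H (X₀ ∪ X₁) n ≃ₗ[ℤ] H X₁ n) := by
  apply quot_equiv _ _ _ _ (res X₁)
  · intro c hc
    rw [mem_Cyc, on_inter] at hc ⊢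
    obtain ⟨⟨hc1, hc2⟩, hc3⟩ := hc
    refine ⟨⟨on_res _ _, on_res_of_on hc2⟩, ?_⟩
    have h2 : res X₁ (DX (X₀ ∪ X₁) c) = 0 := by rw [hc3, map_zero]
    rw [DX_union hd, map_add, res_disj hd (on_DX _ _), zero_add, res_eq_self (on_DX _ _),
      split_on hd hc1, map_add, DX_closed hcl (on_res _ _), zero_add] at h2
    exact h2
  · intro c hc
    rw [mem_Cyc, on_inter] at hc
    obtain ⟨⟨hc1, hc2⟩, hc3⟩ := hc
    rw [mem_Bou, mem_Bou]
    constructor
    · rintro ⟨b, hb, hbD⟩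
      rw [on_inter] at hb
      have h1 : c - DX (X₀ ∪ X₁) b = res X₀ c - DX X₀ b := by
        conv_lhs => rw [split_on hd hc1, DX_union hd, hbD]
        abel
      have h2 : DX X₀ (res X₀ c - DX X₀ b) = 0 := by
        have h3 : DX (X₀ ∪ X₁) (c - DX (X₀ ∪ X₁) b) = 0 := by
          rw [map_sub, hc3, DX_DX hX (hb.1.mono Set.subset_union_right), sub_zero]
        rw [h1, DX_union hd, DX_closed hcl ((on_res _ _).sub (on_DX _ _)), add_zero] at h3
        exact h3
      obtain ⟨e, he, heD⟩ := acyc_graded h (n := n)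
        (on_inter.2 ⟨(on_res _ _).sub (on_DX _ _),
          (on_res_of_on hc2).sub (on_res_of_on (on_D_len hb.2))⟩) h2
      rw [on_inter] at he
      refine ⟨b + e, on_inter.2 ⟨(hb.1.mono Set.subset_union_right).add
        (he.1.mono Set.subset_union_left), hb.2.add he.2⟩, ?_⟩
      rw [map_add, DX_union hd e, heD, DX_closed hcl he.1, add_zero, ← h1]
      abel
    · rintro ⟨b, hb, hbD⟩
      rw [on_inter] at hb
      refine ⟨res X₁ b, on_inter.2 ⟨on_res _ _, on_res_of_on hb.2⟩, ?_⟩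
      rw [← hbD, DX_union hd, map_add, res_disj hd (on_DX _ _), zero_add,
        res_eq_self (on_DX _ _)]
      conv_rhs => rw [split_on hd hb.1, map_add, DX_closed hcl (on_res _ _), zero_add]
  · intro c hc
    rw [mem_Cyc, on_inter] at hc
    obtain ⟨⟨hc1, hc2⟩, hc3⟩ := hc
    have h1 : DX (X₀ ∪ X₁) c = DX X₀ c := by rw [DX_union hd, hc3, add_zero]
    have h2 : DX X₀ (DX X₀ c) = 0 := by
      have h3 := DX_DX hX (hc1.mono Set.subset_union_right)
      rw [h1, DX_union hd, DX_closed hcl (on_DX _ _), add_zero] at h3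
      exact h3
    match n with
    | 0 =>
      refine ⟨c, ⟨on_inter.2 ⟨hc1.mono Set.subset_union_right, hc2⟩, ?_⟩, ?_⟩
      · rw [h1]
        apply res_eq_zero
        intro w' hw'
        obtain ⟨w, hw, hdl⟩ := D_support hw'
        have h4 : w.length = 0 := hc2 w hw
        have h5 := hdl.length
        omega
      · rw [res_eq_self hc1, sub_self]; exact Submodule.zero_mem _
    | n + 1 =>
      obtain ⟨e, he, heD⟩ := acyc_graded h (n := n)
        (on_inter.2 ⟨on_DX _ _, on_res_of_on (on_D_len hc2)⟩) h2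
      rw [on_inter] at he
      refine ⟨c - e, ⟨on_inter.2 ⟨(hc1.mono Set.subset_union_right).sub
        (he.1.mono Set.subset_union_left), hc2.sub he.2⟩, ?_⟩, ?_⟩
      · rw [map_sub, h1, DX_union hd e, heD, DX_closed hcl he.1]; simp
      · rw [map_sub, res_eq_self hc1, res_disj hd he.1]
        simp

theorem HomIs.les_shift (hX : LC (X₀ ∪ X₁)) (hd : Disjoint X₀ X₁)
    (hcl : ∀ w ∈ X₀, ∀ w', Del w w' → w' ∉ X₁) (h : Acyc (X₀ ∪ X₁)) {f : ℕ → ℕ}
    (hf : HomIs X₁ f) : HomIs X₀ (fun n => f (n + 1)) := by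
  intro n
  obtain ⟨e⟩ := MA.les_shift hX hd hcl h n
  obtain ⟨e'⟩ := hf (n + 1)
  exact ⟨e.symm.trans e'⟩

theorem HomIs.les_quot (hX : LC (X₀ ∪ X₁)) (hd : Disjoint X₀ X₁)
    (hcl : ∀ w ∈ X₀, ∀ w', Del w w' → w' ∉ X₁) (h : Acyc X₀) {f : ℕ → ℕ}
    (hf : HomIs X₁ f) : HomIs (X₀ ∪ X₁) f := by
  intro n
  obtain ⟨e⟩ := MA.les_quot hX hd hcl h n
  obtain ⟨e'⟩ := hf n
  exact ⟨e.trans e'⟩

theorem homIs_union (hd : Disjoint X₀ X₁)
    (hcl : ∀ w ∈ X₀, ∀ w', Del w w' → w' ∉ X₁) (hcl' : ∀ w ∈ X₁, ∀ w', Del w w' → w' ∉ X₀)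
    {f g : ℕ → ℕ} (hf : HomIs X₀ f) (hg : HomIs X₁ g) :
    HomIs (X₀ ∪ X₁) (fun n => f n + g n) := by
  intro n
  obtain ⟨e⟩ := hf n
  obtain ⟨e'⟩ := hg n
  have h0 : ∀ c, On (X₀ ∪ X₁) c → DX X₀ c = DX X₀ (res X₀ c) := by
    intro c hc
    conv_lhs => rw [split_on hd hc, map_add]
    rw [DX_closed hcl' (on_res _ _), add_zero]
  have h1 : ∀ c, On (X₀ ∪ X₁) c → DX X₁ c = DX X₁ (res X₁ c) := by
    intro c hc
    conv_lhs => rw [split_on hd hc, map_add]
    rw [DX_closed hcl (on_res _ _), zero_add]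
  -- the two restrictions
  have hr0 : ∀ c ∈ Cyc (X₀ ∪ X₁) n, res X₀ c ∈ Cyc X₀ n := by
    intro c hc
    rw [mem_Cyc, on_inter] at hc
    refine ⟨on_inter.2 ⟨on_res _ _, on_res_of_on hc.1.2⟩, ?_⟩
    rw [← h0 c hc.1.1]
    have := congrArg (res X₀) hc.2
    rw [DX_union hd, map_add, res_eq_self (on_DX _ _), res_disj hd.symm (on_DX _ _), add_zero,
      map_zero] at this
    exact this
  have hr1 : ∀ c ∈ Cyc (X₀ ∪ X₁) n, res X₁ c ∈ Cyc X₁ n := by
    intro c hc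
    rw [mem_Cyc, on_inter] at hc
    refine ⟨on_inter.2 ⟨on_res _ _, on_res_of_on hc.1.2⟩, ?_⟩
    rw [← h1 c hc.1.1]
    have := congrArg (res X₁) hc.2
    rw [DX_union hd, map_add, res_eq_self (on_DX X₁ _), res_disj hd (on_DX _ _), zero_add,
      map_zero] at this
    exact this
  let φ : Cyc (X₀ ∪ X₁) n →ₗ[ℤ] H X₀ n × H X₁ n :=
    LinearMap.prod ((Submodule.mkQ _).comp ((res X₀).restrict hr0))
      ((Submodule.mkQ _).comp ((res X₁).restrict hr1))
  have hker : LinearMap.ker φ = (Bou (X₀ ∪ X₁) n).submoduleOf (Cyc (X₀ ∪ X₁) n) := by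
    ext ⟨c, hc⟩
    rw [LinearMap.mem_ker]
    show ((Submodule.Quotient.mk _, Submodule.Quotient.mk _) : H X₀ n × H X₁ n) = 0 ↔ _
    rw [Prod.mk_eq_zero, Submodule.Quotient.mk_eq_zero, Submodule.Quotient.mk_eq_zero]
    show (res X₀ c ∈ Bou X₀ n ∧ res X₁ c ∈ Bou X₁ n) ↔ c ∈ Bou (X₀ ∪ X₁) n
    rw [mem_Cyc, on_inter] at hc
    constructor
    · rintro ⟨⟨b, hb, hbD⟩, ⟨b', hb', hb'D⟩⟩
      rw [on_inter] at hb hb'
      refine ⟨b + b', on_inter.2 ⟨(hb.1.mono Set.subset_union_left).add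
        (hb'.1.mono Set.subset_union_right), hb.2.add hb'.2⟩, ?_⟩
      rw [map_add, DX_union hd, DX_union hd, hbD, hb'D, DX_closed hcl hb.1,
        DX_closed hcl' hb'.1, add_zero, zero_add]
      exact (split_on hd hc.1.1).symm
    · rintro ⟨b, hb, hbD⟩
      rw [on_inter] at hb
      rw [DX_union hd] at hbD
      refine ⟨⟨res X₀ b, on_inter.2 ⟨on_res _ _, on_res_of_on hb.2⟩, ?_⟩,
        ⟨res X₁ b, on_inter.2 ⟨on_res _ _, on_res_of_on hb.2⟩, ?_⟩⟩
      · rw [← h0 b hb.1, ← hbD, map_add, res_eq_self (on_DX _ _), res_disj hd.symm (on_DX _ _),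
          add_zero]
      · rw [← h1 b hb.1, ← hbD, map_add, res_eq_self (on_DX X₁ _), res_disj hd (on_DX _ _),
          zero_add]
  have hsurj : Function.Surjective φ := by
    rintro ⟨x, y⟩
    obtain ⟨⟨c, hc⟩, rfl⟩ := Submodule.Quotient.mk_surjective _ x
    obtain ⟨⟨c', hc'⟩, rfl⟩ := Submodule.Quotient.mk_surjective _ y
    rw [mem_Cyc, on_inter] at hc hc'
    have hmem : c + c' ∈ Cyc (X₀ ∪ X₁) n := by
      refine ⟨on_inter.2 ⟨(hc.1.1.mono Set.subset_union_left).add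
        (hc'.1.1.mono Set.subset_union_right), hc.1.2.add hc'.1.2⟩, ?_⟩
      rw [map_add, DX_union hd, DX_union hd, hc.2, hc'.2, DX_closed hcl hc.1.1,
        DX_closed hcl' hc'.1.1]
      simp
    refine ⟨⟨c + c', hmem⟩, ?_⟩
    have e1 : res X₀ (c + c') = c := by
      rw [map_add, res_eq_self hc.1.1, res_disj hd.symm hc'.1.1, add_zero]
    have e2 : res X₁ (c + c') = c' := by
      rw [map_add, res_eq_self hc'.1.1, res_disj hd hc.1.1, zero_add]
    show ((Submodule.Quotient.mk _, Submodule.Quotient.mk _) : H X₀ n × H X₁ n) = _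
    congr 1
    · congr 1
      exact Subtype.ext e1
    · congr 1
      exact Subtype.ext e2
  have e3 : H (X₀ ∪ X₁) n ≃ₗ[ℤ] H X₀ n × H X₁ n :=
    (Submodule.quotEquivOfEq _ _ hker.symm).trans (φ.quotKerEquivOfSurjective hsurj)
  have e4 : (H X₀ n × H X₁ n) ≃ₗ[ℤ] (Fin (f n) → ℤ) × (Fin (g n) → ℤ) :=
    LinearEquiv.prodCongr e e'
  have e5 : ((Fin (f n) → ℤ) × (Fin (g n) → ℤ)) ≃ₗ[ℤ] (Fin (f n) ⊕ Fin (g n) → ℤ) :=
    (LinearEquiv.sumArrowLequivProdArrow (Fin (f n)) (Fin (g n)) ℤ ℤ).symm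
  have e6 : (Fin (f n) ⊕ Fin (g n) → ℤ) ≃ₗ[ℤ] (Fin (f n + g n) → ℤ) :=
    LinearEquiv.funCongrLeft ℤ ℤ finSumFinEquiv.symm
  exact ⟨e3.trans (e4.trans (e5.trans e6))⟩

end les

end Pool.Agent.T6.H82.MA
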