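import Mathlib
import Pool.Agent.T6.H82.MA.Hom

/-!
# Transport of complexes of words: prefixes, suffixes, cones
-/

set_option autoImplicit false

namespace Pool.Agent.T6.H82.MA

open Finsupp

variable {α : Type*}

/-- `mapDomain` as a linear map -/
noncomputable def mp (φ : List α → List α) : Chn α →ₗ[ℤ] Chn α := Finsupp.lmapDomain ℤ ℤ φ

theorem mp_single (φ : List α → List α) (w : List α) (n : ℤ) :
    mp φ (single w n) = single (φ w) n := by
  simp [mp]

theorem mp_support {φ : List α → List α} {c : Chn α} {w : List α} (h : mp φ c w ≠ 0) :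
    ∃ u, c u ≠ 0 ∧ w = φ u := by
  classical
  have h3 : w ∈ (mapDomain φ c).support := by simpa [mp] using h
  have h4 := Finsupp.mapDomain_support h3
  rw [Finset.mem_image] at h4
  obtain ⟨v, hv, rfl⟩ := h4
  exact ⟨v, by simpa using hv, rfl⟩

theorem bd_cons (a : α) (w : List α) : bd (a :: w) = single w 1 - mp (List.cons a) (bd w) := rfl

theorem mp_mp (φ ψ : List α → List α) (c : Chn α) : mp φ (mp ψ c) = mp (fun w => φ (ψ w)) c := by
  simp only [mp, lmapDomain_apply]
  rw [← mapDomain_comp]
  rfl

theorem bd_append (u v : List α) :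
    bd (u ++ v) = mp (fun w => w ++ v) (bd u) + (-1) ^ u.length • mp (fun w => u ++ w) (bd v) := by
  induction u with
  | nil =>
    have h : mp (fun w : List α => w) (bd v) = bd v := by
      simp only [mp, lmapDomain_apply]; exact mapDomain_id
    simp [bd, h]
  | cons a u ih =>
    rw [List.cons_append, bd_cons, ih, bd_cons, map_sub, mp_single, map_add, mp_mp, map_smul,
      mp_mp, mp_mp, List.length_cons, pow_succ]
    simp only [List.cons_append]
    simp only [mul_neg, mul_one, neg_smul]
    abel

theorem mp_injective {φ : List α → List α} (hφ : Function.Injective φ) :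
    Function.Injective (mp φ) := by
  intro a b h
  simp only [mp, lmapDomain_apply] at h
  exact mapDomain_injective hφ h

theorem mp_res {φ : List α → List α} (hφ : Function.Injective φ) (U : Set (List α)) (c : Chn α) :
    mp φ (res U c) = res (φ '' U) (mp φ c) := by
  have h := lin_ext_on (X := Set.univ) ((mp φ).comp (res U)) ((res (φ '' U)).comp (mp φ))
    (by
      intro w _
      simp only [LinearMap.comp_apply]
      by_cases hw : w ∈ U
      · rw [res_eq_self (on_single hw 1), mp_single,
          res_eq_self (on_single (Set.mem_image_of_mem φ hw) 1)]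
      · rw [mp_single, res_eq_zero, res_eq_zero, map_zero]
        · intro v hv
          have : v = φ w := by
            by_contra hne
            classical
            exact hv (by rw [single_apply, if_neg (Ne.symm hne)])
          subst this
          rintro ⟨u, hu, hφu⟩
          rw [hφ hφu] at hu
          exact hw hu
        · intro v hv
          have : v = w := by
            by_contra hne
            classical
            exact hv (by rw [single_apply, if_neg (Ne.symm hne)])
          subst this
          exact hw) (c := c) (fun _ _ => trivial)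
  exact h

theorem exists_of_on_image {φ : List α → List α} {U : Set (List α)}
    {c : Chn α} (hc : On (φ '' U) c) (hφ : Function.Injective φ) :
    ∃ c', On U c' ∧ mp φ c' = c := by
  classical
  refine ⟨Finsupp.comapDomain φ c hφ.injOn, ?_, ?_⟩
  · intro w hw
    rw [comapDomain_apply] at hw
    obtain ⟨u, hu, hφu⟩ := hc _ hw
    rw [← hφ hφu]; exact hu
  · simp only [mp, lmapDomain_apply]
    apply mapDomain_comapDomain φ hφ
    intro w hw
    obtain ⟨u, _, hφu⟩ := hc w (by simpa using hw)
    exact ⟨u, hφu⟩

theorem on_mp {φ : List α → List α} {U : Set (List α)} {c : Chn α} (hc : On U c) :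
    On (φ '' U) (mp φ c) := by
  intro w hw
  obtain ⟨u, hu, rfl⟩ := mp_support hw
  exact ⟨u, hc u hu, rfl⟩

theorem acyc_of_map {φ : List α → List α} (hφ : Function.Injective φ) (ε : ℤ) (hε : ε * ε = 1)
    {U : Set (List α)} (hD : ∀ u ∈ U, DX (φ '' U) (single (φ u) 1) = ε • mp φ (DX U (single u 1)))
    (h : Acyc U) : Acyc (φ '' U) := by
  have hD' : ∀ c, On U c → DX (φ '' U) (mp φ c) = ε • mp φ (DX U c) := by
    intro c hc
    exact lin_ext_on ((DX (φ '' U)).comp (mp φ)) (ε • (mp φ).comp (DX U))
      (by
        intro u hu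
        simp only [LinearMap.comp_apply, LinearMap.smul_apply]
        rw [mp_single]; exact hD u hu) hc
  intro c hc hcD
  obtain ⟨c', hc', rfl⟩ := exists_of_on_image hc hφ
  rw [hD' c' hc'] at hcD
  have h1 : mp φ (DX U c') = 0 := by
    have := congrArg (fun x => ε • x) hcD
    simp only [smul_smul, hε, one_smul, smul_zero] at this
    exact this
  have h2 : DX U c' = 0 := mp_injective hφ (by rw [h1, map_zero])
  obtain ⟨b, hb, hbD⟩ := h c' hc' h2
  refine ⟨ε • mp φ b, (on_mp hb).smul ε, ?_⟩
  rw [map_smul, hD' b hb, hbD, smul_smul, hε, one_smul]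

theorem append_left_inj' (s : List α) : Function.Injective (fun w : List α => s ++ w) :=
  fun _ _ h => List.append_cancel_left h

theorem append_right_inj' (s : List α) : Function.Injective (fun w : List α => w ++ s) :=
  fun _ _ h => List.append_cancel_right h

/-- adding a fixed prefix -/
theorem DX_prefix {U : Set (List α)} {s : List α}
    (hs : ∀ u ∈ U, ∀ s', Del s s' → s' ++ u ∉ (fun w => s ++ w) '' U) {u : List α} (hu : u ∈ U) :
    DX ((fun w => s ++ w) '' U) (single (s ++ u) 1)
      = (-1) ^ s.length • mp (fun w => s ++ w) (DX U (single u 1)) := by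
  rw [DX_apply, ← bd_eq, bd_append, map_add, map_smul, DX_apply, ← bd_eq,
    mp_res (append_left_inj' s)]
  rw [res_eq_zero, zero_add]
  intro w hw
  obtain ⟨s', hs', rfl⟩ := mp_support hw
  exact hs u hu s' (bd_support hs')

/-- adding a fixed suffix -/
theorem DX_suffix {U : Set (List α)} {s : List α}
    (hs : ∀ u ∈ U, ∀ s', Del s s' → u ++ s' ∉ (fun w => w ++ s) '' U) {u : List α} (hu : u ∈ U) :
    DX ((fun w => w ++ s) '' U) (single (u ++ s) 1)
      = mp (fun w => w ++ s) (DX U (single u 1)) := by
  rw [DX_apply, ← bd_eq, bd_append, map_add, map_smul, DX_apply, ← bd_eq,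
    mp_res (append_right_inj' s)]
  rw [res_eq_zero (c := mp (fun w => u ++ w) (bd s)), smul_zero, add_zero]
  intro w hw
  obtain ⟨s', hs', rfl⟩ := mp_support hw
  exact hs u hu s' (bd_support hs')

theorem neg_one_pow_sq (n : ℕ) : ((-1 : ℤ) ^ n) * (-1) ^ n = 1 := by
  rw [← mul_pow]; simp

theorem acyc_prefix {U X : Set (List α)} {s : List α} (hX : X = (fun w => s ++ w) '' U)
    (hs : ∀ u ∈ U, ∀ s', Del s s' → s' ++ u ∉ X) (h : Acyc U) : Acyc X := by
  subst hX
  exact acyc_of_map (append_left_inj' s) ((-1) ^ s.length) (neg_one_pow_sq _)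
    (fun u hu => DX_prefix hs hu) h

theorem acyc_suffix {U X : Set (List α)} {s : List α} (hX : X = (fun w => w ++ s) '' U)
    (hs : ∀ u ∈ U, ∀ s', Del s s' → u ++ s' ∉ X) (h : Acyc U) : Acyc X := by
  subst hX
  exact acyc_of_map (append_right_inj' s) 1 (one_mul 1)
    (fun u hu => by rw [one_smul]; exact DX_suffix hs hu) h

/-- shift of a rank function by one degree -/
def shift (f : ℕ → ℕ) : ℕ → ℕ
  | 0 => 0
  | n + 1 => f n

theorem homIs_cons {U X : Set (List α)} {a : α} (hX : X = (List.cons a) '' U)
    (hs : ∀ u ∈ U, u ∉ X) {f : ℕ → ℕ} (h : HomIs U f) : HomIs X (shift f) := by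
  have hinj : Function.Injective (List.cons a) := List.cons_injective
  have hD : ∀ c, On U c → DX X (mp (List.cons a) c) = - mp (List.cons a) (DX U c) := by
    intro c hc
    exact lin_ext_on ((DX X).comp (mp (List.cons a))) (- (mp (List.cons a)).comp (DX U))
      (by
        intro u hu
        simp only [LinearMap.comp_apply, LinearMap.neg_apply]
        rw [mp_single, DX_apply, ← bd_eq, bd_cons, map_sub, DX_apply, ← bd_eq, mp_res hinj, ← hX]
        rw [res_eq_zero, zero_sub]
        intro w hw
        have : w = u := by
          by_contra hne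
          classical
          exact hw (by rw [single_apply, if_neg (Ne.symm hne)])
        subst this
        exact hs w hu) hc
  intro n
  match n with
  | 0 =>
    have hsub : Subsingleton (H X 0) := by
      rw [Submodule.Quotient.subsingleton_iff, Submodule.submoduleOf_eq_top]
      intro c hc
      have : c = 0 := by
        ext w
        by_contra hne
        have h1 := hc.1 w hne
        rw [hX] at h1
        obtain ⟨⟨u, _, rfl⟩, h2⟩ := h1
        exact absurd h2 (by simp [Len])
      rw [this]; exact Submodule.zero_mem _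
    have hsub' : Subsingleton (Fin (shift f 0) → ℤ) := by
      show Subsingleton (Fin 0 → ℤ)
      infer_instance
    exact ⟨LinearEquiv.ofSubsingleton _ _⟩
  | n + 1 =>
    have key : Nonempty (H U n ≃ₗ[ℤ] H X (n + 1)) := by
      have hlen : ∀ {c : Chn α} {n : ℕ}, On (U ∩ Len α n) c →
          On (X ∩ Len α (n + 1)) (mp (List.cons a) c) := by
        intro c n hc w hw
        obtain ⟨u, hu, rfl⟩ := mp_support hw
        have h1 := hc u hu
        have h2 : u.length = n := h1.2
        exact ⟨hX ▸ ⟨u, h1.1, rfl⟩, by show (a :: u).length = n + 1; simp [h2]⟩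
      have hlen' : ∀ {c : Chn α} {n : ℕ}, On (X ∩ Len α (n + 1)) c →
          ∃ c', On (U ∩ Len α n) c' ∧ mp (List.cons a) c' = c := by
        intro c n hc
        rw [on_inter] at hc
        obtain ⟨c', hc', rfl⟩ := exists_of_on_image (hX ▸ hc.1) hinj
        refine ⟨c', on_inter.2 ⟨hc', ?_⟩, rfl⟩
        intro u hu
        have h1 : mp (List.cons a) c' (a :: u) ≠ 0 := by
          simp only [mp, lmapDomain_apply]
          rw [mapDomain_apply hinj]; exact hu
        have h2 : (a :: u).length = n + 1 := hc.2 _ h1
        show u.length = n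
        simpa using h2
      apply quot_equiv _ _ _ _ (mp (List.cons a))
      · intro c hc
        refine ⟨hlen hc.1, ?_⟩
        rw [hD c (on_inter.1 hc.1).1, hc.2, map_zero, neg_zero]
      · intro c hc
        constructor
        · rintro ⟨b, hb, hbD⟩
          obtain ⟨b', hb', rfl⟩ := hlen' hb
          rw [hD b' (on_inter.1 hb').1, ← map_neg] at hbD
          have := mp_injective hinj hbD
          exact ⟨-b', hb'.neg, by rw [map_neg]; exact this⟩
        · rintro ⟨b, hb, rfl⟩
          refine ⟨- mp (List.cons a) b, (hlen hb).neg, ?_⟩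
          rw [map_neg, hD b (on_inter.1 hb).1, neg_neg]
      · intro c hc
        obtain ⟨c', hc', rfl⟩ := hlen' hc.1
        refine ⟨c', ⟨hc', ?_⟩, by rw [sub_self]; exact Submodule.zero_mem _⟩
        have h1 := hc.2
        rw [hD c' (on_inter.1 hc').1, neg_eq_zero] at h1
        exact mp_injective hinj (by rw [h1, map_zero])
    obtain ⟨e⟩ := key
    obtain ⟨e'⟩ := h n
    exact ⟨e.symm.trans e'⟩

theorem on_single_eq {w v : List α} {n : ℤ} (h : single w n v ≠ 0) : v = w := by
  by_contra hne
  classical
  exact h (by rw [single_apply, if_neg (Ne.symm hne)])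

/-- a contraction which adds the letter `g` at the end -/
theorem acyc_cone {U : Set (List α)} (g : α)
    (h1 : ∀ p, (¬ ∃ q, p = q ++ [g]) → (p ∈ U ↔ p ++ [g] ∈ U))
    (h2 : ∀ q, q ++ [g] ++ [g] ∉ U) : Acyc U := by
  classical
  let R : Chn α →ₗ[ℤ] Chn α := Finsupp.linearCombination ℤ
    (fun p : List α => if ∃ q, p = q ++ [g] then (0 : Chn α) else (-1 : ℤ) ^ p.length • single (p ++ [g]) 1)
  have hR1 : ∀ p : List α, (∃ q, p = q ++ [g]) → ∀ n : ℤ, R (single p n) = 0 := by
    intro p hp n
    simp [R, hp]
  have hR2 : ∀ p : List α, (¬ ∃ q, p = q ++ [g]) →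
      R (single p 1) = (-1 : ℤ) ^ p.length • single (p ++ [g]) 1 := by
    intro p hp
    simp only [R, linearCombination_single, one_smul]
    rw [if_neg hp]
  have hRU : ∀ c, On U c → On U (R c) := by
    intro c hc
    have : R c = ∑ w ∈ c.support, R (single w (c w)) := by
      conv_lhs => rw [← Finsupp.sum_single c, Finsupp.sum, map_sum]
    rw [this]
    apply On.sum
    intro w hw
    by_cases hl : ∃ q, w = q ++ [g]
    · rw [hR1 w hl]; exact On.zero _
    · have h3 : single w (c w) = c w • single w (1 : ℤ) := by simp
      rw [h3, map_smul, hR2 w hl]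
      exact ((on_single ((h1 w hl).1 (hc w (by simpa using hw))) 1).smul _).smul _
  -- the key identity on words of length `n`
  have hkey : ∀ (n : ℕ) (y : Chn α), On (Len α n) y →
      res U (mp (fun w => w ++ [g]) y) = (-1 : ℤ) ^ n • R (res U y) := by
    intro n y hy
    refine lin_ext_on ((res U).comp (mp fun w => w ++ [g])) ((-1 : ℤ) ^ n • R.comp (res U)) ?_ hy
    intro p hp
    simp only [LinearMap.comp_apply, LinearMap.smul_apply]
    rw [mp_single]
    have hp' : p.length = n := hp
    by_cases hl : ∃ q, p = q ++ [g]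
    · have h3 : R (res U (single p 1)) = 0 := by
        by_cases hpU : p ∈ U
        · rw [res_eq_self (on_single hpU 1), hR1 p hl]
        · rw [res_eq_zero, map_zero]
          intro v hv; rw [on_single_eq hv]; exact hpU
      rw [h3, smul_zero, res_eq_zero]
      intro v hv
      rw [on_single_eq hv]
      obtain ⟨q, rfl⟩ := hl
      exact h2 q
    · by_cases hpU : p ∈ U
      · rw [res_eq_self (on_single hpU 1), hR2 p hl, res_eq_self (on_single ((h1 p hl).1 hpU) 1),
          smul_smul, hp', neg_one_pow_sq, one_smul]
      · rw [res_eq_zero (c := single p 1), map_zero, smul_zero, res_eq_zero]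
        · intro v hv; rw [on_single_eq hv]
          exact fun h => hpU ((h1 p hl).2 h)
        · intro v hv; rw [on_single_eq hv]; exact hpU
  have hcontr : ∀ c, On U c → DX U (R c) + R (DX U c) = c := by
    intro c hc
    refine lin_ext_on ((DX U).comp R + R.comp (DX U)) LinearMap.id ?_ hc
    intro p hp
    simp only [LinearMap.comp_apply, LinearMap.add_apply, LinearMap.id_apply]
    by_cases hl : ∃ q, p = q ++ [g]
    · obtain ⟨q, rfl⟩ := hl
      have hlq : ¬ ∃ r, q = r ++ [g] := by
        rintro ⟨r, rfl⟩
        exact h2 r hp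
      rw [hR1 _ ⟨q, rfl⟩, map_zero, zero_add, DX_apply, ← bd_eq, bd_append, map_add, map_add]
      have e1 : R (res U (mp (fun w => w ++ [g]) (bd q))) = 0 := by
        have h3 : On {w | ∃ r, w = r ++ [g]} (res U (mp (fun w => w ++ [g]) (bd q))) := by
          apply on_res_of_on
          intro w hw
          obtain ⟨r, _, rfl⟩ := mp_support hw
          exact ⟨r, rfl⟩
        have h4 := lin_ext_on R 0 (X := {w | ∃ r, w = r ++ [g]})
          (fun w hw => by rw [hR1 w hw]; rfl) h3
        rw [h4]; rfl
      rw [e1, zero_add]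
      have e2 : bd [g] = single ([] : List α) 1 := by
        simp [bd]
      rw [e2, mp_single, List.append_nil, map_smul, map_smul,
        res_eq_self (on_single ((h1 q hlq).2 hp) 1), hR2 q hlq, smul_smul, neg_one_pow_sq,
        one_smul]
    · rw [hR2 p hl, map_smul, DX_apply, ← bd_eq, bd_append, map_add, smul_add, map_smul]
      have e2 : bd [g] = single ([] : List α) 1 := by
        simp [bd]
      rw [e2, mp_single, List.append_nil, smul_smul, neg_one_pow_sq, one_smul,
        res_eq_self (on_single hp 1)]
      have e3 : (-1 : ℤ) ^ p.length • res U (mp (fun w => w ++ [g]) (bd p)) + R (DX U (single p 1))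
          = 0 := by
        rcases Nat.eq_zero_or_pos p.length with h0 | h0
        · have : p = [] := List.length_eq_zero_iff.1 h0
          subst this
          simp [bd, DX_apply, ← bd_eq]
        · obtain ⟨n, hn⟩ : ∃ n, p.length = n + 1 := ⟨p.length - 1, by omega⟩
          have h5 : On (Len α n) (bd p) := by
            rw [bd_eq]; exact on_D_len (on_single hn 1)
          rw [hkey n _ h5, hn, DX_apply, ← bd_eq, pow_succ, smul_smul, mul_assoc,
            mul_comm (-1 : ℤ), ← mul_assoc, neg_one_pow_sq]
          simp
      rw [add_right_comm, e3, zero_add]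
  intro c hc hD
  refine ⟨R c, hRU c hc, ?_⟩
  have := hcontr c hc
  rw [hD, map_zero, add_zero] at this
  exact this

end Pool.Agent.T6.H82.MA
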