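import Mathlib
import Pool.Agent.T6.H82.MA.Tr

/-!
# Order complexes in terms of decreasing words
-/

set_option autoImplicit false

namespace Pool.Agent.T6.H82.MA

variable {α : Type*}

/-- strictly decreasing words in the set `P`, with respect to a strict order `r a b` (`a` below
`b`) -/
def Wd (r : α → α → Prop) (P : Set α) : Set (List α) :=
  {w | w.Pairwise (fun a b => r b a) ∧ ∀ a ∈ w, a ∈ P}

theorem Wd.of_sublist {r : α → α → Prop} {P : Set α} {w w' : List α} (h : w ∈ Wd r P)
    (hs : w'.Sublist w) : w' ∈ Wd r P :=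
  ⟨h.1.sublist hs, fun a ha => h.2 a (hs.subset ha)⟩

theorem Wd.of_del {r : α → α → Prop} {P : Set α} {w w' : List α} (h : w ∈ Wd r P)
    (hs : Del w w') : w' ∈ Wd r P := Wd.of_sublist h hs.sublist

theorem lc_Wd (r : α → α → Prop) (P : Set α) : LC (Wd r P) :=
  fun _ _ _ hw hd _ _ => Wd.of_del hw hd

theorem Wd.mono {r : α → α → Prop} {P Q : Set α} (h : P ⊆ Q) : Wd r P ⊆ Wd r Q :=
  fun _ hw => ⟨hw.1, fun a ha => h (hw.2 a ha)⟩

/-- the order complex of `P` is acyclic -/
def AcP (r : α → α → Prop) (P : Set α) : Prop := Acyc (Wd r P)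

variable {r : α → α → Prop}

/-- a poset with a least element -/
theorem acP_of_min (hirr : ∀ a, ¬ r a a) (htr : ∀ a b c, r a b → r b c → r a c) {P : Set α} {a : α}
    (ha : a ∈ P) (hmin : ∀ b ∈ P, b ≠ a → r a b) : AcP r P := by
  apply acyc_cone a
  · intro p hp
    constructor
    · intro h
      refine ⟨?_, ?_⟩
      · rw [List.pairwise_append]
        refine ⟨h.1, List.pairwise_singleton _ _, ?_⟩
        intro x hx y hy
        rw [List.mem_singleton] at hy
        subst hy
        by_cases hxy : x = y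
        · subst hxy
          exfalso
          obtain ⟨u, v, rfl⟩ := List.append_of_mem hx
          rcases v.eq_nil_or_concat with rfl | ⟨v', b, rfl⟩
          · exact hp ⟨u, rfl⟩
          · have h1 := h.1
            rw [List.pairwise_append] at h1
            have h2 := h1.2.1
            rw [List.pairwise_cons] at h2
            have h3 : r b x := h2.1 b (by simp)
            have hb : b ∈ P := h.2 b (by simp)
            have hbx : b ≠ x := by rintro rfl; exact hirr _ h3
            exact hirr _ (htr _ _ _ h3 (hmin b hb hbx))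
        · exact hmin x (h.2 x hx) hxy
      · intro x hx
        rw [List.mem_append, List.mem_singleton] at hx
        rcases hx with hx | rfl
        · exact h.2 x hx
        · exact ha
    · intro h
      exact Wd.of_sublist h (List.sublist_append_left p [a])
  · intro q h
    have h1 := h.1
    rw [List.pairwise_append] at h1
    exact hirr _ (h1.2.2 a (by simp) a (by simp))

theorem acP_singleton (hirr : ∀ a, ¬ r a a) (htr : ∀ a b c, r a b → r b c → r a c) (a : α) :
    AcP r {a} :=
  acP_of_min hirr htr (Set.mem_singleton a) (fun _ hb h => absurd hb h)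

theorem mem_split {P : Set α} {p : α} {w : List α} (hw : w ∈ Wd r (insert p P)) (hp : p ∈ w)
    (hirr : ∀ a, ¬ r a a) :
    ∃ u v, w = u ++ p :: v ∧ u ∈ Wd r {q | q ∈ P ∧ r p q} ∧ v ∈ Wd r {q | q ∈ P ∧ r q p} := by
  obtain ⟨u, v, rfl⟩ := List.append_of_mem hp
  have h1 := hw.1
  rw [List.pairwise_append, List.pairwise_cons] at h1
  refine ⟨u, v, rfl, ⟨h1.1, ?_⟩, ⟨h1.2.1.2, ?_⟩⟩
  · intro a ha
    have h2 := h1.2.2 a ha p (by simp)
    have h3 := hw.2 a (by simp [ha])
    rcases h3 with rfl | h3
    · exact absurd h2 (hirr _)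
    · exact ⟨h3, h2⟩
  · intro a ha
    have h2 := h1.2.1.1 a ha
    have h3 := hw.2 a (by simp [ha])
    rcases h3 with rfl | h3
    · exact absurd h2 (hirr _)
    · exact ⟨h3, h2⟩

theorem join_mem (htr : ∀ a b c, r a b → r b c → r a c) {P : Set α} {p : α} {u v : List α}
    (hu : u ∈ Wd r {q | q ∈ P ∧ r p q}) (hv : v ∈ Wd r {q | q ∈ P ∧ r q p}) :
    u ++ p :: v ∈ Wd r (insert p P) := by
  refine ⟨?_, ?_⟩
  · rw [List.pairwise_append, List.pairwise_cons]
    refine ⟨hu.1, ⟨fun a ha => (hv.2 a ha).2, hv.1⟩, ?_⟩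
    intro a ha b hb
    rw [List.mem_cons] at hb
    rcases hb with rfl | hb
    · exact (hu.2 a ha).2
    · exact htr _ _ _ (hv.2 b hb).2 (hu.2 a ha).2
  · intro a ha
    rw [List.mem_append, List.mem_cons] at ha
    rcases ha with ha | rfl | ha
    · exact Or.inr (hu.2 a ha).1
    · exact Or.inl rfl
    · exact Or.inr (hv.2 a ha).1

/-- the words containing `p` -/
def Wp (r : α → α → Prop) (P : Set α) (p : α) : Set (List α) := {w | w ∈ Wd r (insert p P) ∧ p ∈ w}

theorem lc_Wp (P : Set α) (p : α) : LC (Wp r P p) :=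
  fun _ _ _ hw hd hd' hw' => ⟨Wd.of_del hw.1 hd, hd'.sublist.subset hw'.2⟩

theorem filter_lt_split [DecidableRel r] (hirr : ∀ a, ¬ r a a)
    (htr : ∀ a b c, r a b → r b c → r a c) {P : Set α} {p : α} {u v : List α}
    (hu : u ∈ Wd r {q | q ∈ P ∧ r p q}) (hv : v ∈ Wd r {q | q ∈ P ∧ r q p}) :
    (u ++ p :: v).filter (fun a => decide (r a p)) = v := by
  rw [List.filter_append, List.filter_cons]
  have h1 : u.filter (fun a => decide (r a p)) = [] := by
    rw [List.filter_eq_nil_iff]
    intro a ha h
    have h2 := (hu.2 a ha).2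
    exact hirr _ (htr _ _ _ h2 (by simpa using h))
  have h2 : v.filter (fun a => decide (r a p)) = v := by
    rw [List.filter_eq_self]
    intro a ha
    simpa using (hv.2 a ha).2
  rw [h1, h2]
  simp [hirr p]

theorem filter_gt_split [DecidableRel r] (hirr : ∀ a, ¬ r a a)
    (htr : ∀ a b c, r a b → r b c → r a c) {P : Set α} {p : α} {u v : List α}
    (hu : u ∈ Wd r {q | q ∈ P ∧ r p q}) (hv : v ∈ Wd r {q | q ∈ P ∧ r q p}) :
    (u ++ p :: v).filter (fun a => decide (r p a)) = u := by
  rw [List.filter_append, List.filter_cons]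
  have h1 : v.filter (fun a => decide (r p a)) = [] := by
    rw [List.filter_eq_nil_iff]
    intro a ha h
    have h2 := (hv.2 a ha).2
    exact hirr _ (htr _ _ _ h2 (by simpa using h))
  have h2 : u.filter (fun a => decide (r p a)) = u := by
    rw [List.filter_eq_self]
    intro a ha
    simpa using (hu.2 a ha).2
  rw [h1, h2]
  simp [hirr p]

theorem Wd_insert {P : Set α} {p : α} (hp : p ∉ P) : Wd r (insert p P) = Wd r P ∪ Wp r P p := by
  ext w
  constructor
  · intro h
    by_cases hpw : p ∈ w
    · exact Or.inr ⟨h, hpw⟩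
    · left
      refine ⟨h.1, fun a ha => ?_⟩
      rcases h.2 a ha with rfl | h1
      · exact absurd ha hpw
      · exact h1
  · rintro (h | h)
    · exact Wd.mono (Set.subset_insert _ _) h
    · exact h.1

theorem disj_Wd_Wp {P : Set α} {p : α} (hp : p ∉ P) : Disjoint (Wd r P) (Wp r P p) := by
  rw [Set.disjoint_left]
  intro w h h'
  exact hp (h.2 p h'.2)

theorem closed_Wd_Wp {P : Set α} {p : α} (hp : p ∉ P) :
    ∀ w ∈ Wd r P, ∀ w', Del w w' → w' ∉ Wp r P p :=
  fun _ hw _ hd h => hp ((Wd.of_del hw hd).2 p h.2)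

theorem acP_insert_of_Wp {P : Set α} {p : α} (hp : p ∉ P) (h0 : AcP r P)
    (h1 : Acyc (Wp r P p)) : AcP r (insert p P) := by
  unfold AcP
  rw [Wd_insert hp]
  refine acyc_union ?_ (disj_Wd_Wp hp) (closed_Wd_Wp hp) h0 h1
  rw [← Wd_insert hp]
  exact lc_Wd r _

/-- adding an element whose upper link is acyclic -/
theorem acP_add_up (hirr : ∀ a, ¬ r a a) (htr : ∀ a b c, r a b → r b c → r a c) {P : Set α}
    {p : α} (hp : p ∉ P) (h0 : AcP r P) (h1 : AcP r {q | q ∈ P ∧ r p q}) :
    AcP r (insert p P) := by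
  classical
  refine acP_insert_of_Wp hp h0 ?_
  apply acyc_of_filter (lc_Wp P p) (fun a => decide (r a p))
  intro s
  by_cases hs : s ∈ Wd r {q | q ∈ P ∧ r q p}
  · refine acyc_suffix (U := Wd r {q | q ∈ P ∧ r p q}) (s := p :: s) ?_ ?_ h1
    · ext w
      constructor
      · rintro ⟨⟨hw, hpw⟩, hf⟩
        obtain ⟨u, v, rfl, hu, hv⟩ := mem_split hw hpw hirr
        rw [filter_lt_split hirr htr hu hv] at hf
        subst hf
        exact ⟨u, hu, rfl⟩
      · rintro ⟨u, hu, rfl⟩
        exact ⟨⟨join_mem htr hu hs, by simp⟩, filter_lt_split hirr htr hu hs⟩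
    · intro u hu s' hd hmem
      rw [del_cons] at hd
      rcases hd with rfl | ⟨v, hd, rfl⟩
      · have h2 := hmem.1.2
        rw [List.mem_append] at h2
        rcases h2 with h2 | h2
        · exact hp (hu.2 p h2).1
        · exact hp (hs.2 p h2).1
      · have h2 := hmem.2
        rw [filter_lt_split hirr htr hu (Wd.of_del hs hd)] at h2
        have := hd.length
        rw [h2] at this
        omega
  · convert acyc_empty using 1
    ext w
    simp only [Set.mem_empty_iff_false, iff_false]
    rintro ⟨⟨hw, hpw⟩, hf⟩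
    obtain ⟨u, v, rfl, hu, hv⟩ := mem_split hw hpw hirr
    rw [filter_lt_split hirr htr hu hv] at hf
    exact hs (hf ▸ hv)

/-- adding an element whose lower link is acyclic -/
theorem acP_add_down (hirr : ∀ a, ¬ r a a) (htr : ∀ a b c, r a b → r b c → r a c) {P : Set α}
    {p : α} (hp : p ∉ P) (h0 : AcP r P) (h1 : AcP r {q | q ∈ P ∧ r q p}) :
    AcP r (insert p P) := by
  classical
  refine acP_insert_of_Wp hp h0 ?_
  apply acyc_of_filter (lc_Wp P p) (fun a => decide (r p a))
  intro s
  by_cases hs : s ∈ Wd r {q | q ∈ P ∧ r p q}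
  · refine acyc_prefix (U := Wd r {q | q ∈ P ∧ r q p}) (s := s ++ [p]) ?_ ?_ h1
    · ext w
      constructor
      · rintro ⟨⟨hw, hpw⟩, hf⟩
        obtain ⟨u, v, rfl, hu, hv⟩ := mem_split hw hpw hirr
        rw [filter_gt_split hirr htr hu hv] at hf
        subst hf
        exact ⟨v, hv, by simp⟩
      · rintro ⟨u, hu, rfl⟩
        have e : (fun w => s ++ [p] ++ w) u = s ++ p :: u := by simp
        rw [e]
        exact ⟨⟨join_mem htr hs hu, by simp⟩, filter_gt_split hirr htr hs hu⟩
    · intro u hu s' hd hmem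
      rw [del_append] at hd
      rcases hd with ⟨v, hd, rfl⟩ | ⟨v, hd, rfl⟩
      · have h2 := hmem.2
        have e : v ++ [p] ++ u = v ++ p :: u := by simp
        rw [e, filter_gt_split hirr htr (Wd.of_del hs hd) hu] at h2
        have := hd.length
        rw [h2] at this
        omega
      · rw [del_cons] at hd
        rcases hd with rfl | ⟨v', hd, rfl⟩
        · have h2 := hmem.1.2
          simp only [List.append_nil, List.mem_append] at h2
          rcases h2 with h2 | h2
          · exact hp (hs.2 p h2).1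
          · exact hp (hu.2 p h2).1
        · exact not_del_nil hd
  · convert acyc_empty using 1
    ext w
    simp only [Set.mem_empty_iff_false, iff_false]
    rintro ⟨⟨hw, hpw⟩, hf⟩
    obtain ⟨u, v, rfl, hu, hv⟩ := mem_split hw hpw hirr
    rw [filter_gt_split hirr htr hu hv] at hf
    exact hs (hf ▸ hu)

/-- adding many elements with acyclic upper links -/
theorem acP_add_many (hirr : ∀ a, ¬ r a a) (htr : ∀ a b c, r a b → r b c → r a c) (f : α → ℕ)
    (hf : ∀ a b, r a b → f b < f a) {P : Set α} (h0 : AcP r P) :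
    ∀ (n : ℕ) (R : Finset α), R.card = n → (∀ p ∈ R, p ∉ P) →
      (∀ p ∈ R, AcP r {q | q ∈ P ∧ r p q}) → AcP r (P ∪ ↑R) := by
  classical
  intro n
  induction n with
  | zero =>
    intro R hR _ _
    rw [Finset.card_eq_zero] at hR
    subst hR
    simpa using h0
  | succ n ih =>
    intro R hR h1 h2
    have hne : R.Nonempty := by rw [← Finset.card_pos]; omega
    obtain ⟨p, hp, hmin⟩ := R.exists_min_image f hne
    have h3 := ih (R.erase p) (by rw [Finset.card_erase_of_mem hp]; omega)
      (fun q hq => h1 q (Finset.mem_of_mem_erase hq)) (fun q hq => h2 q (Finset.mem_of_mem_erase hq))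
    have h4 : P ∪ (↑R : Set α) = insert p (P ∪ ↑(R.erase p)) := by
      ext x
      simp only [Set.mem_union, Finset.mem_coe, Set.mem_insert_iff, Finset.mem_erase]
      by_cases hx : x = p
      · subst hx; simp [hp]
      · simp [hx]
    rw [h4]
    refine acP_add_up hirr htr ?_ h3 ?_
    · simp only [Set.mem_union, Finset.mem_coe, Finset.mem_erase, not_or]
      exact ⟨h1 p hp, fun h => h.1 rfl⟩
    · have h5 : {q | q ∈ P ∪ (↑(R.erase p) : Set α) ∧ r p q} = {q | q ∈ P ∧ r p q} := by
        ext x
        simp only [Set.mem_union, Finset.mem_coe, Finset.mem_erase, Set.mem_ofPred_eq]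
        constructor
        · rintro ⟨hx | hx, h6⟩
          · exact ⟨hx, h6⟩
          · have := hf _ _ h6
            have := hmin x hx.2
            omega
        · rintro ⟨hx, h6⟩; exact ⟨Or.inl hx, h6⟩
      rw [h5]
      exact h2 p hp

end Pool.Agent.T6.H82.MA
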