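import Mathlib
import Pool.Agent.T6.H82.MA.Pos

/-!
# Covectors
-/

set_option autoImplicit false

namespace Pool.Agent.T6.H82.MA

/-- sign vectors -/
abbrev Cov (E : Type*) := E → SignType

section basic

variable {E : Type*}

/-- `F` is a face of `C` -/
def Fc (F C : Cov E) : Prop := ∀ e, F e = 0 ∨ F e = C e

/-- `F` is a proper face of `C` -/
def Lt (F C : Cov E) : Prop := Fc F C ∧ F ≠ C

/-- composition of sign vectors -/
def cmp (F G : Cov E) : Cov E := fun e => if F e = 0 then G e else F e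

/-- the opposite sign vector -/
def ng (F : Cov E) : Cov E := fun e => - F e

theorem sg_ne {s : SignType} (h : s ≠ 0) : -s ≠ s := by revert h; revert s; decide

theorem sg_neg_eq_zero {s : SignType} : -s = 0 ↔ s = 0 := by revert s; decide

theorem sg_neg_neg (s : SignType) : - -s = s := by revert s; decide

theorem Fc.refl (F : Cov E) : Fc F F := fun _ => Or.inr rfl

theorem Fc.trans {F G K : Cov E} (h : Fc F G) (h' : Fc G K) : Fc F K := by
  intro e
  rcases h e with h1 | h1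
  · exact Or.inl h1
  · rcases h' e with h2 | h2
    · exact Or.inl (h1.trans h2)
    · exact Or.inr (h1.trans h2)

theorem Fc.eq_of_ne {F C : Cov E} (h : Fc F C) {e : E} (he : F e ≠ 0) : F e = C e :=
  (h e).resolve_left he

theorem Fc.zero {F C : Cov E} (h : Fc F C) {e : E} (he : C e = 0) : F e = 0 := by
  rcases h e with h1 | h1
  · exact h1
  · rw [h1, he]

theorem Fc.antisymm {F G : Cov E} (h : Fc F G) (h' : Fc G F) : F = G := by
  funext e
  rcases h e with h1 | h1
  · rw [h1, h'.zero h1]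
  · exact h1

theorem Lt.irrefl (F : Cov E) : ¬ Lt F F := fun h => h.2 rfl

theorem Lt.trans {F G K : Cov E} (h : Lt F G) (h' : Lt G K) : Lt F K := by
  refine ⟨h.1.trans h'.1, ?_⟩
  rintro rfl
  exact h.2 (h.1.antisymm h'.1)

theorem cmp_of_zero {F G : Cov E} {e : E} (h : F e = 0) : cmp F G e = G e := by simp [cmp, h]

theorem cmp_of_ne {F G : Cov E} {e : E} (h : F e ≠ 0) : cmp F G e = F e := by simp [cmp, h]

theorem fc_cmp (F G : Cov E) : Fc F (cmp F G) := by
  intro e
  by_cases h : F e = 0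
  · exact Or.inl h
  · exact Or.inr (cmp_of_ne h).symm

theorem cmp_eq_of_fc {F C : Cov E} (h : Fc F C) : cmp F C = C := by
  funext e
  by_cases he : F e = 0
  · rw [cmp_of_zero he]
  · rw [cmp_of_ne he, h.eq_of_ne he]

theorem cmp_eq_zero {F G : Cov E} {e : E} : cmp F G e = 0 ↔ F e = 0 ∧ G e = 0 := by
  by_cases h : F e = 0
  · simp [cmp, h]
  · simp [cmp, h]

theorem ng_zero {F : Cov E} {e : E} : ng F e = 0 ↔ F e = 0 := sg_neg_eq_zero

theorem ng_ng (F : Cov E) : ng (ng F) = F := by funext e; exact sg_neg_neg _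

/-- a proper face has a zero where the other vector has none -/
theorem Lt.exists_zero {F C : Cov E} (h : Lt F C) : ∃ e, F e = 0 ∧ C e ≠ 0 := by
  by_contra hcon
  push Not at hcon
  apply h.2
  funext e
  rcases h.1 e with h1 | h1
  · rw [h1, hcon e h1]
  · exact h1

theorem lt_iff_exists {F C : Cov E} : Lt F C ↔ Fc F C ∧ ∃ e, F e = 0 ∧ C e ≠ 0 :=
  ⟨fun h => ⟨h.1, h.exists_zero⟩, fun ⟨h, e, h1, h2⟩ => ⟨h, fun heq => h2 (heq ▸ h1)⟩⟩

/-- faces of the same vector are compared by their zeros -/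
theorem fc_of_zeros {F G C : Cov E} (hF : Fc F C) (hG : Fc G C) (h : ∀ e, F e = 0 → G e = 0) :
    Fc G F := by
  intro e
  by_cases he : F e = 0
  · exact Or.inl (h e he)
  · rcases hG e with h1 | h1
    · exact Or.inl h1
    · right; rw [h1, hF.eq_of_ne he]

theorem eq_of_zeros {F G C : Cov E} (hF : Fc F C) (hG : Fc G C) (h : ∀ e, F e = 0 ↔ G e = 0) :
    F = G :=
  (fc_of_zeros hG hF fun e => (h e).2).antisymm (fc_of_zeros hF hG fun e => (h e).1)

end basic

variable {E : Type*} [Fintype E] [DecidableEq E]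

/-- the zero set of a sign vector -/
def Z (F : Cov E) : Finset E := Finset.univ.filter fun e => F e = 0

theorem mem_Z {F : Cov E} {e : E} : e ∈ Z F ↔ F e = 0 := by simp [Z]

theorem Z_cmp (F G : Cov E) : Z (cmp F G) = Z F ∩ Z G := by
  ext e; simp [mem_Z, cmp_eq_zero]

theorem Z_ng (F : Cov E) : Z (ng F) = Z F := by
  ext e; simp [mem_Z, ng_zero]

theorem Fc.Z_subset {F C : Cov E} (h : Fc F C) : Z C ⊆ Z F := by
  intro e he
  rw [mem_Z] at he ⊢
  exact h.zero he

theorem Lt.Z_ssubset {F C : Cov E} (h : Lt F C) : Z C ⊂ Z F := by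
  rw [Finset.ssubset_iff_of_subset h.1.Z_subset]
  obtain ⟨e, h1, h2⟩ := h.exists_zero
  exact ⟨e, mem_Z.2 h1, fun h => h2 (mem_Z.1 h)⟩

/-- The axioms on the covectors of a real hyperplane arrangement which are used. -/
structure OM (E : Type*) [Fintype E] [DecidableEq E] where
  /-- the covectors -/
  L : Set (Cov E)
  zero_mem : (fun _ => 0) ∈ L
  ng_mem : ∀ {F}, F ∈ L → ng F ∈ L
  cmp_mem : ∀ {F G}, F ∈ L → G ∈ L → cmp F G ∈ L
  cross : ∀ {z X}, z ∈ L → X ∈ L → (∀ e, z e = 0 → X e = 0) → (∃ e, X e ≠ 0 ∧ X e = - z e) →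
    ∃ G ∈ L, Lt G z ∧ ∀ e, G e = 0 → z e ≠ 0 → (X e ≠ 0 ∧ X e = - z e)
  /-- the rank of a zero set -/
  rk : Finset E → ℕ
  rk_empty : rk ∅ = 0
  rk_cover : ∀ {X Y}, X ∈ L → Y ∈ L → Z X ⊂ Z Y →
    (∀ W ∈ L, Z X ⊆ Z W → Z W ⊆ Z Y → Z W = Z X ∨ Z W = Z Y) → rk (Z Y) = rk (Z X) + 1

namespace OM

variable (M : OM E)

/-- `G` is a facet of `z` such that all the elements crossed separate `z` from `y` -/
theorem step_exists {B z y : Cov E} (hz : z ∈ M.L) (hy : y ∈ M.L)
    (h0 : ∀ e, z e = 0 ↔ y e = 0) (hBz : Fc B z) (hBy : Fc B y) (hne : z ≠ y) :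
    ∃ G ∈ M.L, Fc B G ∧ Lt G z ∧ (∀ e, G e = 0 → z e ≠ 0 → y e = - z e) ∧
      (∀ W ∈ M.L, Z z ⊆ Z W → Z W ⊆ Z G → Z W = Z z ∨ Z W = Z G) := by
  classical
  -- admissible vectors
  let P : Cov E → Prop := fun G =>
    G ∈ M.L ∧ Fc B G ∧ Lt G z ∧ (∀ e, G e = 0 → z e ≠ 0 → y e = - z e)
  have hex : ∃ n, ∃ G, P G ∧ (Z G).card = n := by
    have hsep : ∃ e, y e ≠ 0 ∧ y e = - z e := by
      by_contra hcon
      push Not at hcon
      apply hne
      funext e
      by_cases hye : y e = 0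
      · rw [hye, (h0 e).2 hye]
      · have h1 := hcon e hye
        have h2 : z e ≠ 0 := fun h => hye ((h0 e).1 h)
        revert h1 h2 hye
        generalize y e = a
        generalize z e = b
        revert a b
        decide
    obtain ⟨G, hG, hGz, hGe⟩ := M.cross hz hy (fun e he => (h0 e).1 he) hsep
    refine ⟨_, G, ⟨hG, ?_, hGz, fun e h1 h2 => (hGe e h1 h2).2⟩, rfl⟩
    intro e
    by_cases hBe : B e = 0
    · exact Or.inl hBe
    · right
      have h1 := hBz.eq_of_ne hBe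
      have h2 := hBy.eq_of_ne hBe
      have hze : z e ≠ 0 := h1 ▸ hBe
      have hGe' : G e ≠ 0 := by
        intro hG0
        have := (hGe e hG0 hze).2
        rw [← h2, ← h1] at this
        exact sg_ne hBe this.symm
      rw [hGz.1.eq_of_ne hGe', h1]
  obtain ⟨G, hPG, hcard⟩ := Nat.find_spec hex
  have hmin : ∀ G', P G' → (Z G).card ≤ (Z G').card := by
    intro G' hG'
    rw [hcard]
    exact Nat.find_min' hex ⟨G', hG', rfl⟩
  obtain ⟨hG, hBG, hGz, hGe⟩ := hPG
  refine ⟨G, hG, hBG, hGz, hGe, ?_⟩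
  intro Y hY hzY hYG
  by_contra hcon
  push Not at hcon
  obtain ⟨hYz, hYG'⟩ := hcon
  have hX : cmp G Y ∈ M.L := M.cmp_mem hG hY
  have hZX : Z (cmp G Y) = Z Y := by rw [Z_cmp, Finset.inter_eq_right.2 hYG]
  have hcardlt : (Z Y).card < (Z G).card :=
    Finset.card_lt_card (lt_of_le_of_ne hYG hYG')
  by_cases hsep : ∃ e, cmp G Y e ≠ 0 ∧ cmp G Y e = - z e
  · obtain ⟨K, hK, hKz, hKe⟩ := M.cross hz hX (by
      intro e he
      have : e ∈ Z Y := hzY (mem_Z.2 he)
      rw [← hZX, mem_Z] at this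
      exact this) hsep
    -- zeros of `K` lie in `Z z ∪ (Z G \ Z Y)`
    have hKG : ∀ e, K e = 0 → z e ≠ 0 → G e = 0 ∧ Y e ≠ 0 := by
      intro e h1 h2
      obtain ⟨h3, h4⟩ := hKe e h1 h2
      have h5 : G e = 0 := by
        by_contra hGe0
        rw [cmp_of_ne hGe0, hGz.1.eq_of_ne hGe0] at h4
        exact sg_ne h2 h4.symm
      rw [cmp_of_zero h5] at h3
      exact ⟨h5, h3⟩
    have hKsub : Z K ⊆ Z G := by
      intro e he
      rw [mem_Z] at he ⊢
      by_cases hze : z e = 0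
      · exact hGz.1.zero hze
      · exact (hKG e he hze).1
    have hKlt : (Z K).card < (Z G).card := by
      apply Finset.card_lt_card
      rw [Finset.ssubset_iff_of_subset hKsub]
      have h6 : ∃ e ∈ Z Y, e ∉ Z z := by
        by_contra hcon
        push Not at hcon
        exact hYz (Finset.Subset.antisymm hcon hzY)
      obtain ⟨e, he1, he2⟩ := h6
      refine ⟨e, hYG he1, fun h => ?_⟩
      exact (hKG e (mem_Z.1 h) (fun h => he2 (mem_Z.2 h))).2 (mem_Z.1 he1)
    have hPK : P K := by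
      refine ⟨hK, ?_, hKz, fun e h1 h2 => hGe e (hKG e h1 h2).1 h2⟩
      have hGK : Fc G K := fc_of_zeros hKz.1 hGz.1 (fun e he => mem_Z.1 (hKsub (mem_Z.2 he)))
      exact hBG.trans hGK
    have := hmin K hPK
    omega
  · push Not at hsep
    have hXz : Fc (cmp G Y) z := by
      intro e
      by_cases h1 : cmp G Y e = 0
      · exact Or.inl h1
      · right
        have h2 := hsep e h1
        have h3 : z e ≠ 0 := by
          intro h
          have : e ∈ Z Y := hzY (mem_Z.2 h)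
          rw [← hZX, mem_Z] at this
          exact h1 this
        revert h1 h2 h3
        generalize cmp G Y e = a
        generalize z e = b
        revert a b
        decide
    have hPX : P (cmp G Y) := by
      refine ⟨hX, hBG.trans (fc_cmp G Y), ⟨hXz, ?_⟩, ?_⟩
      · intro heq
        apply hYz
        rw [← hZX, heq]
      · intro e h1 h2
        exact hGe e (cmp_eq_zero.1 h1).1 h2
    have := hmin _ hPX
    rw [hZX] at this
    omega

/-- the faces `F` of `C` containing `B` and different from `C` such that `F ∘ z = C` -/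
def V (B C z : Cov E) : Set (Cov E) :=
  {F | F ∈ M.L ∧ Fc B F ∧ Lt F C ∧ ∀ e, F e = 0 → C e ≠ 0 → z e = C e}

/-- the antipode of `C` in the star of `B` -/
def anti (B C : Cov E) : Cov E := cmp B (ng C)

theorem anti_of_zero {B C : Cov E} {e : E} (h : B e = 0) : anti B C e = - C e := by
  simp [anti, cmp, h, ng]

theorem anti_of_ne {B C : Cov E} {e : E} (h : B e ≠ 0) : anti B C e = B e := by
  simp [anti, cmp, h]

theorem fc_anti (B C : Cov E) : Fc B (anti B C) := fc_cmp _ _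

variable {M} in
theorem anti_mem {B C : Cov E} (hB : B ∈ M.L) (hC : C ∈ M.L) : anti B C ∈ M.L :=
  M.cmp_mem hB (M.ng_mem hC)

theorem anti_zero_iff {B C : Cov E} (h : Fc B C) {e : E} : anti B C e = 0 ↔ C e = 0 := by
  rw [anti, cmp_eq_zero, ng_zero]
  exact ⟨fun h' => h'.2, fun h' => ⟨h.zero h', h'⟩⟩

/-- All the data of a step from `z` towards the antipode of `C`. -/
structure Step (B C z G : Cov E) : Prop where
  hB : B ∈ M.L
  hC : C ∈ M.L
  hz : z ∈ M.L
  hBC : Fc B C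
  h0 : ∀ e, z e = 0 ↔ C e = 0
  hBz : Fc B z
  hne : z ≠ anti B C
  hG : G ∈ M.L
  hBG : Fc B G
  hGz : Lt G z
  hD : ∀ e, G e = 0 → z e ≠ 0 → B e = 0 ∧ z e = C e
  hcov : ∀ W ∈ M.L, Z z ⊆ Z W → Z W ⊆ Z G → Z W = Z z ∨ Z W = Z G

theorem exists_step {B C z : Cov E} (hB : B ∈ M.L) (hC : C ∈ M.L) (hz : z ∈ M.L)
    (hBC : Fc B C) (h0 : ∀ e, z e = 0 ↔ C e = 0) (hBz : Fc B z) (hne : z ≠ anti B C) :
    ∃ G, M.Step B C z G := by
  obtain ⟨G, hG, hBG, hGz, hGe, hcov⟩ := M.step_exists (B := B) hz (anti_mem hB hC)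
    (fun e => (h0 e).trans (anti_zero_iff hBC).symm) hBz (fc_anti B C) hne
  refine ⟨G, hB, hC, hz, hBC, h0, hBz, hne, hG, hBG, hGz, ?_, hcov⟩
  intro e h1 h2
  have h3 := hGe e h1 h2
  have hBe : B e = 0 := by
    by_contra hBe
    rw [anti_of_ne hBe, hBz.eq_of_ne hBe] at h3
    exact sg_ne h2 h3.symm
  rw [anti_of_zero hBe] at h3
  refine ⟨hBe, ?_⟩
  revert h3
  generalize C e = a
  generalize z e = b
  revert a b
  decide

namespace Step

variable {M} {B C z G : Cov E} (S : M.Step B C z G)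

/-- the sign vector on the other side -/
def nx (z G : Cov E) : Cov E := cmp G (ng z)

/-- the candidate for the facet of `C` parallel to `G` -/
def Hf (C G : Cov E) : Cov E := fun e => if G e = 0 then 0 else C e

theorem nx_of_ne {e : E} (h : G e ≠ 0) : nx z G e = G e := cmp_of_ne h

theorem nx_of_zero {e : E} (h : G e = 0) : nx z G e = - z e := cmp_of_zero h

theorem Hf_of_ne {e : E} (h : G e ≠ 0) : Hf C G e = C e := by simp [Hf, h]

theorem Hf_of_zero {e : E} (h : G e = 0) : Hf C G e = 0 := by simp [Hf, h]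

theorem fc_Hf (C G : Cov E) : Fc (Hf C G) C := by
  intro e
  by_cases h : G e = 0
  · exact Or.inl (Hf_of_zero h)
  · exact Or.inr (Hf_of_ne h)

include S

theorem nx_mem : nx z G ∈ M.L := M.cmp_mem S.hG (M.ng_mem S.hz)

theorem nx_zero (e : E) : nx z G e = 0 ↔ C e = 0 := by
  rw [nx, cmp_eq_zero, ng_zero, S.h0 e]
  exact ⟨fun h => h.2, fun h => ⟨S.hGz.1.zero ((S.h0 e).2 h), h⟩⟩

theorem fc_nx : Fc B (nx z G) := S.hBG.trans (fc_cmp _ _)

theorem Ce_ne {e : E} (h : z e ≠ 0) : C e ≠ 0 := fun h' => h ((S.h0 e).2 h')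

theorem ze_ne {e : E} (h : C e ≠ 0) : z e ≠ 0 := fun h' => h ((S.h0 e).1 h')

/-- the elements crossed in the step -/
theorem exists_D : ∃ e, G e = 0 ∧ z e ≠ 0 := S.hGz.exists_zero

theorem Hf_zero_iff (e : E) : Hf C G e = 0 ↔ G e = 0 := by
  constructor
  · intro h
    by_contra hG
    rw [Hf_of_ne hG] at h
    exact hG (S.hGz.1.zero ((S.h0 e).2 h))
  · exact Hf_of_zero

theorem Z_Hf : Z (Hf C G) = Z G := by
  ext e; rw [mem_Z, mem_Z, S.Hf_zero_iff]

theorem lt_Hf : Lt (Hf C G) C := by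
  rw [lt_iff_exists]
  obtain ⟨e, h1, h2⟩ := S.exists_D
  exact ⟨fc_Hf C G, e, Hf_of_zero h1, S.Ce_ne h2⟩

theorem fc_B_Hf : Fc B (Hf C G) := by
  intro e
  by_cases h : B e = 0
  · exact Or.inl h
  · right
    have h1 : G e ≠ 0 := by
      rw [← S.hBG.eq_of_ne h]; exact h
    rw [Hf_of_ne h1, S.hBC.eq_of_ne h]

/-- Comparison of `V` for `z` and the next vector. -/
theorem mem_V_nx {F : Cov E} :
    F ∈ M.V B C (nx z G) ↔ F ∈ M.V B C z ∧ ∀ e, G e = 0 → z e ≠ 0 → F e ≠ 0 := by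
  constructor
  · rintro ⟨h1, h2, h3, h4⟩
    have h5 : ∀ e, G e = 0 → z e ≠ 0 → F e ≠ 0 := by
      intro e he hze hF
      have h6 := h4 e hF (S.Ce_ne hze)
      rw [nx_of_zero he, ← (S.hD e he hze).2] at h6
      exact sg_ne hze h6
    refine ⟨⟨h1, h2, h3, ?_⟩, h5⟩
    intro e he hCe
    have h6 := h4 e he hCe
    by_cases hG : G e = 0
    · exact absurd he (h5 e hG (S.ze_ne hCe))
    · rw [nx_of_ne hG, S.hGz.1.eq_of_ne hG] at h6
      exact h6
  · rintro ⟨⟨h1, h2, h3, h4⟩, h5⟩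
    refine ⟨h1, h2, h3, ?_⟩
    intro e he hCe
    have hG : G e ≠ 0 := fun hG => h5 e hG (S.ze_ne hCe) he
    rw [nx_of_ne hG, S.hGz.1.eq_of_ne hG]
    exact h4 e he hCe

/-- A vector between whose zero set meets the crossed elements. -/
theorem zeros_of_meet {F : Cov E} (hF : F ∈ M.L) (hFC : Fc F C) {e : E} (he : G e = 0)
    (hze : z e ≠ 0) (hFe : F e = 0) : ∀ e, G e = 0 → F e = 0 := by
  have h1 : Z (cmp F G) = Z F ∩ Z G := Z_cmp F G
  have h2 : Z z ⊆ Z (cmp F G) := by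
    intro x hx
    rw [mem_Z] at hx
    rw [mem_Z, cmp_eq_zero]
    exact ⟨hFC.zero ((S.h0 x).1 hx), S.hGz.1.zero hx⟩
  rcases S.hcov _ (M.cmp_mem hF S.hG) h2 (by rw [h1]; exact Finset.inter_subset_right) with h | h
  · exfalso
    have : e ∈ Z z := by
      rw [← h, h1, Finset.mem_inter, mem_Z, mem_Z]; exact ⟨hFe, he⟩
    exact hze (mem_Z.1 this)
  · intro x hx
    have : x ∈ Z (cmp F G) := by rw [h]; exact mem_Z.2 hx
    rw [h1, Finset.mem_inter, mem_Z] at this
    exact this.1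

/-- if some element of `V` is not in the next `V`, then `Hf` is a covector -/
theorem Hf_mem_of {F : Cov E} (hF : F ∈ M.V B C z) {e : E} (he : G e = 0)
    (hze : z e ≠ 0) (hFe : F e = 0) : Hf C G ∈ M.L ∧ Fc F (Hf C G) := by
  obtain ⟨h1, h2, h3, h4⟩ := hF
  have h5 := S.zeros_of_meet h1 h3.1 he hze hFe
  have h6 : Hf C G = cmp F G := by
    funext x
    by_cases hG : G x = 0
    · rw [Hf_of_zero hG, cmp_of_zero (h5 x hG), hG]
    · rw [Hf_of_ne hG]
      by_cases hFx : F x = 0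
      · rw [cmp_of_zero hFx]
        by_cases hC : C x = 0
        · exact absurd (S.hGz.1.zero ((S.h0 x).2 hC)) hG
        · rw [S.hGz.1.eq_of_ne hG, h4 x hFx hC]
      · rw [cmp_of_ne hFx, h3.1.eq_of_ne hFx]
  rw [h6]
  exact ⟨M.cmp_mem h1 S.hG, fc_cmp F G⟩

/-- if the next vector is the antipode then `Hf` is a covector -/
theorem Hf_mem_of_anti (h : nx z G = anti B C) : Hf C G ∈ M.L := by
  have h6 : Hf C G = anti B G := by
    funext e
    by_cases hB : B e = 0
    · rw [anti_of_zero hB]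
      by_cases hG : G e = 0
      · rw [Hf_of_zero hG, hG]; rfl
      · rw [Hf_of_ne hG]
        have h1 := congrFun h e
        rw [nx_of_ne hG, anti_of_zero hB] at h1
        rw [h1, sg_neg_neg]
    · have hG : G e ≠ 0 := by rw [← S.hBG.eq_of_ne hB]; exact hB
      rw [anti_of_ne hB, Hf_of_ne hG, S.hBC.eq_of_ne hB]
  rw [h6]
  exact anti_mem S.hB S.hG

theorem Hf_mem_V (h : Hf C G ∈ M.L) : Hf C G ∈ M.V B C z := by
  refine ⟨h, S.fc_B_Hf, S.lt_Hf, ?_⟩
  intro e he hCe
  rw [S.Hf_zero_iff] at he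
  exact (S.hD e he (S.ze_ne hCe)).2

/-- elements of `V` with the same zeros -/
theorem eq_Hf {F : Cov E} (hFC : Fc F C) (h : ∀ e, F e = 0 ↔ G e = 0) : F = Hf C G :=
  eq_of_zeros hFC (fc_Hf C G) (fun e => by rw [h, S.Hf_zero_iff])

theorem V_eq_singleton (h : nx z G = anti B C) : M.V B C z = {Hf C G} := by
  ext F
  rw [Set.mem_singleton_iff]
  constructor
  · intro hF
    have hF' := hF
    obtain ⟨h1, h2, h3, h4⟩ := hF
    have hsub : Z F ⊆ Z G := by
      intro e he
      rw [mem_Z] at he ⊢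
      by_contra hG
      by_cases hC : C e = 0
      · exact hG (S.hGz.1.zero ((S.h0 e).2 hC))
      · have h5 := h4 e he hC
        have h6 := congrFun h e
        rw [nx_of_ne hG, S.hGz.1.eq_of_ne hG, anti_of_zero (h2.zero he), h5] at h6
        exact sg_ne hC h6.symm
    have hsup : Z z ⊆ Z F := by
      intro e he
      rw [mem_Z] at he ⊢
      exact h3.1.zero ((S.h0 e).1 he)
    rcases S.hcov F h1 hsup hsub with h7 | h7
    · exfalso
      obtain ⟨e, he1, he2⟩ := h3.exists_zero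
      have : e ∈ Z z := by rw [← h7]; exact mem_Z.2 he1
      exact he2 ((S.h0 e).1 (mem_Z.1 this))
    · exact S.eq_Hf h3.1 (fun e => by rw [← mem_Z, h7, mem_Z])
  · rintro rfl
    exact S.Hf_mem_V (S.Hf_mem_of_anti h)

theorem nx_eq_anti_iff (hH : Hf C G ∈ M.L) : G = anti B (Hf C G) ↔ nx z G = anti B C := by
  constructor
  · intro h
    funext e
    by_cases hB : B e = 0
    · rw [anti_of_zero hB]
      by_cases hG : G e = 0
      · rw [nx_of_zero hG]
        by_cases hz : z e = 0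
        · rw [hz, (S.h0 e).1 hz]
        · rw [(S.hD e hG hz).2]
      · rw [nx_of_ne hG, congrFun h e, anti_of_zero hB, Hf_of_ne hG]
    · have hG : G e ≠ 0 := by rw [← S.hBG.eq_of_ne hB]; exact hB
      rw [nx_of_ne hG, anti_of_ne hB, S.hBG.eq_of_ne hB]
  · intro h
    funext e
    by_cases hB : B e = 0
    · rw [anti_of_zero hB]
      by_cases hG : G e = 0
      · rw [hG, Hf_of_zero hG]; rfl
      · have h1 := congrFun h e
        rw [nx_of_ne hG, anti_of_zero hB] at h1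
        rw [Hf_of_ne hG, h1]
    · rw [anti_of_ne hB, S.hBG.eq_of_ne hB]

end Step

end OM

end Pool.Agent.T6.H82.MA
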