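import Mathlib
import Pool.Agent.T6.H82.MA.OM

/-!
# Acyclicity of the visible part of the face poset
-/

set_option autoImplicit false

namespace Pool.Agent.T6.H82.MA

variable {E : Type*} [Fintype E] [DecidableEq E]

namespace OM

variable (M : OM E)

theorem lt_irr (a : Cov E) : ¬ Lt a a := Lt.irrefl a

theorem lt_tr (a b c : Cov E) (h : Lt a b) (h' : Lt b c) : Lt a c := h.trans h'

theorem card_Z_lt (a b : Cov E) (h : Lt a b) : (Z b).card < (Z a).card :=
  Finset.card_lt_card h.Z_ssubset

theorem acP_V_aux (n : ℕ) : ∀ (k : ℕ) (B C z : Cov E), B ∈ M.L → C ∈ M.L → z ∈ M.L → Lt B C →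
    (Z B \ Z C).card ≤ n → (∀ e, z e = 0 ↔ C e = 0) → Fc B z → z ≠ anti B C →
    (Finset.univ.filter (fun e => z e = C e)).card ≤ k → AcP Lt (M.V B C z) := by
  induction n with
  | zero =>
    intro k B C z _ _ _ hBC hn
    exfalso
    obtain ⟨e, h1, h2⟩ := hBC.exists_zero
    have : e ∈ Z B \ Z C := by
      rw [Finset.mem_sdiff, mem_Z, mem_Z]; exact ⟨h1, h2⟩
    have := Finset.card_pos.2 ⟨e, this⟩
    omega
  | succ n ihn =>
    intro k
    induction k with
    | zero =>
      intro B C z hB hC hz hBC _ h0 hBz hne hk
      exfalso
      obtain ⟨G, S⟩ := M.exists_step hB hC hz hBC.1 h0 hBz hne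
      obtain ⟨e, h1, h2⟩ := S.exists_D
      have : e ∈ Finset.univ.filter (fun e => z e = C e) := by
        simpa using (S.hD e h1 h2).2
      have := Finset.card_pos.2 ⟨e, this⟩
      omega
    | succ k ihk =>
      intro B C z hB hC hz hBC hn h0 hBz hne hk
      by_cases hzC : z = C
      · subst hzC
        refine acP_of_min lt_irr lt_tr (a := B) ⟨hB, Fc.refl B, hBC, fun _ _ _ => rfl⟩ ?_
        rintro F ⟨_, h2, _, _⟩ hne
        exact ⟨h2, hne.symm⟩
      · obtain ⟨G, S⟩ := M.exists_step hB hC hz hBC.1 h0 hBz hne
        -- an element where `z` and `C` differ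
        obtain ⟨x, hx⟩ : ∃ x, z x ≠ C x := by
          by_contra hcon
          push Not at hcon
          exact hzC (funext hcon)
        have hCx : C x ≠ 0 := fun h => hx (by rw [h, (h0 x).2 h])
        have hBx : B x = 0 := by
          by_contra h
          exact hx (by rw [← hBz.eq_of_ne h, hBC.1.eq_of_ne h])
        have hGx : G x ≠ 0 := fun h => hx (S.hD x h (S.ze_ne hCx)).2
        by_cases hanti : Step.nx z G = anti B C
        · rw [S.V_eq_singleton hanti]
          exact acP_singleton lt_irr lt_tr _
        · -- the next `V`
          have hV' : AcP Lt (M.V B C (Step.nx z G)) := by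
            apply ihk B C (Step.nx z G) hB hC S.nx_mem hBC hn S.nx_zero S.fc_nx hanti
            obtain ⟨e, he1, he2⟩ := S.exists_D
            have hlt : (Finset.univ.filter (fun e => Step.nx z G e = C e)).card
                < (Finset.univ.filter (fun e => z e = C e)).card := by
              apply Finset.card_lt_card
              rw [Finset.ssubset_iff_of_subset]
              · refine ⟨e, by simpa using (S.hD e he1 he2).2, ?_⟩
                simp only [Finset.mem_filter, Finset.mem_univ, true_and]
                rw [Step.nx_of_zero he1, ← (S.hD e he1 he2).2]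
                exact sg_ne he2
              · intro y hy
                simp only [Finset.mem_filter, Finset.mem_univ, true_and] at hy ⊢
                by_cases hG : G y = 0
                · by_cases hzy : z y = 0
                  · rw [hzy, (h0 y).1 hzy]
                  · exact (S.hD y hG hzy).2
                · rw [Step.nx_of_ne hG, S.hGz.1.eq_of_ne hG] at hy
                  exact hy
            omega
          by_cases hR : ∃ F ∈ M.V B C z, ∃ e, G e = 0 ∧ z e ≠ 0 ∧ F e = 0
          · obtain ⟨F₀, hF₀, e₀, he₀, hze₀, hFe₀⟩ := hR
            have hH : Step.Hf C G ∈ M.L := (S.Hf_mem_of hF₀ he₀ hze₀ hFe₀).1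
            have hHV := S.Hf_mem_V hH
            classical
            -- the remaining elements
            let R : Finset (Cov E) := Finset.univ.filter fun F =>
              F ∈ M.V B C z ∧ (∃ e, G e = 0 ∧ z e ≠ 0 ∧ F e = 0) ∧ F ≠ Step.Hf C G
            have hBH : Lt B (Step.Hf C G) :=
              lt_iff_exists.2 ⟨S.fc_B_Hf, x, hBx, by rw [Step.Hf_of_ne hGx]; exact hCx⟩
            have h1 : AcP Lt (M.V B C (Step.nx z G) ∪ ↑R) := by
              refine acP_add_many lt_irr lt_tr (fun F => (Z F).card) card_Z_lt hV' R.card R rfl
                ?_ ?_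
              · intro F hF hFV
                simp only [R, Finset.mem_filter, Finset.mem_univ, true_and] at hF
                obtain ⟨_, ⟨e, h1, h2, h3⟩, _⟩ := hF
                exact (S.mem_V_nx.1 hFV).2 e h1 h2 h3
              · intro F hF
                simp only [R, Finset.mem_filter, Finset.mem_univ, true_and] at hF
                obtain ⟨hFV, ⟨e, h1, h2, h3⟩, hFH⟩ := hF
                have hFV' := hFV
                obtain ⟨hFL, hBF, hFC, hFz⟩ := hFV'
                have hGF := S.zeros_of_meet hFL hFC.1 h1 h2 h3
                have hFx : F x ≠ 0 := fun h => hx (hFz x h hCx)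
                have hBF' : Lt B F := lt_iff_exists.2 ⟨hBF, x, hBx, hFx⟩
                have key : AcP Lt (M.V F C (cmp F (Step.nx z G))) := by
                  apply ihn _ F C _ hFL hC (M.cmp_mem hFL S.nx_mem) hFC _ _ (fc_cmp _ _) _ le_rfl
                  · have hlt : (Z F \ Z C).card < (Z B \ Z C).card := by
                      apply Finset.card_lt_card
                      rw [Finset.ssubset_iff_of_subset
                        (Finset.sdiff_subset_sdiff hBF.Z_subset (Finset.Subset.refl _))]
                      refine ⟨x, ?_, ?_⟩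
                      · rw [Finset.mem_sdiff, mem_Z, mem_Z]; exact ⟨hBx, hCx⟩
                      · rw [Finset.mem_sdiff, mem_Z]; exact fun h => hFx h.1
                    omega
                  · intro e
                    rw [cmp_eq_zero, S.nx_zero]
                    exact ⟨fun h => h.2, fun h => ⟨hFC.1.zero h, h⟩⟩
                  · intro heq
                    apply hFH
                    apply S.eq_Hf hFC.1
                    intro e
                    refine ⟨fun hFe => ?_, hGF e⟩
                    by_contra hG
                    have hCe : C e ≠ 0 := fun h => hG (S.hGz.1.zero ((S.h0 e).2 h))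
                    have h4 := congrFun heq e
                    rw [cmp_of_zero hFe, Step.nx_of_ne hG, S.hGz.1.eq_of_ne hG,
                      hFz e hFe hCe, anti_of_zero hFe] at h4
                    exact sg_ne hCe h4.symm
                convert key using 1
                ext q
                simp only [Set.mem_ofPred_eq]
                constructor
                · rintro ⟨⟨q1, q2, q3, q4⟩, hFq⟩
                  refine ⟨q1, hFq.1, q3, ?_⟩
                  intro e he hCe
                  rw [cmp_of_zero (hFq.1.zero he)]
                  exact q4 e he hCe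
                · rintro ⟨q1, q2, q3, q4⟩
                  have hqV : q ∈ M.V B C (Step.nx z G) := by
                    refine ⟨q1, hBF.trans q2, q3, ?_⟩
                    intro e he hCe
                    have := q4 e he hCe
                    rw [cmp_of_zero (q2.zero he)] at this
                    exact this
                  refine ⟨hqV, q2, ?_⟩
                  rintro rfl
                  exact (S.mem_V_nx.1 hqV).2 _ h1 h2 h3
            have hsplit : M.V B C z = insert (Step.Hf C G) (M.V B C (Step.nx z G) ∪ ↑R) := by
              ext F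
              simp only [Set.mem_insert_iff, Set.mem_union, Finset.mem_coe, R, Finset.mem_filter,
                Finset.mem_univ, true_and]
              constructor
              · intro hF
                by_cases hFH : F = Step.Hf C G
                · exact Or.inl hFH
                · right
                  by_cases hFR : ∃ e, G e = 0 ∧ z e ≠ 0 ∧ F e = 0
                  · exact Or.inr ⟨hF, hFR, hFH⟩
                  · left
                    push Not at hFR
                    exact S.mem_V_nx.2 ⟨hF, hFR⟩
              · rintro (rfl | hF | hF)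
                · exact hHV
                · exact (S.mem_V_nx.1 hF).1
                · exact hF.1
            have hHnot : Step.Hf C G ∉ M.V B C (Step.nx z G) ∪ ↑R := by
              simp only [Set.mem_union, Finset.mem_coe, R, Finset.mem_filter,
                Finset.mem_univ, true_and, not_or]
              refine ⟨fun h => ?_, fun h => h.2.2 rfl⟩
              obtain ⟨e, he1, he2⟩ := S.exists_D
              exact (S.mem_V_nx.1 h).2 e he1 he2 (Step.Hf_of_zero he1)
            rw [hsplit]
            refine acP_add_down lt_irr lt_tr hHnot h1 ?_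
            have hlow : {q | q ∈ M.V B C (Step.nx z G) ∪ ↑R ∧ Lt q (Step.Hf C G)}
                = M.V B (Step.Hf C G) G := by
              ext q
              constructor
              · rintro ⟨hq, hqH⟩
                have hqV : q ∈ M.V B C z := by
                  rw [hsplit]; exact Or.inr hq
                obtain ⟨q1, q2, q3, q4⟩ := hqV
                refine ⟨q1, q2, hqH, ?_⟩
                intro e he hHe
                have hG : G e ≠ 0 := fun h => hHe (Step.Hf_of_zero h)
                rw [Step.Hf_of_ne hG] at hHe ⊢
                rw [S.hGz.1.eq_of_ne hG]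
                exact q4 e he hHe
              · rintro ⟨q1, q2, q3, q4⟩
                have hqV : q ∈ M.V B C z := by
                  refine ⟨q1, q2, q3.trans S.lt_Hf, ?_⟩
                  intro e he hCe
                  by_cases hG : G e = 0
                  · exact (S.hD e hG (S.ze_ne hCe)).2
                  · have := q4 e he (by rw [Step.Hf_of_ne hG]; exact hCe)
                    rw [Step.Hf_of_ne hG, S.hGz.1.eq_of_ne hG] at this
                    exact this
                rw [hsplit] at hqV
                refine ⟨hqV.resolve_left ?_, q3⟩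
                rintro rfl
                exact q3.2 rfl
            rw [hlow]
            apply ihn _ B (Step.Hf C G) G hB hH S.hG hBH _ _ S.hBG _ le_rfl
            · have hlt : (Z B \ Z (Step.Hf C G)).card < (Z B \ Z C).card := by
                apply Finset.card_lt_card
                rw [Finset.ssubset_iff_of_subset
                  (Finset.sdiff_subset_sdiff (Finset.Subset.refl _) S.lt_Hf.1.Z_subset)]
                obtain ⟨e, he1, he2⟩ := S.exists_D
                refine ⟨e, ?_, ?_⟩
                · rw [Finset.mem_sdiff, mem_Z, mem_Z]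
                  exact ⟨(S.hD e he1 he2).1, S.Ce_ne he2⟩
                · rw [Finset.mem_sdiff, mem_Z, mem_Z]
                  exact fun h => h.2 (Step.Hf_of_zero he1)
              omega
            · intro e
              rw [S.Hf_zero_iff]
            · rw [Ne, S.nx_eq_anti_iff hH]
              exact hanti
          · have heq : M.V B C z = M.V B C (Step.nx z G) := by
              ext F
              rw [S.mem_V_nx]
              constructor
              · intro hF
                refine ⟨hF, fun e h1 h2 h3 => hR ⟨F, hF, e, h1, h2, h3⟩⟩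
              · exact fun h => h.1
            rw [heq]
            exact hV'

/-- The poset of the faces `F` of `C` containing `B` with `F ∘ z = C` and `F ≠ C` is acyclic
unless `z` is antipodal to `C`. -/
theorem acP_V {B C z : Cov E} (hB : B ∈ M.L) (hC : C ∈ M.L) (hz : z ∈ M.L) (hBC : Lt B C)
    (h0 : ∀ e, z e = 0 ↔ C e = 0) (hBz : Fc B z) (hne : z ≠ anti B C) :
    AcP Lt (M.V B C z) :=
  M.acP_V_aux _ _ B C z hB hC hz hBC le_rfl h0 hBz hne le_rfl

/-- the covectors strictly between `B` and `C` -/
def Bd (B C : Cov E) : Set (Cov E) := {F | F ∈ M.L ∧ Lt B F ∧ Lt F C}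

/-- The structure of the open interval between `B` and `C`. -/
theorem exists_facet {B C : Cov E} (hB : B ∈ M.L) (hC : C ∈ M.L) (hBC : Lt B C) :
    ∃ H ∈ M.L, Fc B H ∧ Lt H C ∧ M.rk (Z H) = M.rk (Z C) + 1 ∧
      (H ≠ B → AcP Lt (M.Bd B C \ {H})) ∧
      (∀ F ∈ M.L, Fc H F → Lt F C → F = H) ∧ (H = B → M.Bd B C = ∅) := by
  classical
  have hne : C ≠ anti B C := by
    obtain ⟨e, h1, h2⟩ := hBC.exists_zero
    intro h
    have := congrFun h e
    rw [anti_of_zero h1] at this
    exact sg_ne h2 this.symm
  obtain ⟨H, S⟩ := M.exists_step hB hC hC hBC.1 (fun _ => Iff.rfl) hBC.1 hne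
  have hHC := S.hGz
  have hmax : ∀ F ∈ M.L, Fc H F → Lt F C → F = H := by
    intro F hF h1 h2
    rcases S.hcov F hF h2.Z_ssubset.subset h1.Z_subset with h | h
    · exact absurd h h2.Z_ssubset.ne'
    · exact (eq_of_zeros hHC.1 h2.1 (fun e => by rw [← mem_Z, ← mem_Z, h])).symm
  have hdich : ∀ F ∈ M.L, Lt F C → (∀ e, H e = 0 → C e ≠ 0 → F e ≠ 0) ∨ Fc F H := by
    intro F hF h2
    by_cases h3 : ∃ e, H e = 0 ∧ C e ≠ 0 ∧ F e = 0
    · right
      obtain ⟨e, h4, h5, h6⟩ := h3
      exact fc_of_zeros hHC.1 h2.1 (S.zeros_of_meet hF h2.1 h4 h5 h6)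
    · left
      push Not at h3
      exact h3
  refine ⟨H, S.hG, S.hBG, hHC, M.rk_cover hC S.hG hHC.Z_ssubset S.hcov, ?_, hmax, ?_⟩
  · intro hHB
    have hz : anti H C ∈ M.L := anti_mem S.hG hC
    have hBH : Lt B H := ⟨S.hBG, Ne.symm hHB⟩
    have hV : AcP Lt (M.V B C (anti H C)) := by
      apply M.acP_V hB hC hz hBC (fun e => anti_zero_iff hHC.1) (S.hBG.trans (fc_anti H C))
      obtain ⟨e, h1, h2⟩ := hBH.exists_zero
      intro h
      have := congrFun h e
      rw [anti_of_ne h2, anti_of_zero h1, hHC.1.eq_of_ne h2] at this
      rw [hHC.1.eq_of_ne h2] at h2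
      exact sg_ne h2 this.symm
    -- membership in `V`
    have memV : ∀ F ∈ M.L, ∀ B', Fc B' F → Lt F C → (F ∈ M.V B' C (anti H C) ↔
        ∀ e, H e = 0 → C e ≠ 0 → F e ≠ 0) := by
      intro F hF B' h1 h2
      constructor
      · rintro ⟨_, _, _, h3⟩ e h4 h5 h6
        have := h3 e h6 h5
        rw [anti_of_zero h4] at this
        exact sg_ne h5 this
      · intro h3
        refine ⟨hF, h1, h2, ?_⟩
        intro e h4 h5
        have h6 : H e ≠ 0 := fun h => h3 e h h5 h4
        rw [anti_of_ne h6, hHC.1.eq_of_ne h6]
    let R : Finset (Cov E) := Finset.univ.filter fun F => F ∈ M.L ∧ Lt B F ∧ Lt F H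
    have hnotV : ∀ F, Fc F H → F ∉ M.V B C (anti H C) := by
      intro F h1 h2
      obtain ⟨e, h3, h4⟩ := hHC.exists_zero
      exact (memV F h2.1 B h2.2.1 h2.2.2.1).1 h2 e h3 h4 (h1.zero h3)
    have h1 : AcP Lt (M.V B C (anti H C) ∪ ↑R) := by
      refine acP_add_many lt_irr lt_tr (fun F => (Z F).card) card_Z_lt hV R.card R rfl ?_ ?_
      · intro F hF
        simp only [R, Finset.mem_filter, Finset.mem_univ, true_and] at hF
        exact hnotV F hF.2.2.1
      · intro F hF
        simp only [R, Finset.mem_filter, Finset.mem_univ, true_and] at hF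
        obtain ⟨hFL, hBF, hFH⟩ := hF
        have hFC : Lt F C := hFH.trans hHC
        have key : AcP Lt (M.V F C (anti H C)) := by
          apply M.acP_V hFL hC hz hFC (fun e => anti_zero_iff hHC.1) (hFH.1.trans (fc_anti H C))
          obtain ⟨e, h1, h2⟩ := hFH.exists_zero
          intro h
          have := congrFun h e
          rw [anti_of_ne h2, anti_of_zero h1, hHC.1.eq_of_ne h2] at this
          rw [hHC.1.eq_of_ne h2] at h2
          exact sg_ne h2 this.symm
        convert key using 1
        ext q
        simp only [Set.mem_ofPred_eq]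
        constructor
        · rintro ⟨hq, hFq⟩
          exact (memV q hq.1 F hFq.1 hq.2.2.1).2 ((memV q hq.1 B hq.2.1 hq.2.2.1).1 hq)
        · intro hq
          have hq' := (memV q hq.1 F hq.2.1 hq.2.2.1).1 hq
          have hBq : Fc B q := hBF.1.trans hq.2.1
          have hqV := (memV q hq.1 B hBq hq.2.2.1).2 hq'
          refine ⟨hqV, hq.2.1, ?_⟩
          rintro rfl
          exact hnotV _ hFH.1 hqV
    convert h1 using 1
    ext F
    simp only [Set.mem_sdiff, Set.mem_singleton_iff, Set.mem_union, Finset.mem_coe, R,
      Finset.mem_filter, Finset.mem_univ, true_and]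
    constructor
    · rintro ⟨⟨h2, h3, h4⟩, h5⟩
      rcases hdich F h2 h4 with h6 | h6
      · exact Or.inl ((memV F h2 B h3.1 h4).2 h6)
      · exact Or.inr ⟨h2, h3, h6, h5⟩
    · rintro (h2 | ⟨h2, h3, h4⟩)
      · have h3 := (memV F h2.1 B h2.2.1 h2.2.2.1).1 h2
        refine ⟨⟨h2.1, ⟨h2.2.1, ?_⟩, h2.2.2.1⟩, ?_⟩
        · rintro rfl
          exact hnotV _ S.hBG h2
        · rintro rfl
          exact hnotV _ (Fc.refl _) h2
      · exact ⟨⟨h2, h3, h4.trans hHC⟩, h4.2⟩
  · rintro rfl
    ext F
    simp only [Set.mem_empty_iff_false, iff_false]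
    rintro ⟨h1, h2, h3⟩
    exact h2.2 (hmax F h1 h2.1 h3).symm

end OM

end Pool.Agent.T6.H82.MA
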