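import Mathlib
import Pool.Agent.T6.H82.MA.Star

/-!
# The homology of the complexes of tuples with a given start and a given multidegree
-/

set_option autoImplicit false

namespace Pool.Agent.T6.H82.MA

section md

variable {E : Type*}

/-- the indicator of the separation set -/
noncomputable def sep (x y : Cov E) : E → ℕ := fun e => if x e = y e then 0 else 1

theorem sep_eq_zero {x y : Cov E} {e : E} : sep x y e = 0 ↔ x e = y e := by
  simp [sep]

theorem sep_self (x : Cov E) : sep x x = 0 := by funext e; simp [sep]

theorem sep_triangle (x y z : Cov E) (e : E) : sep x z e ≤ sep x y e + sep y z e := by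
  by_cases h1 : x e = y e <;> by_cases h2 : y e = z e <;> by_cases h3 : x e = z e <;>
    simp_all [sep]

theorem sep_le_one (x y : Cov E) (e : E) : sep x y e ≤ 1 := by
  unfold sep; split_ifs <;> simp

theorem sep_ne_zero_of_ne {x y : Cov E} (h : x ≠ y) : sep x y ≠ 0 := by
  intro h0
  apply h
  funext e
  exact sep_eq_zero.1 (congrFun h0 e)

/-- the multidegree of the tuple which starts at `C` and continues with the word `w` -/
noncomputable def md : Cov E → List (Cov E) → (E → ℕ)
  | _, [] => 0
  | C, x :: w => sep C x + md x w

theorem md_nil (C : Cov E) : md C [] = 0 := rfl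

theorem md_cons (C x : Cov E) (w : List (Cov E)) : md C (x :: w) = sep C x + md x w := rfl

/-- the last letter -/
def lst : Cov E → List (Cov E) → Cov E
  | C, [] => C
  | _, x :: w => lst x w

theorem md_append (C : Cov E) (p s : List (Cov E)) : md C (p ++ s) = md C p + md (lst C p) s := by
  induction p generalizing C with
  | nil => simp [md, lst]
  | cons x p ih => rw [List.cons_append, md_cons, ih, md_cons, lst, add_assoc]

theorem chain_append (C : Cov E) (p s : List (Cov E)) :
    (C :: (p ++ s)).IsChain (· ≠ ·) ↔
      (C :: p).IsChain (· ≠ ·) ∧ (lst C p :: s).IsChain (· ≠ ·) := by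
  induction p generalizing C with
  | nil => simp [lst]
  | cons x p ih =>
    rw [List.cons_append, List.isChain_cons_cons, List.isChain_cons_cons, ih, lst, and_assoc]

theorem md_del {C : Cov E} {w w' : List (Cov E)} (h : Del w w') : md C w' ≤ md C w := by
  induction h generalizing C with
  | head a w =>
    cases w with
    | nil => rw [md_nil]; exact fun _ => Nat.zero_le _
    | cons b t =>
      rw [md_cons, md_cons, md_cons, ← add_assoc]
      exact add_le_add (fun e => sep_triangle C a b e) le_rfl
  | tail a h ih =>
    rw [md_cons, md_cons]
    exact add_le_add le_rfl ih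

theorem chain_del {C : Cov E} {w w' : List (Cov E)} (h : Del w w')
    (hc : (C :: w).IsChain (· ≠ ·)) (hm : md C w' = md C w) : (C :: w').IsChain (· ≠ ·) := by
  induction h generalizing C with
  | head a w =>
    cases w with
    | nil => simp
    | cons b t =>
      rw [List.isChain_cons_cons, List.isChain_cons_cons] at hc
      rw [List.isChain_cons_cons]
      refine ⟨?_, hc.2.2⟩
      rintro rfl
      rw [md_cons, md_cons, md_cons, sep_self, zero_add, ← add_assoc] at hm
      have h1 : sep C a = 0 := by
        funext e
        have := congrFun hm e
        simp only [Pi.add_apply] at this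
        show sep C a e = 0
        omega
      exact sep_ne_zero_of_ne hc.1 h1
  | tail a h ih =>
    rw [List.isChain_cons_cons] at hc ⊢
    rw [md_cons, md_cons] at hm
    exact ⟨hc.1, ih hc.2 (add_left_cancel hm)⟩

end md

variable {E : Type*} [Fintype E] [DecidableEq E]

namespace OM

variable (M : OM E)

/-- the chambers -/
def Ch : Set (Cov E) := {x | x ∈ M.L ∧ ∀ e, x e ≠ 0}

/-- the words `w` such that `C, w` is a tuple of multidegree `m` -/
def MCw (C : Cov E) (m : E → ℕ) : Set (List (Cov E)) :=
  {w | (∀ x ∈ w, x ∈ M.Ch) ∧ (C :: w).IsChain (· ≠ ·) ∧ md C w = m}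

variable {M}

theorem MCw_of_del {C : Cov E} {m : E → ℕ} {w w' : List (Cov E)} (hw : w ∈ M.MCw C m)
    (hd : Del w w') (hm : md C w' = m) : w' ∈ M.MCw C m :=
  ⟨fun x hx => hw.1 x (hd.sublist.subset hx), chain_del hd hw.2.1 (hm.trans hw.2.2.symm), hm⟩

theorem lc_MCw (C : Cov E) (m : E → ℕ) : LC (M.MCw C m) := by
  intro w w' w'' hw hd hd' hw''
  apply MCw_of_del hw hd
  apply le_antisymm
  · have := md_del (C := C) hd
    rwa [hw.2.2] at this
  · have := md_del (C := C) hd'
    rwa [hw''.2.2] at this

/-- after an allowed deletion the first letter is still separated from `C` by what separated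
the old first letter -/
theorem first_sep {C : Cov E} {m : E → ℕ} {x x' : Cov E} {v v' : List (Cov E)}
    (hw : x :: v ∈ M.MCw C m) (hw' : x' :: v' ∈ M.MCw C m) (hd : Del (x :: v) (x' :: v')) {e : E}
    (he : x e ≠ C e) : x' e ≠ C e := by
  rw [del_cons] at hd
  rcases hd with rfl | ⟨t, _, ht⟩
  · have h1 := hw.2.2
    rw [← hw'.2.2, md_cons, md_cons, md_cons, ← add_assoc] at h1
    have h2 := congrFun h1 e
    simp only [Pi.add_apply] at h2
    intro h3
    have h4 : sep C x' e = 0 := sep_eq_zero.2 h3.symm
    have h5 : sep C x e ≠ 0 := fun h => he (sep_eq_zero.1 h).symm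
    omega
  · rw [List.cons.injEq] at ht
    rw [ht.1]; exact he

theorem ne_nil_of_mem {C : Cov E} {m : E → ℕ} (hm : m ≠ 0) {w : List (Cov E)}
    (hw : w ∈ M.MCw C m) : w ≠ [] := by
  rintro rfl
  exact hm hw.2.2.symm

variable (M)

/-- the words whose first letter is separated from `C` by all zeros of `G` -/
def TG (G C : Cov E) (m : E → ℕ) : Set (List (Cov E)) :=
  {w | w ∈ M.MCw C m ∧ ∃ x v, w = x :: v ∧ ∀ e, G e = 0 → x e ≠ C e}

theorem lc_TG (G C : Cov E) (m : E → ℕ) : LC (M.TG G C m) := by
  intro w w' w'' hw hd hd' hw''
  have h1 : w' ∈ M.MCw C m := lc_MCw C m hw.1 hd hd' hw''.1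
  obtain ⟨hw, x, v, rfl, hx⟩ := hw
  obtain ⟨hw'', x'', v'', rfl, _⟩ := hw''
  cases w' with
  | nil => exact absurd hd' not_del_nil
  | cons x' v' => exact ⟨h1, x', v', rfl, fun e he => first_sep hw h1 hd (hx e he)⟩

theorem gate_sep {G a y : Cov E} (ha : Fc G a) : sep a (cmp G y) + sep (cmp G y) y = sep a y := by
  funext e
  simp only [Pi.add_apply]
  by_cases h : G e = 0
  · simp [sep, cmp_of_zero h]
  · have h1 : a e = G e := (ha.eq_of_ne h).symm
    simp [sep, cmp_of_ne h, h1]

theorem lst_fc {G C : Cov E} {p : List (Cov E)} (hC : Fc G C) (hp : ∀ a ∈ p, Fc G a) :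
    Fc G (lst C p) := by
  induction p generalizing C with
  | nil => exact hC
  | cons x p ih => exact ih (hp x (by simp)) (fun a ha => hp a (by simp [ha]))

theorem lst_append (C g : Cov E) (p : List (Cov E)) : lst C (p ++ [g]) = g := by
  induction p generalizing C with
  | nil => rfl
  | cons x p ih => exact ih x

theorem lst_eq (C : Cov E) (p : List (Cov E)) : (p = [] ∧ lst C p = C) ∨
    ∃ q, p = q ++ [lst C p] := by
  rcases p.eq_nil_or_concat with rfl | ⟨q, b, rfl⟩
  · exact Or.inl ⟨rfl, rfl⟩
  · right
    rw [List.concat_eq_append, lst_append]
    exact ⟨q, rfl⟩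

theorem md_zero_of_all {G C : Cov E} {w : List (Cov E)} (hC : Fc G C) (hw : ∀ a ∈ w, Fc G a)
    {e : E} (he : G e ≠ 0) : md C w e = 0 := by
  induction w generalizing C with
  | nil => rfl
  | cons x w ih =>
    rw [md_cons, Pi.add_apply, ih (hw x (by simp)) (fun a ha => hw a (by simp [ha])),
      add_zero, sep_eq_zero, ← hC.eq_of_ne he, (hw x (by simp)).eq_of_ne he]

theorem acyc_TG {G C : Cov E} (hG : G ∈ M.L) (hC : C ∈ M.Ch) (hGC : Lt G C) {m : E → ℕ}
    (hm : ∃ e, m e ≠ 0 ∧ G e ≠ 0) : Acyc (M.TG G C m) := by
  classical
  apply acyc_of_dropWhile (M.lc_TG G C m) (fun a => decide (Fc G a))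
  intro s
  cases s with
  | nil =>
    convert acyc_empty using 1
    ext w
    simp only [Set.mem_empty_iff_false, iff_false]
    rintro ⟨hw, hd⟩
    rw [List.dropWhile_eq_nil_iff] at hd
    obtain ⟨e, he, hGe⟩ := hm
    apply he
    rw [← hw.1.2.2]
    exact md_zero_of_all hGC.1 (fun a ha => by simpa using hd a ha) hGe
  | cons y s' =>
    by_cases hy : Fc G y
    · convert acyc_empty using 1
      ext w
      simp only [Set.mem_empty_iff_false, iff_false]
      rintro ⟨_, hd⟩
      have := List.head_dropWhile_not (fun a => decide (Fc G a)) (l := w) (by rw [hd]; simp)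
      simp only [hd, List.head_cons, decide_eq_false_iff_not] at this
      exact this hy
    · have hdrop : ∀ p t : List (Cov E), (∀ a ∈ p, Fc G a) →
          (p ++ t).dropWhile (fun a => decide (Fc G a)) = t.dropWhile (fun a => decide (Fc G a)) := by
        intro p t hp
        rw [List.dropWhile_append_of_pos]
        intro a ha
        simpa using hp a ha
      have hds : (y :: s').dropWhile (fun a => decide (Fc G a)) = y :: s' := by
        rw [List.dropWhile_cons_of_neg]
        simpa using hy
      refine acyc_suffix (U := {p | p ++ y :: s' ∈ M.TG G C m ∧ ∀ a ∈ p, Fc G a}) (s := y :: s')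
        ?_ ?_ ?_
      · ext w
        constructor
        · rintro ⟨hw, hd⟩
          refine ⟨w.takeWhile (fun a => decide (Fc G a)), ⟨?_, ?_⟩, ?_⟩
          · rw [← hd, List.takeWhile_append_dropWhile]; exact hw
          · intro a ha
            have := List.mem_takeWhile_imp ha
            simpa using this
          · show _ ++ _ = _
            rw [← hd, List.takeWhile_append_dropWhile]
        · rintro ⟨p, ⟨hp1, hp2⟩, rfl⟩
          exact ⟨hp1, by show (p ++ y :: s').dropWhile _ = _; rw [hdrop p _ hp2, hds]⟩
      · rintro p ⟨_, hp2⟩ t hd hmem
        have h1 := hmem.2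
        rw [hdrop p _ hp2] at h1
        have h2 := (List.dropWhile_sublist (fun a => decide (Fc G a)) (l := t)).length_le
        rw [h1, hd.length] at h2
        omega
      · -- the gate
        have hGg : Fc G (cmp G y) := fc_cmp G y
        have hgy : cmp G y ≠ y := fun h => hy (h ▸ hGg)
        -- common computation
        have hmd : ∀ p : List (Cov E), (∀ a ∈ p, Fc G a) →
            md C (p ++ [cmp G y] ++ y :: s') = md C (p ++ y :: s') := by
          intro p hp
          have hl := lst_fc hGC.1 hp
          rw [List.append_assoc, List.singleton_append, md_append, md_append, md_cons, md_cons,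
            md_cons, ← gate_sep (y := y) hl, add_assoc]
        apply acyc_cone (cmp G y)
        · intro p hp
          constructor
          · rintro ⟨hp1, hp2⟩
            have hall : ∀ a ∈ p ++ [cmp G y], Fc G a := by
              intro a ha
              rw [List.mem_append, List.mem_singleton] at ha
              rcases ha with ha | rfl
              · exact hp2 a ha
              · exact hGg
            refine ⟨?_, hall⟩
            obtain ⟨⟨h1, h2, h3⟩, x, v, h4, h5⟩ := hp1
            have hyCh : y ∈ M.Ch := h1 y (by simp)
            have hgCh : cmp G y ∈ M.Ch := ⟨M.cmp_mem hG hyCh.1, fun e he =>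
              hyCh.2 e (cmp_eq_zero.1 he).2⟩
            have hla : lst C p ≠ cmp G y := by
              rcases lst_eq C p with ⟨rfl, h6⟩ | ⟨q, h6⟩
              · rw [h6]
                rw [List.nil_append, List.cons.injEq] at h4
                obtain ⟨e, he1, _⟩ := hGC.exists_zero
                intro h
                have h7 := h5 e he1
                rw [← h4.1] at h7
                apply h7
                have := congrFun h e
                rw [cmp_of_zero he1] at this
                exact this.symm
              · intro h
                exact hp ⟨q, by rw [← h]; exact h6⟩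
            have h2' := h2
            rw [chain_append, List.isChain_cons_cons] at h2'
            refine ⟨⟨?_, ?_, ?_⟩, ?_⟩
            · intro a ha
              rw [List.mem_append, List.mem_append, List.mem_singleton] at ha
              rcases ha with (ha | rfl) | ha
              · exact h1 a (by simp [ha])
              · exact hgCh
              · exact h1 a (List.mem_append_right _ ha)
            · rw [List.append_assoc, chain_append]
              refine ⟨h2'.1, ?_⟩
              rw [List.singleton_append, List.isChain_cons_cons, List.isChain_cons_cons]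
              exact ⟨hla, hgy, h2'.2.2⟩
            · rw [hmd p hp2, h3]
            · cases p with
              | nil =>
                refine ⟨cmp G y, y :: s', by simp, ?_⟩
                intro e he
                rw [cmp_of_zero he]
                rw [List.nil_append, List.cons.injEq] at h4
                rw [h4.1]; exact h5 e he
              | cons z p =>
                rw [List.cons_append, List.cons.injEq] at h4
                refine ⟨z, p ++ [cmp G y] ++ y :: s', by simp, ?_⟩
                intro e he
                rw [h4.1]; exact h5 e he
          · rintro ⟨hp1, hp2⟩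
            have hp2' : ∀ a ∈ p, Fc G a := fun a ha => hp2 a (by simp [ha])
            refine ⟨?_, hp2'⟩
            obtain ⟨⟨h1, h2, h3⟩, x, v, h4, h5⟩ := hp1
            refine ⟨⟨?_, ?_, ?_⟩, ?_⟩
            · intro a ha
              rw [List.mem_append] at ha
              rcases ha with ha | ha
              · exact h1 a (by simp [ha])
              · exact h1 a (List.mem_append_right _ ha)
            · rw [List.append_assoc, chain_append, List.singleton_append,
                List.isChain_cons_cons, List.isChain_cons_cons] at h2
              rw [chain_append, List.isChain_cons_cons]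
              refine ⟨h2.1, ?_, h2.2.2.2⟩
              intro h
              exact hy (h ▸ lst_fc hGC.1 hp2')
            · rw [← hmd p hp2', h3]
            · cases p with
              | nil =>
                refine ⟨y, s', by simp, ?_⟩
                intro e he
                rw [List.nil_append, List.singleton_append, List.cons.injEq] at h4
                have := h5 e he
                rw [← h4.1, cmp_of_zero he] at this
                exact this
              | cons z p =>
                rw [List.cons_append, List.cons_append, List.cons.injEq] at h4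
                refine ⟨z, p ++ y :: s', by simp, ?_⟩
                intro e he
                rw [h4.1]; exact h5 e he
        · rintro q ⟨h1, _⟩
          have h2 := h1.1.2.1
          rw [List.append_assoc, List.append_assoc, chain_append, List.singleton_append,
            List.singleton_append, List.isChain_cons_cons, List.isChain_cons_cons] at h2
          exact h2.2.2.1 rfl

end OM

end Pool.Agent.T6.H82.MA
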