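import Mathlib
import Pool.Agent.T6.H82.MA.Tot

/-!
# The homology of the complexes of tuples: recursion
-/

set_option autoImplicit false

namespace Pool.Agent.T6.H82.MA

open Finsupp

section lists

variable {α : Type*}

theorem filter_split {q : α → Bool} {u v : List α} (hu : ∀ a ∈ u, q a = false)
    (hv : ∀ a ∈ v, q a = true) : (u ++ v).filter q = v := by
  rw [List.filter_append]
  have h1 : u.filter q = [] := by
    rw [List.filter_eq_nil_iff]
    intro a ha h
    rw [hu a ha] at h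
    exact absurd h (by simp)
  have h2 : v.filter q = v := by
    rw [List.filter_eq_self]; exact hv
  rw [h1, h2, List.nil_append]

theorem filter_split' {q : α → Bool} {u v : List α} (hu : ∀ a ∈ u, q a = false)
    (hv : ∀ a ∈ v, q a = true) : (u ++ v).filter (fun a => !q a) = u := by
  rw [List.filter_append]
  have h1 : u.filter (fun a => !q a) = u := by
    rw [List.filter_eq_self]; intro a ha; simp [hu a ha]
  have h2 : v.filter (fun a => !q a) = [] := by
    rw [List.filter_eq_nil_iff]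
    intro a ha h
    rw [hv a ha] at h
    exact absurd h (by simp)
  rw [h1, h2, List.append_nil]

theorem homIs_nil : HomIs ({[]} : Set (List α)) (fun n => if n = 0 then 1 else 0) := by
  intro n
  match n with
  | 0 =>
    -- the coefficient of the empty word
    let φ : Cyc ({[]} : Set (List α)) 0 →ₗ[ℤ] (Fin 1 → ℤ) :=
      LinearMap.pi (fun _ => (Finsupp.lapply ([] : List α)).comp (Submodule.subtype _))
    have hker : LinearMap.ker φ = (Bou ({[]} : Set (List α)) 0).submoduleOf (Cyc _ 0) := by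
      ext ⟨c, hc⟩
      rw [LinearMap.mem_ker]
      constructor
      · intro h
        have h1 : c [] = 0 := congrFun h 0
        show c ∈ Bou _ 0
        have : c = 0 := by
          ext w
          by_contra hne
          have h2 : w = [] := (hc.1 w hne).1
          subst h2
          exact hne h1
        rw [this]; exact Submodule.zero_mem _
      · rintro ⟨b, hb, hbD⟩
        have : b = 0 := by
          ext w
          by_contra hne
          have h2 := hb w hne
          have h3 : w = [] := h2.1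
          subst h3
          exact absurd h2.2 (by simp [Len])
        subst this
        have h3 : c = 0 := by
          rw [map_zero] at hbD; exact hbD.symm
        funext i
        show c [] = 0
        rw [h3]; rfl
    have hsurj : Function.Surjective φ := by
      intro y
      refine ⟨⟨single [] (y 0), ⟨?_, ?_⟩⟩, ?_⟩
      · exact on_single (show ([] : List α) ∈ ({[]} : Set (List α)) ∩ Len α 0 from ⟨rfl, rfl⟩) _
      · rw [DX_apply, D_single]; simp [bd]
      · funext i
        have : i = 0 := Subsingleton.elim _ _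
        subst this
        show single ([] : List α) (y 0) [] = y 0
        simp
    exact ⟨(Submodule.quotEquivOfEq _ _ hker.symm).trans (φ.quotKerEquivOfSurjective hsurj)⟩
  | n + 1 =>
    have hsub : Subsingleton (H ({[]} : Set (List α)) (n + 1)) := by
      rw [Submodule.Quotient.subsingleton_iff, Submodule.submoduleOf_eq_top]
      intro c hc
      have : c = 0 := by
        ext w
        by_contra hne
        have h1 := hc.1 w hne
        have h2 : w = [] := h1.1
        subst h2
        exact absurd h1.2 (by simp [Len])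
      rw [this]; exact Submodule.zero_mem _
    have hsub' : Subsingleton (Fin (if n + 1 = 0 then 1 else 0) → ℤ) := by
      rw [if_neg (by omega)]; infer_instance
    exact ⟨LinearEquiv.ofSubsingleton _ _⟩

end lists

variable {E : Type*} [Fintype E] [DecidableEq E]

namespace OM

/-- Boolean test for vectors without zeros -/
def isCh (x : Cov E) : Bool := decide (∀ e, x e ≠ 0)

theorem isCh_of_lt {G C : Cov E} (h : Lt G C) : isCh G = false := by
  obtain ⟨e, h1, _⟩ := h.exists_zero
  simp only [isCh, decide_eq_false_iff_not]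
  exact fun h => h e h1

variable (M : OM E)

variable {M} in
theorem isCh_of_mem {x : Cov E} (h : x ∈ M.Ch) : isCh x = true := by
  simp only [isCh, decide_eq_true_eq]; exact h.2

theorem sg_ne_iff {a b : SignType} (ha : a ≠ 0) (hb : b ≠ 0) : a ≠ b ↔ -a = b := by
  revert a b; decide

/-- the faces of `C` containing `F` all of whose zeros separate `x` from `C` -/
def Vx (F C x : Cov E) : Set (Cov E) :=
  {G | G ∈ M.L ∧ Fc F G ∧ Lt G C ∧ ∀ e, G e = 0 → x e ≠ C e}

variable {M}

theorem anti_Ch {F C : Cov E} (hF : F ∈ M.L) (hC : C ∈ M.Ch) : anti F C ∈ M.Ch := by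
  refine ⟨anti_mem hF hC.1, ?_⟩
  intro e h
  rw [anti, cmp_eq_zero, ng_zero] at h
  exact hC.2 e h.2

theorem acP_Vx {F C x : Cov E} (hF : F ∈ M.L) (hC : C ∈ M.Ch) (hx : x ∈ M.Ch) (hFC : Lt F C)
    (hFx : Fc F x) (hne : x ≠ C) : AcP Lt (M.Vx F C x) := by
  have hz := anti_Ch hF hx
  have key : AcP Lt (M.V F C (anti F x)) := by
    apply M.acP_V hF hC.1 hz.1 hFC _ (fc_anti F x)
    · intro h
      apply hne
      funext e
      by_cases hFe : F e = 0
      · have := congrFun h e
        rw [anti_of_zero hFe, anti_of_zero hFe] at this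
        rw [← sg_neg_neg (x e), this, sg_neg_neg]
      · rw [← hFx.eq_of_ne hFe, hFC.1.eq_of_ne hFe]
    · intro e
      exact ⟨fun h => absurd h (hz.2 e), fun h => absurd h (hC.2 e)⟩
  have heq : M.Vx F C x = M.V F C (anti F x) := by
    ext G
    constructor
    · rintro ⟨h1, h2, h3, h4⟩
      refine ⟨h1, h2, h3, ?_⟩
      intro e he _
      rw [anti_of_zero (h2.zero he)]
      exact (sg_ne_iff (hx.2 e) (hC.2 e)).1 (h4 e he)
    · rintro ⟨h1, h2, h3, h4⟩
      refine ⟨h1, h2, h3, ?_⟩
      intro e he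
      have := h4 e he (hC.2 e)
      rw [anti_of_zero (h2.zero he)] at this
      exact (sg_ne_iff (hx.2 e) (hC.2 e)).2 this
  rw [heq]; exact key

variable (M)

/-- the total complex -/
def DD (F C : Cov E) (m : E → ℕ) : Set (List (Cov E)) :=
  {w | ∃ x v u, w = u ++ x :: v ∧ u ∈ Wd Lt (M.Vx F C x) ∧ x :: v ∈ M.MCw C m}

variable {M}

theorem isCh_Vx {F C x : Cov E} {u : List (Cov E)} (hu : u ∈ Wd Lt (M.Vx F C x)) :
    ∀ a ∈ u, isCh a = false := fun a ha => isCh_of_lt (hu.2 a ha).2.2.1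

theorem isCh_MCw {C : Cov E} {m : E → ℕ} {v : List (Cov E)} (hv : v ∈ M.MCw C m) :
    ∀ a ∈ v, isCh a = true := fun a ha => isCh_of_mem (hv.1 a ha)

theorem lc_DD (F C : Cov E) (m : E → ℕ) : LC (M.DD F C m) := by
  rintro w w' w'' ⟨x, v, u, rfl, hu, hv⟩ hd hd' ⟨x'', v'', u'', rfl, hu'', hv''⟩
  rw [del_append] at hd
  rcases hd with ⟨u', hd, rfl⟩ | ⟨t, hd, rfl⟩
  · exact ⟨x, v, u', rfl, Wd.of_del hu hd, hv⟩
  · have ht : ∀ a ∈ t, isCh a = true := fun a ha => isCh_MCw hv a (hd.sublist.subset ha)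
    have h1 : t ∈ M.MCw C m ∧ t ≠ [] := by
      rcases hd'.filter isCh with h | h
      · rw [filter_split (isCh_Vx hu'') (isCh_MCw hv''), filter_split (isCh_Vx hu) ht] at h
        rw [← h]; exact ⟨hv'', by simp⟩
      · rw [filter_split (isCh_Vx hu'') (isCh_MCw hv''), filter_split (isCh_Vx hu) ht] at h
        refine ⟨lc_MCw C m hv hd h hv'', ?_⟩
        rintro rfl
        exact not_del_nil h
    cases t with
    | nil => exact absurd rfl h1.2
    | cons x' v' =>
      refine ⟨x', v', u, rfl, ⟨hu.1, ?_⟩, h1.1⟩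
      intro G hG
      obtain ⟨h2, h3, h4, h5⟩ := hu.2 G hG
      exact ⟨h2, h3, h4, fun e he => first_sep hv h1.1 hd (h5 e he)⟩

theorem fc_first {F C x : Cov E} {m : E → ℕ} {v : List (Cov E)} (hFC : Fc F C)
    (hm : ∀ e, F e ≠ 0 → m e = 0) (hv : x :: v ∈ M.MCw C m) : Fc F x := by
  intro e
  by_cases he : F e = 0
  · exact Or.inl he
  · right
    have h1 := congrFun hv.2.2 e
    rw [md_cons, Pi.add_apply, hm e he] at h1
    have h2 : sep C x e = 0 := by omega
    rw [hFC.eq_of_ne he]
    exact sep_eq_zero.1 h2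

theorem acyc_DD {F C : Cov E} (hF : F ∈ M.L) (hC : C ∈ M.Ch) (hFC : Lt F C) {m : E → ℕ}
    (hm : ∀ e, F e ≠ 0 → m e = 0) : Acyc (M.DD F C m) := by
  apply acyc_of_filter (lc_DD F C m) isCh
  intro s
  by_cases hs : ∃ x v, s = x :: v ∧ x :: v ∈ M.MCw C m
  · obtain ⟨x, v, rfl, hv⟩ := hs
    refine acyc_suffix (U := Wd Lt (M.Vx F C x)) (s := x :: v) ?_ ?_ ?_
    · ext w
      constructor
      · rintro ⟨⟨y, t, u, rfl, hu, ht⟩, hf⟩
        rw [filter_split (isCh_Vx hu) (isCh_MCw ht), List.cons.injEq] at hf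
        obtain ⟨rfl, rfl⟩ := hf
        exact ⟨u, hu, rfl⟩
      · rintro ⟨u, hu, rfl⟩
        exact ⟨⟨x, v, u, rfl, hu, hv⟩, filter_split (isCh_Vx hu) (isCh_MCw hv)⟩
    · intro u hu s' hd hmem
      have h1 := hmem.2
      rw [filter_split (isCh_Vx hu)
        (fun a ha => isCh_MCw hv a (hd.sublist.subset ha))] at h1
      have := hd.length
      rw [h1] at this
      omega
    · have h2 := hv.2.1
      rw [List.isChain_cons_cons] at h2
      exact acP_Vx hF hC (hv.1 x (by simp)) hFC (fc_first hFC.1 hm hv) (Ne.symm h2.1)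
  · convert acyc_empty using 1
    ext w
    simp only [Set.mem_empty_iff_false, iff_false]
    rintro ⟨⟨y, t, u, rfl, hu, ht⟩, hf⟩
    rw [filter_split (isCh_Vx hu) (isCh_MCw ht)] at hf
    exact hs ⟨y, t, hf.symm, ht⟩

variable (M)

/-- the words of `DD` with a face -/
def X1 (F C : Cov E) (m : E → ℕ) : Set (List (Cov E)) :=
  {w | w ∈ M.DD F C m ∧ ∃ a ∈ w, isCh a = false}

/-- the words of `DD` with a face, but without the face `F` -/
def X10 (F C : Cov E) (m : E → ℕ) : Set (List (Cov E)) :=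
  {w | w ∈ M.DD F C m ∧ (∃ a ∈ w, isCh a = false) ∧ F ∉ w}

/-- the words of `DD` with the face `F` -/
def X11 (F C : Cov E) (m : E → ℕ) : Set (List (Cov E)) :=
  {w | w ∈ M.DD F C m ∧ F ∈ w}

variable {M}

theorem acyc_X10 {F C : Cov E} (hC : C ∈ M.Ch) {m : E → ℕ}
    (hmax : ∀ G ∈ M.L, Fc F G → Lt G C → G ≠ F → ∃ e, m e ≠ 0 ∧ G e ≠ 0) :
    Acyc (M.X10 F C m) := by
  have hlc : LC (M.X10 F C m) := by
    rintro w w' w'' ⟨h1, h2, h3⟩ hd hd' ⟨h4, ⟨a, h5, h6⟩, h7⟩
    exact ⟨lc_DD F C m h1 hd hd' h4, ⟨a, hd'.sublist.subset h5, h6⟩,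
      fun h => h3 (hd.sublist.subset h)⟩
  apply acyc_of_filter hlc (fun a => !isCh a)
  intro s
  rcases s.eq_nil_or_concat with rfl | ⟨s₀, G, rfl⟩
  · convert acyc_empty using 1
    ext w
    simp only [Set.mem_empty_iff_false, iff_false]
    rintro ⟨⟨_, ⟨a, h1, h2⟩, _⟩, hf⟩
    rw [List.filter_eq_nil_iff] at hf
    exact hf a h1 (by simp [h2])
  · rw [List.concat_eq_append]
    by_cases hs : s₀ ++ [G] ∈ Wd Lt {G' | G' ∈ M.L ∧ Fc F G' ∧ Lt G' C} ∧ F ∉ s₀ ++ [G]
    · obtain ⟨hs, hFs⟩ := hs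
      have hG := hs.2 G (by simp)
      have hsn : ∀ a ∈ s₀ ++ [G], isCh a = false := fun a ha => isCh_of_lt (hs.2 a ha).2.2
      have hGF : G ≠ F := fun h => hFs (by simp [h])
      refine acyc_prefix (U := M.TG G C m) (s := s₀ ++ [G]) ?_ ?_ ?_
      · ext w
        constructor
        · rintro ⟨⟨⟨x, v, u, rfl, hu, hv⟩, _, _⟩, hf⟩
          rw [filter_split' (isCh_Vx hu) (isCh_MCw hv)] at hf
          subst hf
          exact ⟨x :: v, ⟨hv, x, v, rfl, (hu.2 G (by simp)).2.2.2⟩, rfl⟩
        · rintro ⟨t, ⟨ht, x, v, rfl, hx⟩, rfl⟩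
          refine ⟨⟨⟨x, v, s₀ ++ [G], rfl, ⟨hs.1, ?_⟩, ht⟩, ⟨G, by simp, hsn G (by simp)⟩, ?_⟩, ?_⟩
          · intro G' hG'
            obtain ⟨h1, h2, h3⟩ := hs.2 G' hG'
            refine ⟨h1, h2, h3, ?_⟩
            intro e he
            apply hx
            have h4 := hs.1
            rw [List.pairwise_append] at h4
            rw [List.mem_append, List.mem_singleton] at hG'
            rcases hG' with hG' | rfl
            · exact (h4.2.2 G' hG' G (by simp)).1.zero he
            · exact he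
          · intro h
            have h' : F ∈ (s₀ ++ [G]) ++ x :: v := h
            rw [List.mem_append] at h'
            rcases h' with h' | h'
            · exact hFs h'
            · have h5 := isCh_MCw ht F h'
              obtain ⟨e, he1, _⟩ := (lt_iff_exists.2 ⟨hG.2.1, by
                by_contra hcon
                push Not at hcon
                apply hGF
                funext e
                rcases hG.2.1 e with h6 | h6
                · rw [h6, hcon e h6]
                · exact h6.symm⟩ : Lt F G).exists_zero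
              simp only [isCh, decide_eq_true_eq] at h5
              exact h5 e he1
          · exact filter_split' hsn (isCh_MCw ht)
      · intro t ht s' hd hmem
        have h1 := hmem.2
        rw [filter_split' (fun a ha => hsn a (hd.sublist.subset ha)) (isCh_MCw ht.1)] at h1
        have := hd.length
        rw [h1] at this
        omega
      · exact M.acyc_TG hG.1 hC hG.2.2 (hmax G hG.1 hG.2.1 hG.2.2 hGF)
    · convert acyc_empty using 1
      ext w
      simp only [Set.mem_empty_iff_false, iff_false]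
      rintro ⟨⟨⟨x, v, u, rfl, hu, hv⟩, _, hFw⟩, hf⟩
      rw [filter_split' (isCh_Vx hu) (isCh_MCw hv)] at hf
      subst hf
      apply hs
      refine ⟨⟨hu.1, fun a ha => ⟨(hu.2 a ha).1, (hu.2 a ha).2.1, (hu.2 a ha).2.2.1⟩⟩, ?_⟩
      intro h
      exact hFw (List.mem_append_left _ h)

theorem X1_eq (F C : Cov E) (hFC : Lt F C) (m : E → ℕ) :
    M.X1 F C m = M.X10 F C m ∪ M.X11 F C m := by
  ext w
  constructor
  · rintro ⟨h1, h2⟩
    by_cases h : F ∈ w
    · exact Or.inr ⟨h1, h⟩
    · exact Or.inl ⟨h1, h2, h⟩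
  · rintro (⟨h1, h2, _⟩ | ⟨h1, h2⟩)
    · exact ⟨h1, h2⟩
    · exact ⟨h1, F, h2, isCh_of_lt hFC⟩

theorem DD_eq {F C : Cov E} {m : E → ℕ} (hm : m ≠ 0) :
    M.DD F C m = M.MCw C m ∪ M.X1 F C m := by
  ext w
  constructor
  · intro hw
    by_cases h : ∃ a ∈ w, isCh a = false
    · exact Or.inr ⟨hw, h⟩
    · left
      obtain ⟨x, v, u, rfl, hu, hv⟩ := hw
      have : u = [] := by
        rcases u with _ | ⟨a, u⟩
        · rfl
        · exact absurd ⟨a, by simp, isCh_Vx hu a (by simp)⟩ h
      subst this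
      exact hv
  · rintro (hw | hw)
    · have h1 := ne_nil_of_mem hm hw
      cases w with
      | nil => exact absurd rfl h1
      | cons x v => exact ⟨x, v, [], rfl, ⟨List.Pairwise.nil, by simp⟩, hw⟩
    · exact hw.1

theorem disj_MCw_X1 (F C : Cov E) (m : E → ℕ) : Disjoint (M.MCw C m) (M.X1 F C m) := by
  rw [Set.disjoint_left]
  rintro w h1 ⟨_, a, h2, h3⟩
  rw [isCh_MCw h1 a h2] at h3
  exact absurd h3 (by simp)

theorem closed_MCw_X1 (F C : Cov E) (m : E → ℕ) :
    ∀ w ∈ M.MCw C m, ∀ w', Del w w' → w' ∉ M.X1 F C m := by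
  rintro w h1 w' hd ⟨_, a, h2, h3⟩
  rw [isCh_MCw h1 a (hd.sublist.subset h2)] at h3
  exact absurd h3 (by simp)

theorem lc_X1 (F C : Cov E) (m : E → ℕ) : LC (M.X1 F C m) := by
  rintro w w' w'' ⟨h1, h2⟩ hd hd' ⟨h4, a, h5, h6⟩
  exact ⟨lc_DD F C m h1 hd hd' h4, a, hd'.sublist.subset h5, h6⟩

/-- passing from the words with faces to the words without faces -/
theorem homIs_MCw_of_X1 {F C : Cov E} (hF : F ∈ M.L) (hC : C ∈ M.Ch) (hFC : Lt F C) {m : E → ℕ}
    (hm0 : m ≠ 0) (hm : ∀ e, F e ≠ 0 → m e = 0) {f : ℕ → ℕ} (hf : HomIs (M.X1 F C m) f) :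
    HomIs (M.MCw C m) (fun n => f (n + 1)) := by
  have h1 := acyc_DD hF hC hFC hm
  have h2 := lc_DD (M := M) F C m
  rw [DD_eq hm0] at h1 h2
  exact HomIs.les_shift h2 (disj_MCw_X1 F C m) (closed_MCw_X1 F C m) h1 hf

theorem homIs_X1_of_X11 {F C : Cov E} (hC : C ∈ M.Ch) (hFC : Lt F C) {m : E → ℕ}
    (hmax : ∀ G ∈ M.L, Fc F G → Lt G C → G ≠ F → ∃ e, m e ≠ 0 ∧ G e ≠ 0)
    {f : ℕ → ℕ} (hf : HomIs (M.X11 F C m) f) : HomIs (M.X1 F C m) f := by
  rw [X1_eq F C hFC m]
  refine HomIs.les_quot ?_ ?_ ?_ (acyc_X10 hC hmax) hf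
  · rw [← X1_eq F C hFC m]; exact lc_X1 F C m
  · rw [Set.disjoint_left]
    exact fun w h1 h2 => h1.2.2 h2.2
  · intro w h1 w' hd h2
    exact h1.2.2 (hd.sublist.subset h2.2)

/-- No homology if the support of the multidegree is not the zero set of a face. -/
theorem homIs_zero {F C : Cov E} (hF : F ∈ M.L) (hC : C ∈ M.Ch) (hFC : Lt F C) {m : E → ℕ}
    (hm0 : m ≠ 0) (hm : ∀ e, F e ≠ 0 → m e = 0)
    (hmax : ∀ G ∈ M.L, Fc F G → Lt G C → G ≠ F → ∃ e, m e ≠ 0 ∧ G e ≠ 0)
    (hex : ∃ e, F e = 0 ∧ m e = 0) : HomIs (M.MCw C m) (fun _ => 0) := by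
  have h1 : M.X11 F C m = ∅ := by
    ext w
    simp only [Set.mem_empty_iff_false, iff_false]
    rintro ⟨⟨x, v, u, rfl, hu, hv⟩, hFw⟩
    rw [List.mem_append] at hFw
    rcases hFw with h | h
    · obtain ⟨e, he1, he2⟩ := hex
      have h2 := (hu.2 F h).2.2.2 e he1
      have h3 := congrFun hv.2.2 e
      rw [md_cons, Pi.add_apply, he2] at h3
      exact h2 (sep_eq_zero.1 (by omega : sep C x e = 0)).symm
    · have h2 := isCh_MCw hv F h
      rw [isCh_of_lt hFC] at h2
      exact absurd h2 (by simp)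
  have h2 : HomIs (M.X11 F C m) (fun _ => 0) := by
    rw [h1]; exact homIs_of_acyc acyc_empty
  exact homIs_MCw_of_X1 hF hC hFC hm0 hm (homIs_X1_of_X11 hC hFC hmax h2)

end OM

end Pool.Agent.T6.H82.MA
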