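import Mathlib
import Pool.Agent.T6.H82.MA.Main

/-!
# The homology of the complexes of tuples: the sphere recursion and the final rank function
-/

set_option autoImplicit false

namespace Pool.Agent.T6.H82.MA

variable {E : Type*} [Fintype E] [DecidableEq E]

namespace OM

variable (M : OM E)

/-- words `u, F, C₁, v` with `u` a chain in `P` -/
def Yw (F C₁ : Cov E) (m₁ : E → ℕ) (P : Set (Cov E)) : Set (List (Cov E)) :=
  {w | ∃ u v, w = u ++ F :: C₁ :: v ∧ u ∈ Wd Lt P ∧ v ∈ M.MCw C₁ m₁}

variable {M}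

/-- standing assumptions on `P` -/
structure Good (F : Cov E) (P : Set (Cov E)) : Prop where
  hF : isCh F = false
  hP : ∀ G ∈ P, isCh G = false
  hFP : ∀ G ∈ P, Lt F G

theorem Good.mono {F : Cov E} {P Q : Set (Cov E)} (h : Good F P) (hQ : Q ⊆ P) : Good F Q :=
  ⟨h.hF, fun G hG => h.hP G (hQ hG), fun G hG => h.hFP G (hQ hG)⟩

theorem Good.notMem {F : Cov E} {P : Set (Cov E)} (h : Good F P) : F ∉ P :=
  fun hF => (h.hFP F hF).2 rfl

section

variable {F C₁ : Cov E} {m₁ : E → ℕ} {P : Set (Cov E)}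

theorem Yw_shape (hgood : Good F P) (hC₁ : C₁ ∈ M.Ch) {u v : List (Cov E)} (hu : u ∈ Wd Lt P)
    (hv : v ∈ M.MCw C₁ m₁) :
    (u ++ F :: C₁ :: v).filter isCh = C₁ :: v ∧
      (u ++ F :: C₁ :: v).filter (fun a => !isCh a) = u ++ [F] := by
  have e : u ++ F :: C₁ :: v = (u ++ [F]) ++ C₁ :: v := by simp
  have h1 : ∀ a ∈ u ++ [F], isCh a = false := by
    intro a ha
    rw [List.mem_append, List.mem_singleton] at ha
    rcases ha with ha | rfl
    · exact hgood.hP a (hu.2 a ha)
    · exact hgood.hF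
  have h2 : ∀ a ∈ C₁ :: v, isCh a = true := by
    intro a ha
    rw [List.mem_cons] at ha
    rcases ha with rfl | ha
    · exact isCh_of_mem hC₁
    · exact isCh_MCw hv a ha
  rw [e]
  exact ⟨filter_split h1 h2, filter_split' h1 h2⟩

theorem not_cons_self {v : List (Cov E)} (h : C₁ :: v ∈ M.MCw C₁ m₁) : False := by
  have := h.2.1
  rw [List.isChain_cons_cons] at this
  exact this.1 rfl

theorem md_cons_self (v : List (Cov E)) : md C₁ (C₁ :: v) = md C₁ v := by
  rw [md_cons, sep_self, zero_add]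

theorem no_del_cons_self {t v : List (Cov E)} (ht : t ∈ M.MCw C₁ m₁) (hv : v ∈ M.MCw C₁ m₁)
    (hd : Del t (C₁ :: v)) : False := by
  have h1 : C₁ :: v ∈ M.MCw C₁ m₁ := MCw_of_del ht hd (by rw [md_cons_self, hv.2.2])
  exact not_cons_self h1

theorem F_notMem_chambers (hgood : Good F P) (hC₁ : C₁ ∈ M.Ch) {v : List (Cov E)}
    (hv : v ∈ M.MCw C₁ m₁) : F ∉ C₁ :: v := by
  intro h
  have h0 := hgood.hF
  rw [List.mem_cons] at h
  rcases h with rfl | h
  · rw [isCh_of_mem hC₁] at h0; exact absurd h0 (by simp)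
  · rw [isCh_MCw hv F h] at h0; exact absurd h0 (by simp)

theorem lc_Yw (hgood : Good F P) (hC₁ : C₁ ∈ M.Ch) : LC (M.Yw F C₁ m₁ P) := by
  rintro w w' w'' ⟨u, v, rfl, hu, hv⟩ hd hd' hw''
  have hFw'' : F ∈ w'' := by
    obtain ⟨u'', v'', rfl, _, _⟩ := hw''; simp
  obtain ⟨u'', v'', rfl, hu'', hv''⟩ := hw''
  have hs'' := (Yw_shape hgood hC₁ hu'' hv'').1
  have hFu : F ∉ u := fun h => hgood.notMem (hu.2 F h)
  rw [del_append] at hd
  rcases hd with ⟨u', hd, rfl⟩ | ⟨t, hd, rfl⟩
  · exact ⟨u', v, rfl, Wd.of_del hu hd, hv⟩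
  · rw [del_cons] at hd
    rcases hd with rfl | ⟨t', hd, rfl⟩
    · exfalso
      have h1 := hd'.sublist.subset hFw''
      rw [List.mem_append] at h1
      rcases h1 with h1 | h1
      · exact hFu h1
      · exact F_notMem_chambers hgood hC₁ hv h1
    · have hun : ∀ a ∈ u ++ [F], isCh a = false := by
        intro a ha
        rw [List.mem_append, List.mem_singleton] at ha
        rcases ha with ha | rfl
        · exact hgood.hP a (hu.2 a ha)
        · exact hgood.hF
      rw [del_cons] at hd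
      rcases hd with rfl | ⟨t'', hd, rfl⟩
      · exfalso
        have h1 : (u ++ F :: t').filter isCh = t' := by
          have e : u ++ F :: t' = (u ++ [F]) ++ t' := by simp
          rw [e, filter_split hun (isCh_MCw hv)]
        rcases hd'.filter isCh with h | h
        · rw [hs'', h1] at h
          rw [← h] at hv
          exact not_cons_self hv
        · rw [hs'', h1] at h
          exact no_del_cons_self hv hv'' h
      · have h1 : (u ++ F :: C₁ :: t'').filter isCh = C₁ :: t'' := by
          have e : u ++ F :: C₁ :: t'' = (u ++ [F]) ++ C₁ :: t'' := by simp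
          rw [e, filter_split hun]
          intro a ha
          rw [List.mem_cons] at ha
          rcases ha with rfl | ha
          · exact isCh_of_mem hC₁
          · exact isCh_MCw hv a (hd.sublist.subset ha)
        refine ⟨u, t'', rfl, hu, ?_⟩
        rcases hd'.filter isCh with h | h
        · rw [hs'', h1, List.cons.injEq] at h
          rw [← h.2]; exact hv''
        · rw [hs'', h1, del_cons] at h
          rcases h with h | ⟨s, h, h'⟩
          · exfalso
            rw [← h] at hd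
            exact no_del_cons_self hv hv'' hd
          · rw [List.cons.injEq] at h'
            rw [← h'.2] at h
            exact lc_MCw C₁ m₁ hv hd h hv''

theorem acyc_Yw (hgood : Good F P) (hC₁ : C₁ ∈ M.Ch) (h : AcP Lt P) : Acyc (M.Yw F C₁ m₁ P) := by
  apply acyc_of_filter (lc_Yw hgood hC₁) isCh
  intro s
  by_cases hs : ∃ v, s = C₁ :: v ∧ v ∈ M.MCw C₁ m₁
  · obtain ⟨v, rfl, hv⟩ := hs
    refine acyc_suffix (U := Wd Lt P) (s := F :: C₁ :: v) ?_ ?_ h
    · ext w
      constructor
      · rintro ⟨⟨u, v', rfl, hu, hv'⟩, hf⟩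
        rw [(Yw_shape hgood hC₁ hu hv').1, List.cons.injEq] at hf
        obtain ⟨_, rfl⟩ := hf
        exact ⟨u, hu, rfl⟩
      · rintro ⟨u, hu, rfl⟩
        exact ⟨⟨u, v, rfl, hu, hv⟩, (Yw_shape hgood hC₁ hu hv).1⟩
    · intro u hu s' hd hmem
      rw [del_cons] at hd
      rcases hd with rfl | ⟨t, hd, rfl⟩
      · obtain ⟨⟨u', v', h1, _, _⟩, _⟩ := hmem
        have h2 : F ∈ u ++ C₁ :: v := by rw [h1]; simp
        rw [List.mem_append] at h2
        rcases h2 with h2 | h2
        · exact hgood.notMem (hu.2 F h2)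
        · exact F_notMem_chambers hgood hC₁ hv h2
      · have h1 := hmem.2
        have e : u ++ F :: t = (u ++ [F]) ++ t := by simp
        rw [e, filter_split] at h1
        · have := hd.length
          rw [h1] at this
          omega
        · intro a ha
          rw [List.mem_append, List.mem_singleton] at ha
          rcases ha with ha | rfl
          · exact hgood.hP a (hu.2 a ha)
          · exact hgood.hF
        · intro a ha
          have := hd.sublist.subset ha
          rw [List.mem_cons] at this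
          rcases this with rfl | this
          · exact isCh_of_mem hC₁
          · exact isCh_MCw hv a this
  · convert acyc_empty using 1
    ext w
    simp only [Set.mem_empty_iff_false, iff_false]
    rintro ⟨⟨u, v', rfl, hu, hv'⟩, hf⟩
    rw [(Yw_shape hgood hC₁ hu hv').1] at hf
    exact hs ⟨v', hf.symm, hv'⟩

theorem homIs_Yw_split (hgood : Good F P) (hC₁ : C₁ ∈ M.Ch) {K : Cov E} (hK : K ∈ P)
    (hmax : ∀ G ∈ P, ¬ Lt K G) (hac : AcP Lt (P \ {K})) {f : ℕ → ℕ}
    (hf : HomIs (M.Yw F C₁ m₁ {q | q ∈ P ∧ Lt q K}) f) :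
    HomIs (M.Yw F C₁ m₁ P) (shift f) := by
  have hKn : isCh K = false := hgood.hP K hK
  have hKF : K ≠ F := fun h => hgood.notMem (h ▸ hK)
  have hKv : ∀ v ∈ M.MCw C₁ m₁, K ∉ F :: C₁ :: v := by
    intro v hv h
    rw [List.mem_cons] at h
    rcases h with h | h
    · exact hKF h
    · have h1 : isCh K = true := by
        rw [List.mem_cons] at h
        rcases h with rfl | h
        · exact isCh_of_mem hC₁
        · exact isCh_MCw hv K h
      rw [hKn] at h1
      exact absurd h1 (by simp)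
  have hsplit : M.Yw F C₁ m₁ P
      = M.Yw F C₁ m₁ (P \ {K}) ∪ {w | w ∈ M.Yw F C₁ m₁ P ∧ K ∈ w} := by
    ext w
    constructor
    · intro hw
      by_cases h : K ∈ w
      · exact Or.inr ⟨hw, h⟩
      · left
        obtain ⟨u, v, rfl, hu, hv⟩ := hw
        refine ⟨u, v, rfl, ⟨hu.1, fun a ha => ⟨hu.2 a ha, ?_⟩⟩, hv⟩
        rintro rfl
        exact h (List.mem_append_left _ ha)
    · rintro (⟨u, v, rfl, hu, hv⟩ | hw)
      · exact ⟨u, v, rfl, Wd.mono Set.sdiff_subset hu, hv⟩
      · exact hw.1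
  have hYK : {w | w ∈ M.Yw F C₁ m₁ P ∧ K ∈ w}
      = (List.cons K) '' (M.Yw F C₁ m₁ {q | q ∈ P ∧ Lt q K}) := by
    ext w
    constructor
    · rintro ⟨⟨u, v, rfl, hu, hv⟩, hKw⟩
      rw [List.mem_append] at hKw
      rcases hKw with h | h
      · obtain ⟨u₁, u₂, rfl⟩ := List.append_of_mem h
        have h1 := hu.1
        rw [List.pairwise_append, List.pairwise_cons] at h1
        have h2 : u₁ = [] := by
          rcases u₁ with _ | ⟨a, u₁⟩
          · rfl
          · exact absurd (h1.2.2 a (by simp) K (by simp)) (hmax a (hu.2 a (by simp)))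
        subst h2
        refine ⟨u₂ ++ F :: C₁ :: v, ⟨u₂, v, rfl, ⟨h1.2.1.2, ?_⟩, hv⟩, by simp⟩
        intro a ha
        exact ⟨hu.2 a (by simp [ha]), h1.2.1.1 a ha⟩
      · exact absurd h (hKv v hv)
    · rintro ⟨_, ⟨u, v, rfl, hu, hv⟩, rfl⟩
      refine ⟨⟨K :: u, v, by simp, ⟨?_, ?_⟩, hv⟩, by simp⟩
      · rw [List.pairwise_cons]
        exact ⟨fun a ha => (hu.2 a ha).2, hu.1⟩
      · intro a ha
        rw [List.mem_cons] at ha
        rcases ha with rfl | ha
        · exact hK
        · exact (hu.2 a ha).1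
  have h1 : HomIs {w | w ∈ M.Yw F C₁ m₁ P ∧ K ∈ w} (shift f) := by
    refine homIs_cons hYK ?_ hf
    rintro _ ⟨u, v, rfl, hu, hv⟩ h
    have h2 := h.2
    rw [List.mem_append] at h2
    rcases h2 with h2 | h2
    · exact (hu.2 K h2).2.2 rfl
    · exact hKv v hv h2
  rw [hsplit]
  refine HomIs.les_quot ?_ ?_ ?_ (acyc_Yw (hgood.mono Set.sdiff_subset) hC₁ hac) h1
  · rw [← hsplit]; exact lc_Yw hgood hC₁
  · rw [Set.disjoint_left]
    rintro _ ⟨u, v, rfl, hu, hv⟩ h
    have h2 := h.2
    rw [List.mem_append] at h2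
    rcases h2 with h2 | h2
    · exact (hu.2 K h2).2 rfl
    · exact hKv v hv h2
  · rintro _ ⟨u, v, rfl, hu, hv⟩ w' hd h
    have h2 := hd.sublist.subset h.2
    rw [List.mem_append] at h2
    rcases h2 with h2 | h2
    · exact (hu.2 K h2).2 rfl
    · exact hKv v hv h2

theorem homIs_Yw_empty (hF : isCh F = false) (hC₁ : C₁ ∈ M.Ch) {f : ℕ → ℕ}
    (hf : HomIs (M.MCw C₁ m₁) f) : HomIs (M.Yw F C₁ m₁ ∅) (shift (shift f)) := by
  have h1 : HomIs ((List.cons C₁) '' (M.MCw C₁ m₁)) (shift f) := by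
    refine homIs_cons rfl ?_ hf
    rintro u hu ⟨v, _, rfl⟩
    exact not_cons_self hu
  refine homIs_cons (U := (List.cons C₁) '' (M.MCw C₁ m₁)) (a := F) ?_ ?_ h1
  · ext w
    constructor
    · rintro ⟨u, v, rfl, hu, hv⟩
      have : u = [] := by
        rcases u with _ | ⟨a, u⟩
        · rfl
        · exact absurd (hu.2 a (by simp)) (Set.notMem_empty a)
      subst this
      exact ⟨C₁ :: v, ⟨v, hv, rfl⟩, rfl⟩
    · rintro ⟨_, ⟨v, hv, rfl⟩, rfl⟩
      exact ⟨[], v, rfl, ⟨List.Pairwise.nil, by simp⟩, hv⟩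
  · rintro _ ⟨v, hv, rfl⟩ ⟨u, v', h2, _, _⟩
    have h3 : F ∈ C₁ :: v := by
      have h4 : F ∈ u ++ F :: C₁ :: v' := by simp
      rw [← h2] at h4
      exact h4
    rw [List.mem_cons] at h3
    rcases h3 with rfl | h3
    · rw [isCh_of_mem hC₁] at hF; exact absurd hF (by simp)
    · rw [isCh_MCw hv F h3] at hF; exact absurd hF (by simp)

end

theorem good_Bd {F C C₀ : Cov E} (hFC : Lt F C) (hC : Fc C C₀) : Good F (M.Bd F C) := by
  have h : ∀ G : Cov E, Lt G C → isCh G = false := fun G h => isCh_of_lt h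
  exact ⟨h F hFC, fun G hG => h G hG.2.2, fun G hG => hG.2.1⟩

/-- The sphere recursion. -/
theorem sphere {F C₁ : Cov E} {m₁ : E → ℕ} (hF : F ∈ M.L) (hC₁ : C₁ ∈ M.Ch) {f : ℕ → ℕ}
    (hf : HomIs (M.MCw C₁ m₁) f) : ∀ (n : ℕ) (C : Cov E), C ∈ M.L → Lt F C →
    (Z F \ Z C).card = n → ∃ j, M.rk (Z F) = M.rk (Z C) + 1 + j ∧
      HomIs (M.Yw F C₁ m₁ (M.Bd F C)) (shift^[j] (shift (shift f))) := by
  intro n
  induction n using Nat.strong_induction_on with
  | _ n ih =>
    intro C hC hFC hn
    obtain ⟨K, hK, hFK, hKC, hrk, hac, hmax, hemp⟩ := M.exists_facet hF hC hFC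
    have hgood : Good F (M.Bd F C) := good_Bd (C₀ := C) hFC (Fc.refl C)
    by_cases hKF : K = F
    · refine ⟨0, by rw [← hKF, hrk], ?_⟩
      rw [hemp hKF]
      exact homIs_Yw_empty hgood.hF hC₁ hf
    · have hFK' : Lt F K := ⟨hFK, Ne.symm hKF⟩
      have hlt : (Z F \ Z K).card < n := by
        rw [← hn]
        apply Finset.card_lt_card
        rw [Finset.ssubset_iff_of_subset
          (Finset.sdiff_subset_sdiff (Finset.Subset.refl _) hKC.1.Z_subset)]
        obtain ⟨e, he1, he2⟩ := hKC.exists_zero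
        refine ⟨e, ?_, ?_⟩
        · rw [Finset.mem_sdiff, mem_Z, mem_Z]
          exact ⟨hFK.zero he1, he2⟩
        · rw [Finset.mem_sdiff, mem_Z, mem_Z]
          exact fun h => h.2 he1
      obtain ⟨j, hj, hj'⟩ := ih _ hlt K hK hFK' rfl
      refine ⟨j + 1, by rw [hj, hrk]; ring, ?_⟩
      rw [Function.iterate_succ_apply']
      refine homIs_Yw_split hgood hC₁ (K := K) ⟨hK, hFK', hKC⟩ ?_ (hac hKF) ?_
      · rintro G ⟨hG, _, hGC⟩ hKG
        exact hKG.2 (hmax G hG hKG.1 hGC).symm
      · have : {q | q ∈ M.Bd F C ∧ Lt q K} = M.Bd F K := by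
          ext q
          constructor
          · rintro ⟨⟨h1, h2, _⟩, h3⟩; exact ⟨h1, h2, h3⟩
          · rintro ⟨h1, h2, h3⟩; exact ⟨⟨h1, h2, h3.trans hKC⟩, h3⟩
        rw [this]; exact hj'

theorem X11_eq {F C : Cov E} (hF : F ∈ M.L) (hC : C ∈ M.Ch) (hFC : Lt F C) {m : E → ℕ}
    (hm : ∀ e, F e ≠ 0 ↔ m e = 0) :
    M.X11 F C m = M.Yw F (anti F C) (fun e => m e - 1) (M.Bd F C) := by
  have hC₁ := anti_Ch hF hC
  ext w
  constructor
  · rintro ⟨⟨x, v, u, rfl, hu, hv⟩, hFw⟩
    have hxCh : x ∈ M.Ch := hv.1 x (by simp)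
    have hFx : Fc F x := fc_first hFC.1 (fun e he => (hm e).1 he) hv
    have hFu : F ∈ u := by
      rw [List.mem_append] at hFw
      rcases hFw with h | h
      · exact h
      · have h2 := isCh_MCw hv F h
        rw [isCh_of_lt hFC] at h2
        exact absurd h2 (by simp)
    have hx : x = anti F C := by
      funext e
      by_cases he : F e = 0
      · rw [anti_of_zero he]
        have h1 := (hu.2 F hFu).2.2.2 e he
        rw [← (sg_ne_iff (hxCh.2 e) (hC.2 e)).1 h1, sg_neg_neg]
      · rw [anti_of_ne he, hFx.eq_of_ne he]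
    subst hx
    obtain ⟨u₁, u₂, rfl⟩ := List.append_of_mem hFu
    have h1 := hu.1
    rw [List.pairwise_append, List.pairwise_cons] at h1
    have h2 : u₂ = [] := by
      rcases u₂ with _ | ⟨a, u₂⟩
      · rfl
      · exfalso
        have h3 := h1.2.1.1 a (by simp)
        have h4 := (hu.2 a (by simp)).2.1
        exact h3.2 (h3.1.antisymm h4)
    subst h2
    refine ⟨u₁, v, by simp, ⟨h1.1, ?_⟩, ?_, ?_, ?_⟩
    · intro a ha
      obtain ⟨h3, h4, h5, _⟩ := hu.2 a (by simp [ha])
      exact ⟨h3, h1.2.2 a ha F (by simp), h5⟩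
    · exact fun y hy => hv.1 y (by simp [hy])
    · have := hv.2.1
      rw [List.isChain_cons_cons] at this
      exact this.2
    · have h3 := hv.2.2
      rw [md_cons] at h3
      funext e
      have h4 := congrFun h3 e
      rw [Pi.add_apply] at h4
      by_cases he : F e = 0
      · have h5 : sep C (anti F C) e = 1 := by
          unfold sep
          rw [if_neg]
          rw [anti_of_zero he]
          exact fun h => sg_ne (hC.2 e) h.symm
        omega
      · have h5 : m e = 0 := (hm e).1 he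
        omega
  · rintro ⟨u, v, rfl, hu, hv⟩
    have hne : C ≠ anti F C := by
      obtain ⟨e, h1, h2⟩ := hFC.exists_zero
      intro h
      have := congrFun h e
      rw [anti_of_zero h1] at this
      exact sg_ne h2 this.symm
    refine ⟨⟨anti F C, v, u ++ [F], by simp, ⟨?_, ?_⟩, ?_, ?_, ?_⟩, by simp⟩
    · rw [List.pairwise_append]
      refine ⟨hu.1, List.pairwise_singleton _ _, ?_⟩
      intro a ha b hb
      rw [List.mem_singleton] at hb
      subst hb
      exact (hu.2 a ha).2.1
    · intro a ha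
      have hgen : ∀ G : Cov E, Fc F G → ∀ e, G e = 0 → anti F C e ≠ C e := by
        intro G hG e he
        rw [anti_of_zero (hG.zero he)]
        exact sg_ne (hC.2 e)
      rw [List.mem_append, List.mem_singleton] at ha
      rcases ha with ha | rfl
      · obtain ⟨h3, h4, h5⟩ := hu.2 a ha
        exact ⟨h3, h4.1, h5, hgen a h4.1⟩
      · exact ⟨hF, Fc.refl _, hFC, hgen _ (Fc.refl _)⟩
    · intro y hy
      rw [List.mem_cons] at hy
      rcases hy with rfl | hy
      · exact hC₁
      · exact hv.1 y hy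
    · rw [List.isChain_cons_cons]
      exact ⟨hne, hv.2.1⟩
    · rw [md_cons, hv.2.2]
      funext e
      rw [Pi.add_apply]
      by_cases he : F e = 0
      · have h5 : sep C (anti F C) e = 1 := by
          unfold sep
          rw [if_neg]
          rw [anti_of_zero he]
          exact fun h => sg_ne (hC.2 e) h.symm
        have h6 : m e ≠ 0 := fun h => (hm e).2 h he
        omega
      · have h5 : m e = 0 := (hm e).1 he
        have h6 : sep C (anti F C) e = 0 := by
          rw [sep_eq_zero, anti_of_ne he, hFC.1.eq_of_ne he]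
        omega

theorem Z_chamber {C : Cov E} (hC : C ∈ M.Ch) : Z C = ∅ := by
  ext e; simp [mem_Z, hC.2 e]

theorem iterate_shift_add (f : ℕ → ℕ) (r n : ℕ) : (shift^[r + 1] f) (n + 1) = (shift^[r] f) n := by
  rw [Function.iterate_succ_apply']
  rfl

/-- The homology for the support equal to the zero set of a face. -/
theorem homIs_shift {F C : Cov E} (hF : F ∈ M.L) (hC : C ∈ M.Ch) (hFC : Lt F C) {m : E → ℕ}
    (hm : ∀ e, F e ≠ 0 ↔ m e = 0) {f : ℕ → ℕ}
    (hf : HomIs (M.MCw (anti F C) (fun e => m e - 1)) f) :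
    HomIs (M.MCw C m) (shift^[M.rk (Z F)] f) := by
  have hm0 : m ≠ 0 := by
    obtain ⟨e, h1, _⟩ := hFC.exists_zero
    intro h
    exact (hm e).2 (congrFun h e) h1
  obtain ⟨j, hj, hj'⟩ := sphere hF (anti_Ch hF hC) hf _ C hC.1 hFC rfl
  rw [← X11_eq hF hC hFC hm] at hj'
  have hmax : ∀ G ∈ M.L, Fc F G → Lt G C → G ≠ F → ∃ e, m e ≠ 0 ∧ G e ≠ 0 := by
    intro G _ h1 _ h3
    obtain ⟨e, h4, h5⟩ := Lt.exists_zero (F := F) (C := G) ⟨h1, Ne.symm h3⟩
    exact ⟨e, fun h => (hm e).2 h h4, h5⟩
  have h1 := homIs_MCw_of_X1 hF hC hFC hm0 (fun e he => (hm e).1 he)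
    (homIs_X1_of_X11 hC hFC hmax hj')
  apply h1.congr
  intro n
  rw [Z_chamber hC, M.rk_empty, zero_add, add_comm] at hj
  rw [hj, ← Function.iterate_succ_apply, ← Function.iterate_succ_apply]
  exact iterate_shift_add f (j + 1) n

/-- the largest face of `C` whose zeros contain the support of `m` -/
theorem exists_maxface (C : Cov E) (m : E → ℕ) : ∃ F ∈ M.L, Fc F C ∧ (∀ e, F e ≠ 0 → m e = 0) ∧
    ∀ G ∈ M.L, Fc F G → Fc G C → G ≠ F → ∃ e, m e ≠ 0 ∧ G e ≠ 0 := by
  classical
  have hex : ∃ n, ∃ F ∈ M.L, Fc F C ∧ (∀ e, F e ≠ 0 → m e = 0) ∧ (Z F).card = n :=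
    ⟨_, _, M.zero_mem, fun _ => Or.inl rfl, fun _ h => absurd rfl h, rfl⟩
  obtain ⟨F, hF, h1, h2, h3⟩ := Nat.find_spec hex
  refine ⟨F, hF, h1, h2, ?_⟩
  intro G hG hFG hGC hne
  by_contra hcon
  push Not at hcon
  have h4 := Nat.find_min' hex ⟨G, hG, hGC, fun e he => by
    by_contra h; exact he (hcon e h), rfl⟩
  rw [← h3] at h4
  have h5 := Finset.card_lt_card (Lt.Z_ssubset (F := F) (C := G) ⟨hFG, Ne.symm hne⟩)
  omega

open Classical in
/-- the rank function of the homology of the tuples starting at `C` of multidegree `m` -/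
noncomputable def Rk (M : OM E) (C : Cov E) (m : E → ℕ) : ℕ → ℕ :=
  if hm : m = 0 then fun n => if n = 0 then 1 else 0
  else if h : ∃ F, F ∈ M.L ∧ Fc F C ∧ ∀ e, F e ≠ 0 ↔ m e = 0 then
    shift^[M.rk (Z h.choose)] (Rk M (anti h.choose C) (fun e => m e - 1))
  else fun _ => 0
termination_by ∑ e, m e
decreasing_by
  apply Finset.sum_lt_sum
  · intro e _; exact Nat.sub_le _ _
  · obtain ⟨e, he⟩ : ∃ e, m e ≠ 0 := by
      by_contra hcon
      push Not at hcon
      exact hm (funext hcon)
    exact ⟨e, Finset.mem_univ e, by omega⟩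

theorem Rk_zero (C : Cov E) : Rk M C 0 = fun n => if n = 0 then 1 else 0 := by
  rw [Rk, dif_pos rfl]

theorem Rk_face {F C : Cov E} {m : E → ℕ} (hm : m ≠ 0) (hF : F ∈ M.L) (hFC : Fc F C)
    (h : ∀ e, F e ≠ 0 ↔ m e = 0) :
    Rk M C m = shift^[M.rk (Z F)] (Rk M (anti F C) (fun e => m e - 1)) := by
  have hex : ∃ F, F ∈ M.L ∧ Fc F C ∧ ∀ e, F e ≠ 0 ↔ m e = 0 := ⟨F, hF, hFC, h⟩
  have h1 := hex.choose_spec
  have h2 : hex.choose = F := by
    apply eq_of_zeros h1.2.1 hFC
    intro e
    rw [← not_iff_not]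
    exact (h1.2.2 e).trans (h e).symm
  rw [Rk, dif_neg hm, dif_pos hex, h2]

theorem Rk_none {C : Cov E} {m : E → ℕ} (hm : m ≠ 0)
    (h : ¬ ∃ F, F ∈ M.L ∧ Fc F C ∧ ∀ e, F e ≠ 0 ↔ m e = 0) : Rk M C m = fun _ => 0 := by
  rw [Rk, dif_neg hm, dif_neg h]

/-- The homology of the tuples starting at `C` of multidegree `m`. -/
theorem homIs_MCw : ∀ (n : ℕ) (C : Cov E) (m : E → ℕ), C ∈ M.Ch → ∑ e, m e = n →
    HomIs (M.MCw C m) (Rk M C m) := by
  intro n
  induction n using Nat.strong_induction_on with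
  | _ n ih =>
    intro C m hC hn
    by_cases hm : m = 0
    · subst hm
      rw [Rk_zero]
      have : M.MCw C 0 = {[]} := by
        ext w
        rw [Set.mem_singleton_iff]
        constructor
        · rintro ⟨_, h2, h3⟩
          cases w with
          | nil => rfl
          | cons x v =>
            exfalso
            rw [List.isChain_cons_cons] at h2
            apply sep_ne_zero_of_ne h2.1
            funext e
            have := congrFun h3 e
            rw [md_cons, Pi.add_apply] at this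
            show sep C x e = 0
            have h4 : (0 : E → ℕ) e = 0 := rfl
            omega
        · rintro rfl
          exact ⟨by simp, by simp, rfl⟩
      rw [this]
      exact homIs_nil
    · obtain ⟨F, hF, hFC, h1, h2⟩ := exists_maxface (M := M) C m
      have hFC' : Lt F C := by
        refine ⟨hFC, ?_⟩
        rintro rfl
        exact hm (funext fun e => h1 e (hC.2 e))
      have hmax : ∀ G ∈ M.L, Fc F G → Lt G C → G ≠ F → ∃ e, m e ≠ 0 ∧ G e ≠ 0 :=
        fun G hG h3 h4 h5 => h2 G hG h3 h4.1 h5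
      by_cases hex : ∃ e, F e = 0 ∧ m e = 0
      · rw [Rk_none hm]
        · exact homIs_zero hF hC hFC' hm h1 hmax hex
        · rintro ⟨G, hG, hGC, h3⟩
          have hFG : Fc F G := by
            -- compare zero sets through maximality
            by_contra hcon
            have h4 : cmp G F ∈ M.L := M.cmp_mem hG hF
            have hGF : cmp G F = cmp F G := by
              funext e
              by_cases hGe : G e = 0 <;> by_cases hFe : F e = 0
              · rw [cmp_of_zero hGe, cmp_of_zero hFe, hGe, hFe]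
              · rw [cmp_of_zero hGe, cmp_of_ne hFe]
              · rw [cmp_of_ne hGe, cmp_of_zero hFe]
              · rw [cmp_of_ne hGe, cmp_of_ne hFe, hGC.eq_of_ne hGe, hFC.eq_of_ne hFe]
            have h5 : Fc F (cmp G F) := by rw [hGF]; exact fc_cmp F G
            have h6 : Fc (cmp G F) C := by
              intro e
              by_cases hGe : G e = 0
              · rw [cmp_of_zero hGe]; exact hFC e
              · rw [cmp_of_ne hGe]; exact hGC e
            have h7 : cmp G F = F := by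
              by_contra hne
              obtain ⟨e, he1, he2⟩ := h2 _ h4 h5 h6 hne
              have hGe : G e = 0 := by
                by_contra h; exact he1 ((h3 e).1 h)
              rw [cmp_of_zero hGe] at he2
              exact he1 (h1 e he2)
            have h8 : Fc G F := by rw [← h7]; exact fc_cmp G F
            obtain ⟨e, he1, he2⟩ := hex
            have h9 : G e ≠ 0 := (h3 e).2 he2
            exact h9 (h8.zero he1)
          obtain ⟨e, he1, he2⟩ := hex
          have h9 : G e ≠ 0 := (h3 e).2 he2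
          by_cases hGF : G = F
          · rw [hGF] at h9; exact h9 he1
          · obtain ⟨e', he1', he2'⟩ := h2 G hG hFG hGC hGF
            exact he1' ((h3 e').1 he2')
      · push Not at hex
        have hmF : ∀ e, F e ≠ 0 ↔ m e = 0 := by
          intro e
          exact ⟨h1 e, fun h h' => hex e h' h⟩
        rw [Rk_face hm hF hFC hmF]
        apply homIs_shift hF hC hFC' hmF
        apply ih (∑ e, (m e - 1)) _ _ _ (anti_Ch hF hC) rfl
        rw [← hn]
        apply Finset.sum_lt_sum
        · intro e _; exact Nat.sub_le _ _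
        · obtain ⟨e, he⟩ : ∃ e, m e ≠ 0 := by
            by_contra hcon
            push Not at hcon
            exact hm (funext hcon)
          exact ⟨e, Finset.mem_univ e, by omega⟩

end OM

end Pool.Agent.T6.H82.MA
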