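import Mathlib
import Pool.Agent.T6.H82.MA.Main2

/-!
# Euler relations and the count of faces
-/

set_option autoImplicit false

namespace Pool.Agent.T6.H82.MA

variable {E : Type*} [Fintype E] [DecidableEq E]

namespace OM

variable (M : OM E)

open Classical in
/-- the faces `F` of `C` containing `B` such that `F ∘ z = C`, including `C` itself -/
noncomputable def Vp (B C z : Cov E) : Finset (Cov E) :=
  Finset.univ.filter fun F => F ∈ M.L ∧ Fc B F ∧ Fc F C ∧ ∀ e, F e = 0 → C e ≠ 0 → z e = C e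

variable {M}

theorem mem_Vp {B C z F : Cov E} : F ∈ M.Vp B C z ↔
    F ∈ M.L ∧ Fc B F ∧ Fc F C ∧ ∀ e, F e = 0 → C e ≠ 0 → z e = C e := by
  classical
  simp [Vp]

/-- the Euler characteristic sum -/
noncomputable def eul (M : OM E) (T : Finset (Cov E)) : ℤ := ∑ F ∈ T, (-1) ^ M.rk (Z F)

theorem eul_anti {B C : Cov E} (hC : C ∈ M.L) (hBC : Fc B C) :
    eul M (M.Vp B C (anti B C)) = (-1) ^ M.rk (Z C) := by
  have : M.Vp B C (anti B C) = {C} := by
    ext F
    rw [mem_Vp, Finset.mem_singleton]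
    constructor
    · rintro ⟨_, h2, h3, h4⟩
      by_contra hne
      obtain ⟨e, h5, h6⟩ := Lt.exists_zero (F := F) (C := C) ⟨h3, hne⟩
      have := h4 e h5 h6
      rw [anti_of_zero (h2.zero h5)] at this
      exact sg_ne h6 this
    · rintro rfl
      exact ⟨hC, hBC, Fc.refl _, fun e h h' => absurd h h'⟩
  rw [this, eul, Finset.sum_singleton]

theorem eul_zero_aux (n : ℕ) : ∀ (k : ℕ) (B C z : Cov E), B ∈ M.L → C ∈ M.L → z ∈ M.L → Fc B C →
    (Z B \ Z C).card ≤ n → (∀ e, z e = 0 ↔ C e = 0) → Fc B z → z ≠ anti B C →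
    (Finset.univ.filter (fun e => z e = C e)).card ≤ k → eul M (M.Vp B C z) = 0 := by
  induction n with
  | zero =>
    intro k B C z hB hC hz hBC hn h0 hBz hne
    exfalso
    obtain ⟨G, S⟩ := M.exists_step hB hC hz hBC h0 hBz hne
    obtain ⟨e, h1, h2⟩ := S.exists_D
    have : e ∈ Z B \ Z C := by
      rw [Finset.mem_sdiff, mem_Z, mem_Z]; exact ⟨(S.hD e h1 h2).1, S.Ce_ne h2⟩
    have := Finset.card_pos.2 ⟨e, this⟩
    omega
  | succ n ihn =>
    intro k
    induction k with
    | zero =>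
      intro B C z hB hC hz hBC _ h0 hBz hne hk
      exfalso
      obtain ⟨G, S⟩ := M.exists_step hB hC hz hBC h0 hBz hne
      obtain ⟨e, h1, h2⟩ := S.exists_D
      have : e ∈ Finset.univ.filter (fun e => z e = C e) := by
        simpa using (S.hD e h1 h2).2
      have := Finset.card_pos.2 ⟨e, this⟩
      omega
    | succ k ihk =>
      intro B C z hB hC hz hBC hn h0 hBz hne hk
      classical
      obtain ⟨G, S⟩ := M.exists_step hB hC hz hBC h0 hBz hne
      obtain ⟨e₀, he₀1, he₀2⟩ := S.exists_D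
      -- the two parts
      have hmem : ∀ F, F ∈ M.Vp B C (Step.nx z G) ↔
          F ∈ M.Vp B C z ∧ ∀ e, G e = 0 → z e ≠ 0 → F e ≠ 0 := by
        intro F
        by_cases hFC : F = C
        · subst hFC
          rw [mem_Vp, mem_Vp]
          constructor
          · rintro _
            exact ⟨⟨hC, hBC, Fc.refl _, fun e h h' => absurd h h'⟩, fun e _ h2 => S.Ce_ne h2⟩
          · intro _
            exact ⟨hC, hBC, Fc.refl _, fun e h h' => absurd h h'⟩
        · have e1 : F ∈ M.Vp B C (Step.nx z G) ↔ F ∈ M.V B C (Step.nx z G) := by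
            rw [mem_Vp]
            exact ⟨fun h => ⟨h.1, h.2.1, ⟨h.2.2.1, hFC⟩, h.2.2.2⟩,
              fun h => ⟨h.1, h.2.1, h.2.2.1.1, h.2.2.2⟩⟩
          have e2 : F ∈ M.Vp B C z ↔ F ∈ M.V B C z := by
            rw [mem_Vp]
            exact ⟨fun h => ⟨h.1, h.2.1, ⟨h.2.2.1, hFC⟩, h.2.2.2⟩,
              fun h => ⟨h.1, h.2.1, h.2.2.1.1, h.2.2.2⟩⟩
          rw [e1, e2, S.mem_V_nx]
      have hsum : eul M (M.Vp B C z) = eul M (M.Vp B C (Step.nx z G))
          + eul M ((M.Vp B C z).filter fun F => ∃ e, G e = 0 ∧ z e ≠ 0 ∧ F e = 0) := by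
        have h1 : M.Vp B C (Step.nx z G)
            = (M.Vp B C z).filter fun F => ¬ ∃ e, G e = 0 ∧ z e ≠ 0 ∧ F e = 0 := by
          ext F
          rw [hmem, Finset.mem_filter]
          push Not
          rfl
        rw [h1, eul, eul, eul, add_comm, Finset.sum_filter_add_sum_filter_not]
      have hR : Step.Hf C G ∈ M.L →
          ((M.Vp B C z).filter fun F => ∃ e, G e = 0 ∧ z e ≠ 0 ∧ F e = 0)
            = M.Vp B (Step.Hf C G) G := by
        intro hH
        ext F
        rw [Finset.mem_filter, mem_Vp, mem_Vp]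
        constructor
        · rintro ⟨⟨h1, h2, h3, h4⟩, e, h5, h6, h7⟩
          have hFC : F ≠ C := fun h => S.Ce_ne h6 (h ▸ h7)
          have h8 := (S.Hf_mem_of (F := F) ⟨h1, h2, ⟨h3, hFC⟩, h4⟩ h5 h6 h7).2
          refine ⟨h1, h2, h8, ?_⟩
          intro x hx hHx
          have hG : G x ≠ 0 := fun h => hHx (Step.Hf_of_zero h)
          rw [Step.Hf_of_ne hG] at hHx ⊢
          rw [S.hGz.1.eq_of_ne hG]
          exact h4 x hx hHx
        · rintro ⟨h1, h2, h3, h4⟩
          refine ⟨⟨h1, h2, h3.trans (Step.fc_Hf C G), ?_⟩, e₀, he₀1, he₀2,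
            h3.zero (Step.Hf_of_zero he₀1)⟩
          intro x hx hCx
          by_cases hG : G x = 0
          · exact (S.hD x hG (S.ze_ne hCx)).2
          · have := h4 x hx (by rw [Step.Hf_of_ne hG]; exact hCx)
            rw [Step.Hf_of_ne hG, S.hGz.1.eq_of_ne hG] at this
            exact this
      have hcardH : (Z B \ Z (Step.Hf C G)).card ≤ n := by
        have hlt : (Z B \ Z (Step.Hf C G)).card < (Z B \ Z C).card := by
          apply Finset.card_lt_card
          rw [Finset.ssubset_iff_of_subset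
            (Finset.sdiff_subset_sdiff (Finset.Subset.refl _) S.lt_Hf.1.Z_subset)]
          refine ⟨e₀, ?_, ?_⟩
          · rw [Finset.mem_sdiff, mem_Z, mem_Z]
            exact ⟨(S.hD e₀ he₀1 he₀2).1, S.Ce_ne he₀2⟩
          · rw [Finset.mem_sdiff, mem_Z, mem_Z]
            exact fun h => h.2 (Step.Hf_of_zero he₀1)
        omega
      by_cases hanti : Step.nx z G = anti B C
      · have hH := S.Hf_mem_of_anti hanti
        have hGa := (S.nx_eq_anti_iff hH).2 hanti
        rw [hsum, hR hH, hanti, eul_anti hC hBC]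
        have h1 : eul M (M.Vp B (Step.Hf C G) G) = (-1) ^ M.rk (Z (Step.Hf C G)) := by
          conv_lhs => rw [hGa]
          -- `G` occurs inside `Hf C G`, so rewrite back
          rw [← hGa]
          have h2 := eul_anti (M := M) hH S.fc_B_Hf
          rw [← hGa] at h2
          exact h2
        have h2 : M.rk (Z (Step.Hf C G)) = M.rk (Z C) + 1 := by
          rw [S.Z_Hf]
          have hZ : Z z = Z C := by ext e; rw [mem_Z, mem_Z, h0]
          rw [← hZ]
          exact M.rk_cover hz S.hG S.hGz.Z_ssubset S.hcov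
        rw [h1, h2, pow_succ]
        ring
      · have hlt : (Finset.univ.filter (fun e => Step.nx z G e = C e)).card
            < (Finset.univ.filter (fun e => z e = C e)).card := by
          apply Finset.card_lt_card
          rw [Finset.ssubset_iff_of_subset]
          · refine ⟨e₀, by simpa using (S.hD e₀ he₀1 he₀2).2, ?_⟩
            simp only [Finset.mem_filter, Finset.mem_univ, true_and]
            rw [Step.nx_of_zero he₀1, ← (S.hD e₀ he₀1 he₀2).2]
            exact sg_ne he₀2
          · intro y hy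
            simp only [Finset.mem_filter, Finset.mem_univ, true_and] at hy ⊢
            by_cases hG : G y = 0
            · by_cases hzy : z y = 0
              · rw [hzy, (h0 y).1 hzy]
              · exact (S.hD y hG hzy).2
            · rw [Step.nx_of_ne hG, S.hGz.1.eq_of_ne hG] at hy
              exact hy
        have h1 : eul M (M.Vp B C (Step.nx z G)) = 0 :=
          ihk B C _ hB hC S.nx_mem hBC hn S.nx_zero S.fc_nx hanti (by omega)
        rw [hsum, h1, zero_add]
        by_cases hH : Step.Hf C G ∈ M.L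
        · rw [hR hH]
          apply ihn _ B _ G hB hH S.hG S.fc_B_Hf hcardH _ S.hBG _ le_rfl
          · intro e; rw [S.Hf_zero_iff]
          · rw [Ne, S.nx_eq_anti_iff hH]; exact hanti
        · rw [Finset.filter_false_of_mem, eul, Finset.sum_empty]
          rintro F hF ⟨e, h5, h6, h7⟩
          rw [mem_Vp] at hF
          have hFC : F ≠ C := fun h => S.Ce_ne h6 (h ▸ h7)
          exact hH (S.Hf_mem_of (F := F) ⟨hF.1, hF.2.1, ⟨hF.2.2.1, hFC⟩, hF.2.2.2⟩ h5 h6 h7).1

theorem eul_Vp {B C z : Cov E} (hB : B ∈ M.L) (hC : C ∈ M.L) (hz : z ∈ M.L) (hBC : Fc B C)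
    (h0 : ∀ e, z e = 0 ↔ C e = 0) (hBz : Fc B z) :
    eul M (M.Vp B C z) = if z = anti B C then (-1) ^ M.rk (Z C) else 0 := by
  split_ifs with h
  · rw [h]; exact eul_anti hC hBC
  · exact eul_zero_aux _ _ B C z hB hC hz hBC le_rfl h0 hBz h le_rfl

theorem anti_anti {B C : Cov E} (h : Fc B C) : anti B (anti B C) = C := by
  funext e
  by_cases hB : B e = 0
  · rw [anti_of_zero hB, anti_of_zero hB, sg_neg_neg]
  · rw [anti_of_ne hB, h.eq_of_ne hB]

open Classical in
/-- the Euler relation for the star of `B` in a flat -/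
theorem euler_rel {B C₀ : Cov E} (hB : B ∈ M.L) (hC₀ : C₀ ∈ M.L) (hsub : Z C₀ ⊆ Z B) :
    eul M (Finset.univ.filter fun F => F ∈ M.L ∧ Fc B F ∧ Z C₀ ⊆ Z F) = (-1) ^ M.rk (Z C₀) := by
  set z : Cov E := cmp B C₀ with hz
  have hzL : z ∈ M.L := M.cmp_mem hB hC₀
  have hZz : Z z = Z C₀ := by rw [hz, Z_cmp, Finset.inter_eq_right.2 hsub]
  have hBz : Fc B z := fc_cmp _ _
  set T := Finset.univ.filter fun F : Cov E => F ∈ M.L ∧ Fc B F ∧ Z C₀ ⊆ Z F with hT
  set K := Finset.univ.filter fun C : Cov E => C ∈ M.L ∧ Fc B C ∧ Z C = Z C₀ with hK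
  have hmaps : ∀ F ∈ T, cmp F z ∈ K := by
    intro F hF
    simp only [hT, Finset.mem_filter, Finset.mem_univ, true_and] at hF
    simp only [hK, Finset.mem_filter, Finset.mem_univ, true_and]
    refine ⟨M.cmp_mem hF.1 hzL, hF.2.1.trans (fc_cmp _ _), ?_⟩
    rw [Z_cmp, hZz, Finset.inter_eq_right.2 hF.2.2]
  rw [eul, ← Finset.sum_fiberwise_of_maps_to hmaps]
  have hfib : ∀ C ∈ K, (∑ F ∈ T with cmp F z = C, (-1 : ℤ) ^ M.rk (Z F))
      = if z = anti B C then (-1) ^ M.rk (Z C₀) else 0 := by
    intro C hC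
    simp only [hK, Finset.mem_filter, Finset.mem_univ, true_and] at hC
    have h0 : ∀ e, z e = 0 ↔ C e = 0 := by
      intro e; rw [← mem_Z, ← mem_Z, hZz, hC.2.2]
    have h1 : (T.filter fun F => cmp F z = C) = M.Vp B C z := by
      ext F
      rw [Finset.mem_filter, mem_Vp]
      simp only [hT, Finset.mem_filter, Finset.mem_univ, true_and]
      constructor
      · rintro ⟨⟨h2, h3, h4⟩, rfl⟩
        refine ⟨h2, h3, fc_cmp _ _, ?_⟩
        intro e he _
        rw [cmp_of_zero he]
      · rintro ⟨h2, h3, h4, h5⟩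
        refine ⟨⟨h2, h3, ?_⟩, ?_⟩
        · rw [← hC.2.2]; exact h4.Z_subset
        · funext e
          by_cases he : F e = 0
          · rw [cmp_of_zero he]
            by_cases hCe : C e = 0
            · rw [hCe, h0, hCe]
            · exact h5 e he hCe
          · rw [cmp_of_ne he, h4.eq_of_ne he]
    rw [h1]
    have h2 := eul_Vp hB hC.1 hzL hC.2.1 h0 hBz
    rw [eul] at h2
    rw [h2, hC.2.2]
  rw [Finset.sum_congr rfl hfib, Finset.sum_eq_single (anti B z)]
  · rw [if_pos (anti_anti hBz).symm]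
  · intro C hC hne
    rw [if_neg]
    rintro h
    apply hne
    simp only [hK, Finset.mem_filter, Finset.mem_univ, true_and] at hC
    rw [h, anti_anti hC.2.1]
  · intro h
    exfalso
    apply h
    simp only [hK, Finset.mem_filter, Finset.mem_univ, true_and]
    refine ⟨anti_mem hB hzL, fc_anti _ _, ?_⟩
    ext e
    rw [mem_Z, anti_zero_iff hBz, ← mem_Z, hZz]

end OM

end Pool.Agent.T6.H82.MA
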