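import Mathlib
import Pool.Agent.T6.H82.MA.Count

/-!
# Lattice invariance of the ranks
-/

set_option autoImplicit false

namespace Pool.Agent.T6.H82.MA

theorem iterate_shift (r : ℕ) (f : ℕ → ℕ) (k : ℕ) :
    (shift^[r] f) k = if r ≤ k then f (k - r) else 0 := by
  induction r generalizing k with
  | zero => simp
  | succ r ih =>
    rw [Function.iterate_succ_apply']
    cases k with
    | zero => simp [shift]
    | succ k =>
      show (shift^[r] f) k = _
      rw [ih]
      by_cases h : r ≤ k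
      · rw [if_pos h, if_pos (by omega)]
        congr 1
        omega
      · rw [if_neg h, if_neg (by omega)]

variable {E : Type*} [Fintype E] [DecidableEq E]

namespace OM

open Classical in
/-- the covectors above `B` -/
noncomputable def up (M : OM E) (B : Cov E) : Finset (Cov E) :=
  Finset.univ.filter fun F => F ∈ M.L ∧ Fc B F

theorem mem_up {M : OM E} {B F : Cov E} : F ∈ M.up B ↔ F ∈ M.L ∧ Fc B F := by
  classical
  simp [up]

/-- the number of covectors above `B` with a given zero set -/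
noncomputable def cc (M : OM E) (B : Cov E) (S : Finset E) : ℕ :=
  ((M.up B).filter fun F => Z F = S).card

theorem cc_eq_zero {M : OM E} {B : Cov E} {S : Finset E} (h : ¬ S ⊆ Z B) : M.cc B S = 0 := by
  rw [cc, Finset.card_eq_zero, Finset.filter_eq_empty_iff]
  rintro F hF rfl
  exact h (mem_up.1 hF).2.Z_subset

/-- the zero sets -/
def ZS (M : OM E) : Set (Finset E) := {S | ∃ F ∈ M.L, Z F = S}

open Classical in
/-- the zero sets as a finite set -/
noncomputable def zs (M : OM E) : Finset (Finset E) := Finset.univ.filter fun S => S ∈ M.ZS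

theorem mem_zs {M : OM E} {S : Finset E} : S ∈ M.zs ↔ S ∈ M.ZS := by
  classical
  simp [zs]

theorem sum_cc {M : OM E} {B : Cov E} (hB : B ∈ M.L) {S₀ : Finset E} (hS₀ : S₀ ∈ M.ZS)
    (hsub : S₀ ⊆ Z B) :
    ∑ S ∈ M.zs.filter (fun S => S₀ ⊆ S), (-1 : ℤ) ^ M.rk S * M.cc B S = (-1) ^ M.rk S₀ := by
  classical
  obtain ⟨C₀, hC₀, rfl⟩ := hS₀
  rw [← euler_rel hB hC₀ hsub, eul]
  have hmaps : ∀ F ∈ Finset.univ.filter (fun F : Cov E => F ∈ M.L ∧ Fc B F ∧ Z C₀ ⊆ Z F),
      Z F ∈ M.zs.filter (fun S => Z C₀ ⊆ S) := by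
    intro F hF
    simp only [Finset.mem_filter, Finset.mem_univ, true_and] at hF
    rw [Finset.mem_filter, mem_zs]
    exact ⟨⟨F, hF.1, rfl⟩, hF.2.2⟩
  rw [← Finset.sum_fiberwise_of_maps_to hmaps]
  apply Finset.sum_congr rfl
  intro S hS
  rw [Finset.mem_filter] at hS
  have h1 : ((Finset.univ.filter fun F : Cov E => F ∈ M.L ∧ Fc B F ∧ Z C₀ ⊆ Z F).filter
      fun F => Z F = S) = (M.up B).filter fun F => Z F = S := by
    ext F
    simp only [Finset.mem_filter, Finset.mem_univ, true_and, mem_up]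
    constructor
    · rintro ⟨⟨h1, h2, _⟩, h3⟩; exact ⟨⟨h1, h2⟩, h3⟩
    · rintro ⟨⟨h1, h2⟩, h3⟩; exact ⟨⟨h1, h2, h3 ▸ hS.2⟩, h3⟩
  rw [h1, cc, Finset.card_eq_sum_ones, Nat.cast_sum, Finset.mul_sum]
  apply Finset.sum_congr rfl
  intro F hF
  rw [Finset.mem_filter] at hF
  rw [hF.2]
  simp

theorem sum_cc_split (M : OM E) (B : Cov E) {S₀ : Finset E} (hS₀ : S₀ ∈ M.ZS) :
    ∑ S ∈ M.zs.filter (fun S => S₀ ⊆ S), (-1 : ℤ) ^ M.rk S * M.cc B S
      = (-1) ^ M.rk S₀ * M.cc B S₀
        + ∑ S ∈ M.zs.filter (fun S => S₀ ⊂ S), (-1 : ℤ) ^ M.rk S * M.cc B S := by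
  classical
  have : M.zs.filter (fun S => S₀ ⊆ S) = insert S₀ (M.zs.filter (fun S => S₀ ⊂ S)) := by
    ext S
    simp only [Finset.mem_filter, Finset.mem_insert]
    constructor
    · rintro ⟨h1, h2⟩
      by_cases h : S = S₀
      · exact Or.inl h
      · exact Or.inr ⟨h1, lt_of_le_of_ne h2 (Ne.symm h)⟩
    · rintro (rfl | ⟨h1, h2⟩)
      · exact ⟨mem_zs.2 hS₀, Finset.Subset.refl _⟩
      · exact ⟨h1, h2.1⟩
  rw [this, Finset.sum_insert]
  simp

/-- A correspondence of the zero sets of two oriented matroids. -/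
structure ZIso {E E' : Type*} [Fintype E] [DecidableEq E] [Fintype E'] [DecidableEq E']
    (M : OM E) (M' : OM E') where
  /-- the bijection -/
  φ : Finset E → Finset E'
  /-- its inverse -/
  ψ : Finset E' → Finset E
  hφ : ∀ S ∈ M.ZS, φ S ∈ M'.ZS
  hψ : ∀ S ∈ M'.ZS, ψ S ∈ M.ZS
  hl : ∀ S ∈ M.ZS, ψ (φ S) = S
  hr : ∀ S ∈ M'.ZS, φ (ψ S) = S
  hle : ∀ S ∈ M.ZS, ∀ T ∈ M.ZS, S ⊆ T ↔ φ S ⊆ φ T
  hrk : ∀ S ∈ M.ZS, M'.rk (φ S) = M.rk S
  hcard : ∀ S ∈ M.ZS, (φ S).card = S.card

section iso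

variable {E' : Type*} [Fintype E'] [DecidableEq E'] {M : OM E} {M' : OM E'} (I : ZIso M M')

include I

theorem cc_iso : ∀ (n : ℕ) (B : Cov E) (B' : Cov E') (S₀ : Finset E), B ∈ M.L → B' ∈ M'.L →
    Z B' = I.φ (Z B) → S₀ ∈ M.ZS → (M.zs.filter fun S => S₀ ⊂ S).card = n →
    M.cc B S₀ = M'.cc B' (I.φ S₀) := by
  classical
  intro n
  induction n using Nat.strong_induction_on with
  | _ n ih =>
    intro B B' S₀ hB hB' hBB' hS₀ hn
    have hZB : Z B ∈ M.ZS := ⟨B, hB, rfl⟩
    by_cases hsub : S₀ ⊆ Z B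
    · have hsub' : I.φ S₀ ⊆ Z B' := by rw [hBB']; exact (I.hle _ hS₀ _ hZB).1 hsub
      have h1 := sum_cc hB hS₀ hsub
      have h2 := sum_cc hB' (I.hφ _ hS₀) hsub'
      rw [I.hrk _ hS₀] at h2
      rw [sum_cc_split M B hS₀] at h1
      rw [sum_cc_split M' B' (I.hφ _ hS₀), I.hrk _ hS₀] at h2
      have h3 : ∑ S ∈ M.zs.filter (fun S => S₀ ⊂ S), (-1 : ℤ) ^ M.rk S * M.cc B S
          = ∑ S ∈ M'.zs.filter (fun S => I.φ S₀ ⊂ S), (-1 : ℤ) ^ M'.rk S * M'.cc B' S := by
        refine Finset.sum_bij' (fun S _ => I.φ S) (fun S _ => I.ψ S) ?_ ?_ ?_ ?_ ?_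
        · intro S hS
          rw [Finset.mem_filter, mem_zs] at hS ⊢
          refine ⟨I.hφ _ hS.1, ?_⟩
          rw [Finset.ssubset_def, ← I.hle _ hS₀ _ hS.1, ← I.hle _ hS.1 _ hS₀]
          exact Finset.ssubset_def.1 hS.2
        · intro S hS
          rw [Finset.mem_filter, mem_zs] at hS ⊢
          refine ⟨I.hψ _ hS.1, ?_⟩
          rw [Finset.ssubset_def, I.hle _ hS₀ _ (I.hψ _ hS.1), I.hle _ (I.hψ _ hS.1) _ hS₀,
            I.hr _ hS.1]
          exact Finset.ssubset_def.1 hS.2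
        · intro S hS
          rw [Finset.mem_filter, mem_zs] at hS
          exact I.hl _ hS.1
        · intro S hS
          rw [Finset.mem_filter, mem_zs] at hS
          exact I.hr _ hS.1
        · intro S hS
          rw [Finset.mem_filter, mem_zs] at hS
          have h4 : (M.zs.filter fun T => S ⊂ T).card < n := by
            rw [← hn]
            apply Finset.card_lt_card
            rw [Finset.ssubset_iff_of_subset]
            · exact ⟨S, Finset.mem_filter.2 ⟨mem_zs.2 hS.1, hS.2⟩, fun h =>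
                (Finset.mem_filter.1 h).2.2 (Finset.Subset.refl _)⟩
            · intro T hT
              rw [Finset.mem_filter] at hT ⊢
              exact ⟨hT.1, hS.2.trans hT.2⟩
          rw [I.hrk _ hS.1, ih _ h4 B B' S hB hB' hBB' hS.1 rfl]
      rw [h3] at h1
      have h4 : (-1 : ℤ) ^ M.rk S₀ * M.cc B S₀ = (-1) ^ M.rk S₀ * M'.cc B' (I.φ S₀) := by
        linarith
      have h5 : (M.cc B S₀ : ℤ) = M'.cc B' (I.φ S₀) := by
        have h6 : ((-1 : ℤ) ^ M.rk S₀) ≠ 0 := pow_ne_zero _ (by norm_num)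
        exact mul_left_cancel₀ h6 h4
      exact_mod_cast h5
    · rw [cc_eq_zero hsub, cc_eq_zero]
      rw [hBB', ← I.hle _ hS₀ _ hZB]
      exact hsub

/-- Two sums over the covectors above `B` and `B'` agree if the summands only depend on the zero
sets, in a compatible way. -/
theorem sum_up_iso {B : Cov E} {B' : Cov E'} (hB : B ∈ M.L) (hB' : B' ∈ M'.L)
    (hBB' : Z B' = I.φ (Z B)) (g : Cov E → ℕ) (g' : Cov E' → ℕ)
    (hg : ∀ F ∈ M.L, ∀ F' ∈ M'.L, Z F' = I.φ (Z F) → g F = g' F') :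
    ∑ F ∈ M.up B, g F = ∑ F ∈ M'.up B', g' F := by
  classical
  have hmaps : ∀ F ∈ M.up B, Z F ∈ M.zs := fun F hF => mem_zs.2 ⟨F, (mem_up.1 hF).1, rfl⟩
  have hmaps' : ∀ F ∈ M'.up B', Z F ∈ M'.zs := fun F hF => mem_zs.2 ⟨F, (mem_up.1 hF).1, rfl⟩
  rw [← Finset.sum_fiberwise_of_maps_to hmaps, ← Finset.sum_fiberwise_of_maps_to hmaps']
  refine Finset.sum_bij' (fun S _ => I.φ S) (fun S _ => I.ψ S) ?_ ?_ ?_ ?_ ?_
  · intro S hS; rw [mem_zs] at hS ⊢; exact I.hφ _ hS
  · intro S hS; rw [mem_zs] at hS ⊢; exact I.hψ _ hS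
  · intro S hS; rw [mem_zs] at hS; exact I.hl _ hS
  · intro S hS; rw [mem_zs] at hS; exact I.hr _ hS
  · intro S hS
    rw [mem_zs] at hS
    have hcard : ((M.up B).filter fun F => Z F = S).card
        = ((M'.up B').filter fun F => Z F = I.φ S).card :=
      cc_iso I _ B B' S hB hB' hBB' hS rfl
    have hval : ∀ F ∈ (M.up B).filter (fun F => Z F = S),
        ∀ F' ∈ (M'.up B').filter (fun F => Z F = I.φ S), g F = g' F' := by
      intro F hF F' hF'
      rw [Finset.mem_filter, mem_up] at hF hF'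
      exact hg F hF.1.1 F' hF'.1.1 (by rw [hF'.2, hF.2])
    rcases ((M.up B).filter fun F => Z F = S).eq_empty_or_nonempty with h | ⟨F₀, hF₀⟩
    · rw [h, Finset.card_empty] at hcard
      have h' := Finset.card_eq_zero.1 hcard.symm
      rw [h, h']
      rfl
    · have hne' : ((M'.up B').filter fun F => Z F = I.φ S).Nonempty := by
        rw [← Finset.card_pos, ← hcard, Finset.card_pos]; exact ⟨F₀, hF₀⟩
      obtain ⟨F₀', hF₀'⟩ := hne'
      rw [Finset.sum_congr rfl (fun F hF => hval F hF F₀' hF₀'),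
        Finset.sum_congr rfl (fun F' hF' => (hval F₀ hF₀ F' hF').symm),
        Finset.sum_const, Finset.sum_const, hcard, hval F₀ hF₀ F₀' hF₀']

end iso

/-- the chambers above `B` -/
noncomputable def upc (M : OM E) (B : Cov E) : Finset (Cov E) :=
  (M.up B).filter fun F => Z F = ∅

theorem mem_upc {M : OM E} {B C : Cov E} : C ∈ M.upc B ↔ C ∈ M.Ch ∧ Fc B C := by
  rw [upc, Finset.mem_filter, mem_up]
  constructor
  · rintro ⟨⟨h1, h2⟩, h3⟩
    refine ⟨⟨h1, fun e he => ?_⟩, h2⟩
    have : e ∈ Z C := mem_Z.2 he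
    rw [h3] at this
    exact absurd this (Finset.notMem_empty e)
  · rintro ⟨h1, h2⟩
    exact ⟨⟨h1.1, h2⟩, Z_chamber h1⟩

/-- total rank of the homology of the tuples in the star of `B` of total degree `ℓ` -/
noncomputable def T (M : OM E) (B : Cov E) (ℓ k : ℕ) : ℕ :=
  ∑ C ∈ M.upc B, ∑ m ∈ Finset.piAntidiag (Z B) ℓ, Rk M C m k

theorem T_zero (M : OM E) (B : Cov E) (k : ℕ) :
    M.T B 0 k = ∑ F ∈ M.up B, if Z F = ∅ then (if k = 0 then 1 else 0) else 0 := by
  rw [T, upc, Finset.sum_filter]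
  apply Finset.sum_congr rfl
  intro C _
  split_ifs with h1 h2
  · rw [Finset.piAntidiag_zero, Finset.sum_singleton, Rk_zero]
    show (if k = 0 then 1 else 0) = 1
    rw [if_pos h2]
  · rw [Finset.piAntidiag_zero, Finset.sum_singleton, Rk_zero]
    show (if k = 0 then 1 else 0) = 0
    rw [if_neg h2]
  · rfl

/-- the recursion for `T` -/
theorem T_pos {M : OM E} {B : Cov E} (hB : B ∈ M.L) {ℓ : ℕ} (hℓ : 0 < ℓ) (k : ℕ) :
    M.T B ℓ k = ∑ F ∈ M.up B, if Z F ≠ ∅ ∧ (Z F).card ≤ ℓ ∧ M.rk (Z F) ≤ k then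
      M.T F (ℓ - (Z F).card) (k - M.rk (Z F)) else 0 := by
  classical
  -- the sum over the multidegrees for a fixed chamber
  have key : ∀ C ∈ M.upc B, ∑ m ∈ Finset.piAntidiag (Z B) ℓ, Rk M C m k
      = ∑ F ∈ M.up B, if Fc F C ∧ Z F ≠ ∅ ∧ (Z F).card ≤ ℓ ∧ M.rk (Z F) ≤ k then
        ∑ m ∈ Finset.piAntidiag (Z F) (ℓ - (Z F).card), Rk M (anti F C) m (k - M.rk (Z F))
        else 0 := by
    intro C hC
    rw [mem_upc] at hC
    obtain ⟨hC, hBC⟩ := hC
    -- insert the face
    have h1 : ∀ m ∈ Finset.piAntidiag (Z B) ℓ, Rk M C m k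
        = ∑ F ∈ M.up B, if Fc F C ∧ (∀ e, F e ≠ 0 ↔ m e = 0) ∧ M.rk (Z F) ≤ k then
          Rk M (anti F C) (fun e => m e - 1) (k - M.rk (Z F)) else 0 := by
      intro m hm
      rw [Finset.mem_piAntidiag] at hm
      have hm0 : m ≠ 0 := by
        rintro rfl
        have := hm.1
        simp at this
        omega
      by_cases hex : ∃ F, F ∈ M.L ∧ Fc F C ∧ ∀ e, F e ≠ 0 ↔ m e = 0
      · obtain ⟨F, hF, hFC, hFm⟩ := hex
        have hBF : Fc B F := by
          apply fc_of_zeros hFC hBC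
          intro e he
          have h2 : m e ≠ 0 := fun h => (hFm e).2 h he
          exact mem_Z.1 (hm.2 e h2)
        rw [Finset.sum_eq_single F]
        · rw [Rk_face hm0 hF hFC hFm, iterate_shift]
          by_cases hk : M.rk (Z F) ≤ k
          · rw [if_pos hk, if_pos ⟨hFC, hFm, hk⟩]
          · rw [if_neg hk, if_neg (fun h => hk h.2.2)]
        · intro F' hF' hne
          rw [if_neg]
          rintro ⟨h2, h3, _⟩
          apply hne
          apply eq_of_zeros h2 hFC
          intro e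
          rw [← not_iff_not]
          exact (h3 e).trans (hFm e).symm
        · intro h
          exact absurd (mem_up.2 ⟨hF, hBF⟩) h
      · rw [Rk_none hm0 hex]
        symm
        apply Finset.sum_eq_zero
        intro F hF
        rw [if_neg]
        rintro ⟨h2, h3, _⟩
        exact hex ⟨F, (mem_up.1 hF).1, h2, h3⟩
    rw [Finset.sum_congr rfl h1, Finset.sum_comm]
    apply Finset.sum_congr rfl
    intro F hF
    rw [mem_up] at hF
    by_cases hcond : Fc F C ∧ Z F ≠ ∅ ∧ (Z F).card ≤ ℓ ∧ M.rk (Z F) ≤ k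
    · rw [if_pos hcond]
      obtain ⟨hFC, hne, hcard, hk⟩ := hcond
      have hsubB : Z F ⊆ Z B := hF.2.Z_subset
      rw [← Finset.sum_filter]
      refine Finset.sum_bij' (fun m _ => fun e => m e - 1)
        (fun m _ => fun e => if e ∈ Z F then m e + 1 else 0) ?_ ?_ ?_ ?_ ?_
      · intro m hm
        rw [Finset.mem_filter, Finset.mem_piAntidiag] at hm
        obtain ⟨⟨h2, h3⟩, _, h4, _⟩ := hm
        have hsupp : ∀ e, e ∈ Z F ↔ m e ≠ 0 := by
          intro e
          rw [mem_Z, ← not_iff_not, not_not]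
          exact h4 e
        rw [Finset.mem_piAntidiag]
        constructor
        · have h5 : ∑ e ∈ Z F, m e = ℓ := by
            rw [← h2]
            apply Finset.sum_subset hsubB
            intro e _ he
            by_contra h
            exact he ((hsupp e).2 h)
          have h6 : ∑ e ∈ Z F, (m e - 1) + ∑ e ∈ Z F, 1 = ∑ e ∈ Z F, m e := by
            rw [← Finset.sum_add_distrib]
            apply Finset.sum_congr rfl
            intro e he
            have := (hsupp e).1 he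
            omega
          rw [h5, Finset.sum_const, smul_eq_mul, mul_one] at h6
          omega
        · intro e he
          rw [hsupp]
          omega
      · intro m hm
        rw [Finset.mem_piAntidiag] at hm
        rw [Finset.mem_filter, Finset.mem_piAntidiag]
        refine ⟨⟨?_, ?_⟩, hFC, ?_, hk⟩
        · rw [← Finset.sum_filter, Finset.filter_mem_eq_inter, Finset.inter_eq_right.2 hsubB,
            Finset.sum_add_distrib, hm.1, Finset.sum_const, smul_eq_mul, mul_one]
          omega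
        · intro e he
          by_contra h
          rw [if_neg (fun h' => h (hsubB h'))] at he
          exact he rfl
        · intro e
          by_cases he : e ∈ Z F
          · simp [he, mem_Z.1 he]
          · have : F e ≠ 0 := fun h => he (mem_Z.2 h)
            simp [he, this]
      · intro m hm
        rw [Finset.mem_filter, Finset.mem_piAntidiag] at hm
        obtain ⟨⟨_, _⟩, _, h4, _⟩ := hm
        funext e
        by_cases he : e ∈ Z F
        · rw [if_pos he]
          have : m e ≠ 0 := by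
            intro h
            exact (h4 e).2 h (mem_Z.1 he)
          show m e - 1 + 1 = m e
          omega
        · rw [if_neg he]
          exact ((h4 e).1 (fun h => he (mem_Z.2 h))).symm
      · intro m hm
        rw [Finset.mem_piAntidiag] at hm
        funext e
        by_cases he : e ∈ Z F
        · simp [he]
        · simp only [he, if_false]
          by_contra h
          exact he (hm.2 e (fun h' => h (by simp [h'])))
      · intro m _
        rfl
    · rw [if_neg hcond]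
      apply Finset.sum_eq_zero
      intro m hm
      rw [if_neg]
      rintro ⟨h2, h3, h4⟩
      rw [Finset.mem_piAntidiag] at hm
      have hm1 : ∑ e ∈ Z B, m e = ℓ := hm.1
      apply hcond
      have hsupp : ∀ e, e ∈ Z F ↔ m e ≠ 0 := by
        intro e
        rw [mem_Z, ← not_iff_not, not_not]
        exact h3 e
      refine ⟨h2, ?_, ?_, h4⟩
      · intro h
        have h5 : ∑ e ∈ Z B, m e = 0 := by
          apply Finset.sum_eq_zero
          intro e _
          by_contra h6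
          have := (hsupp e).2 h6
          rw [h] at this
          exact absurd this (Finset.notMem_empty e)
        omega
      · have h5 : ∑ e ∈ Z F, 1 ≤ ∑ e ∈ Z F, m e := by
          apply Finset.sum_le_sum
          intro e he
          have := (hsupp e).1 he
          omega
        have h6 : ∑ e ∈ Z F, m e ≤ ∑ e ∈ Z B, m e :=
          Finset.sum_le_sum_of_subset hF.2.Z_subset
        rw [Finset.sum_const, smul_eq_mul, mul_one] at h5
        omega
  rw [T, Finset.sum_congr rfl key, Finset.sum_comm]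
  apply Finset.sum_congr rfl
  intro F hF
  rw [mem_up] at hF
  by_cases hcond : Z F ≠ ∅ ∧ (Z F).card ≤ ℓ ∧ M.rk (Z F) ≤ k
  · rw [if_pos hcond]
    have h1 : ∀ C ∈ M.upc B, (if Fc F C ∧ Z F ≠ ∅ ∧ (Z F).card ≤ ℓ ∧ M.rk (Z F) ≤ k then
        ∑ m ∈ Finset.piAntidiag (Z F) (ℓ - (Z F).card), Rk M (anti F C) m (k - M.rk (Z F))
        else 0) = if Fc F C then
        ∑ m ∈ Finset.piAntidiag (Z F) (ℓ - (Z F).card), Rk M (anti F C) m (k - M.rk (Z F))
        else 0 := by
      intro C _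
      by_cases h : Fc F C
      · rw [if_pos ⟨h, hcond⟩, if_pos h]
      · rw [if_neg (fun h' => h h'.1), if_neg h]
    rw [Finset.sum_congr rfl h1, ← Finset.sum_filter, T]
    refine Finset.sum_bij' (fun C _ => anti F C) (fun C _ => anti F C) ?_ ?_ ?_ ?_ ?_
    · intro C hC
      rw [Finset.mem_filter, mem_upc] at hC
      rw [mem_upc]
      exact ⟨anti_Ch hF.1 hC.1.1, fc_anti _ _⟩
    · intro C hC
      rw [mem_upc] at hC
      rw [Finset.mem_filter, mem_upc]
      exact ⟨⟨anti_Ch hF.1 hC.1, hF.2.trans (fc_anti _ _)⟩, fc_anti _ _⟩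
    · intro C hC
      rw [Finset.mem_filter] at hC
      exact anti_anti hC.2
    · intro C hC
      rw [mem_upc] at hC
      exact anti_anti hC.2
    · intro C _
      rfl
  · rw [if_neg hcond]
    apply Finset.sum_eq_zero
    intro C _
    rw [if_neg]
    exact fun h => hcond h.2

/-- The total ranks agree. -/
theorem T_iso {E' : Type*} [Fintype E'] [DecidableEq E'] {M : OM E} {M' : OM E'}
    (I : ZIso M M') (hempty : I.φ ∅ = ∅) (hempty' : ∀ S ∈ M.ZS, I.φ S = ∅ → S = ∅) :
    ∀ (ℓ k : ℕ) (B : Cov E) (B' : Cov E'), B ∈ M.L → B' ∈ M'.L → Z B' = I.φ (Z B) →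
      M.T B ℓ k = M'.T B' ℓ k := by
  intro ℓ
  induction ℓ using Nat.strong_induction_on with
  | _ ℓ ih =>
    intro k B B' hB hB' hBB'
    have hemp : ∀ F ∈ M.L, ∀ F' ∈ M'.L, Z F' = I.φ (Z F) → (Z F = ∅ ↔ Z F' = ∅) := by
      intro F hF F' _ h
      constructor
      · intro h'; rw [h, h', hempty]
      · intro h'; rw [h] at h'; exact hempty' _ ⟨F, hF, rfl⟩ h'
    rcases Nat.eq_zero_or_pos ℓ with rfl | hpos
    · rw [T_zero, T_zero]
      apply sum_up_iso I hB hB' hBB'
      intro F hF F' hF' h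
      by_cases h1 : Z F = ∅
      · rw [if_pos h1, if_pos ((hemp F hF F' hF' h).1 h1)]
      · rw [if_neg h1, if_neg (fun h2 => h1 ((hemp F hF F' hF' h).2 h2))]
    · rw [T_pos hB hpos, T_pos hB' hpos]
      apply sum_up_iso I hB hB' hBB'
      intro F hF F' hF' h
      have hZF : Z F ∈ M.ZS := ⟨F, hF, rfl⟩
      have h1 : M'.rk (Z F') = M.rk (Z F) := by rw [h, I.hrk _ hZF]
      have h2 : (Z F').card = (Z F).card := by rw [h, I.hcard _ hZF]
      have h3 := hemp F hF F' hF' h
      rw [h1, h2]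
      by_cases hc : Z F ≠ ∅ ∧ (Z F).card ≤ ℓ ∧ M.rk (Z F) ≤ k
      · have hc' : Z F' ≠ ∅ ∧ (Z F).card ≤ ℓ ∧ M.rk (Z F) ≤ k :=
          ⟨fun h4 => hc.1 (h3.2 h4), hc.2⟩
        rw [if_pos hc, if_pos hc']
        apply ih _ _ _ F F' hF hF' h
        have := Finset.card_pos.2 (Finset.nonempty_iff_ne_empty.2 hc.1)
        omega
      · have hc' : ¬ (Z F' ≠ ∅ ∧ (Z F).card ≤ ℓ ∧ M.rk (Z F) ≤ k) :=
          fun h4 => hc ⟨fun h5 => h4.1 (h3.1 h5), h4.2⟩
        rw [if_neg hc, if_neg hc']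

/-- all tuples of total degree `ℓ` -/
def All (M : OM E) (ℓ : ℕ) : Set (List (Cov E)) :=
  {w | ∃ C v, w = C :: v ∧ C ∈ M.Ch ∧ (∀ x ∈ v, x ∈ M.Ch) ∧ (C :: v).IsChain (· ≠ ·) ∧
    ∑ e, md C v e = ℓ}

theorem homIs_finset {α ι : Type*} [DecidableEq ι] (s : Finset ι) (X : ι → Set (List α))
    (f : ι → ℕ → ℕ) (h : ∀ i ∈ s, HomIs (X i) (f i))
    (hd : ∀ i ∈ s, ∀ j ∈ s, i ≠ j → ∀ w ∈ X i, w ∉ X j ∧ ∀ w', Del w w' → w' ∉ X j) :
    HomIs (⋃ i ∈ s, X i) (fun n => ∑ i ∈ s, f i n) := by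
  induction s using Finset.induction_on with
  | empty =>
    simp only [Finset.notMem_empty, Set.iUnion_of_empty, Set.iUnion_empty, Finset.sum_empty]
    exact homIs_of_acyc acyc_empty
  | insert a s ha ih =>
    have h1 := ih (fun i hi => h i (Finset.mem_insert_of_mem hi))
      (fun i hi j hj => hd i (Finset.mem_insert_of_mem hi) j (Finset.mem_insert_of_mem hj))
    have h2 : (⋃ i ∈ insert a s, X i) = X a ∪ ⋃ i ∈ s, X i := by
      rw [Finset.set_biUnion_insert]
    rw [h2]
    have h3 : (fun n => ∑ i ∈ insert a s, f i n) = fun n => f a n + ∑ i ∈ s, f i n := by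
      funext n; rw [Finset.sum_insert ha]
    rw [h3]
    refine homIs_union ?_ ?_ ?_ (h a (Finset.mem_insert_self _ _)) h1
    · rw [Set.disjoint_left]
      intro w hw hw'
      rw [Set.mem_iUnion₂] at hw'
      obtain ⟨i, hi, hw'⟩ := hw'
      exact (hd a (Finset.mem_insert_self _ _) i (Finset.mem_insert_of_mem hi)
        (fun h => ha (h ▸ hi)) w hw).1 hw'
    · intro w hw w' hdl hw'
      rw [Set.mem_iUnion₂] at hw'
      obtain ⟨i, hi, hw'⟩ := hw'
      exact (hd a (Finset.mem_insert_self _ _) i (Finset.mem_insert_of_mem hi)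
        (fun h => ha (h ▸ hi)) w hw).2 w' hdl hw'
    · intro w hw w' hdl hw'
      rw [Set.mem_iUnion₂] at hw
      obtain ⟨i, hi, hw⟩ := hw
      exact (hd i (Finset.mem_insert_of_mem hi) a (Finset.mem_insert_self _ _)
        (fun h => ha (h ▸ hi)) w hw).2 w' hdl hw'

/-- The homology of all tuples of total degree `ℓ`. -/
theorem homIs_All (M : OM E) (ℓ : ℕ) :
    HomIs (M.All ℓ) (shift (fun k => M.T (fun _ => 0) ℓ k)) := by
  classical
  let s : Finset (Cov E × (E → ℕ)) := M.upc (fun _ => 0) ×ˢ Finset.piAntidiag Finset.univ ℓ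
  let X : Cov E × (E → ℕ) → Set (List (Cov E)) := fun p => (List.cons p.1) '' (M.MCw p.1 p.2)
  have hs : ∀ p : Cov E × (E → ℕ), p ∈ s ↔ p.1 ∈ M.Ch ∧ ∑ e, p.2 e = ℓ := by
    intro p
    simp only [s, Finset.mem_product, mem_upc, Finset.mem_piAntidiag, Finset.mem_univ,
      implies_true, and_true]
    constructor
    · rintro ⟨⟨h1, _⟩, h2⟩; exact ⟨h1, h2⟩
    · rintro ⟨h1, h2⟩; exact ⟨⟨h1, fun _ => Or.inl rfl⟩, h2⟩
  have hU : (⋃ p ∈ s, X p) = M.All ℓ := by
    ext w
    rw [Set.mem_iUnion₂]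
    constructor
    · rintro ⟨p, hp, v, hv, rfl⟩
      rw [hs] at hp
      exact ⟨p.1, v, rfl, hp.1, hv.1, hv.2.1, by rw [hv.2.2]; exact hp.2⟩
    · rintro ⟨C, v, rfl, h1, h2, h3, h4⟩
      exact ⟨(C, md C v), (hs _).2 ⟨h1, h4⟩, v, ⟨h2, h3, rfl⟩, rfl⟩
  have h1 : ∀ p ∈ s, HomIs (X p) (shift (Rk M p.1 p.2)) := by
    intro p hp
    rw [hs] at hp
    refine homIs_cons rfl ?_ (homIs_MCw _ p.1 p.2 hp.1 rfl)
    rintro u hu ⟨v, _, rfl⟩
    exact not_cons_self hu
  have h2 := homIs_finset s X _ h1 (by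
    rintro ⟨C, m⟩ hp ⟨C', m'⟩ hp' hne _ ⟨v, hv, rfl⟩
    rw [hs] at hp hp'
    simp only at hp hp' hv
    refine ⟨?_, ?_⟩
    · rintro ⟨v', hv', h⟩
      rw [List.cons.injEq] at h
      obtain ⟨rfl, rfl⟩ := h
      apply hne
      have e1 : md C' v' = m := hv.2.2
      have e2 : md C' v' = m' := hv'.2.2
      rw [← e1, ← e2]
    · rintro w' hd ⟨v', hv', rfl⟩
      simp only at hv' hd
      rw [del_cons] at hd
      rcases hd with hd | ⟨t, hd, ht⟩
      · rw [← hd] at hv
        have h3 := hv.2.2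
        rw [md_cons] at h3
        have h4 := hv'.2.2
        rw [h4] at h3
        have h5 : ∑ e, sep C C' e + ∑ e, m' e = ∑ e, m e := by
          rw [← Finset.sum_add_distrib, ← h3]
          rfl
        have h6 : ∑ e, sep C C' e = 0 := by omega
        have h7 := hv.2.1
        rw [List.isChain_cons_cons] at h7
        apply sep_ne_zero_of_ne h7.1
        funext e
        exact (Finset.sum_eq_zero_iff.1 h6) e (Finset.mem_univ e)
      · rw [List.cons.injEq] at ht
        obtain ⟨rfl, rfl⟩ := ht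
        have h3 := md_del (C := C') hd
        rw [hv.2.2, hv'.2.2] at h3
        apply hne
        have h4 : m' = m := by
          by_contra hne'
          have h5 : ∑ e, m' e < ∑ e, m e := by
            apply Finset.sum_lt_sum
            · intro e _; exact h3 e
            · by_contra hcon
              push Not at hcon
              exact hne' (funext fun e => le_antisymm (h3 e) (hcon e (Finset.mem_univ e)))
          omega
        rw [h4])
  rw [hU] at h2
  apply h2.congr
  intro n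
  cases n with
  | zero =>
    show ∑ i ∈ s, shift _ 0 = 0
    apply Finset.sum_eq_zero
    intro i _
    rfl
  | succ n =>
    show ∑ i ∈ s, Rk M i.1 i.2 n = M.T (fun _ => 0) ℓ n
    have hZ0 : Z (fun _ => (0 : SignType) : Cov E) = Finset.univ := by
      ext e; simp [mem_Z]
    rw [T, hZ0, ← Finset.sum_product']

end OM

end Pool.Agent.T6.H82.MA
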