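import Mathlib

/-!
# Hyperplane arrangements, tope graphs, intersection lattices and magnitude homology: definitions
-/

set_option autoImplicit false

namespace Pool.Agent.T6.H82.MA

/-! ### Magnitude homology of graphs -/

section magnitude

variable {V : Type*} (G : SimpleGraph V)

/-- The length `d(x₀,x₁) + d(x₁,x₂) + ⋯ + d(x_{k-1},x_k)` of a tuple of vertices, where `d` is
the shortest-path metric of the graph. -/
noncomputable def tupleLength : List V → ℕ
  | [] => 0
  | [_] => 0
  | x :: y :: l => G.dist x y + tupleLength (y :: l)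

/-- The tuples `(x₀, …, x_k)` of vertices (written as lists with `k + 1` entries) with
`x_i ≠ x_{i+1}` for all `i` and of length `ℓ`. -/
def tuples (k ℓ : ℕ) : Set (List V) :=
  {x | x.length = k + 1 ∧ x.IsChain (· ≠ ·) ∧ tupleLength G x = ℓ}

/-- The entry `x_i` of the tuple `x` lies between its neighbours: `x_{i-1} = a`, `x_i = b`,
`x_{i+1} = c` and `d(a, c) = d(a, b) + d(b, c)`. -/
def Smooth (x : List V) (i : ℕ) : Prop :=
  ∃ (l : List V) (a b c : V) (r : List V), x = l ++ a :: b :: c :: r ∧ i = l.length + 1 ∧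
    G.dist a c = G.dist a b + G.dist b c

open Classical in
/-- The differential of the magnitude chain complex, on the free abelian group on all tuples:
`∂ x = ∑_{i=1}^{k-1} (-1)^i ∂_i x` for `x = (x₀, …, x_k)`, where `∂_i` deletes `x_i` if
`d(x_{i-1},x_{i+1}) = d(x_{i-1},x_i) + d(x_i,x_{i+1})` and is `0` otherwise. -/
noncomputable def differential : (List V →₀ ℤ) →ₗ[ℤ] (List V →₀ ℤ) :=
  Finsupp.linearCombination ℤ fun x =>
    ∑ i ∈ Finset.Ico 1 (x.length - 1),
      (-1 : ℤ) ^ i • if Smooth G x i then Finsupp.single (x.eraseIdx i) 1 else 0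

/-- The magnitude chain group `MC_{k,ℓ}(G)`: the free abelian group on the tuples
`(x₀, …, x_k)` with `x_i ≠ x_{i+1}` of length `ℓ`. -/
noncomputable def MC (k ℓ : ℕ) : Submodule ℤ (List V →₀ ℤ) :=
  Finsupp.supported ℤ ℤ (tuples G k ℓ)

/-- The cycles in `MC_{k,ℓ}(G)`. -/
noncomputable def cycles (k ℓ : ℕ) : Submodule ℤ (List V →₀ ℤ) :=
  MC G k ℓ ⊓ LinearMap.ker (differential G)

/-- The boundaries in `MC_{k,ℓ}(G)`: the image of `MC_{k+1,ℓ}(G)`. -/
noncomputable def boundaries (k ℓ : ℕ) : Submodule ℤ (List V →₀ ℤ) :=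
  (MC G (k + 1) ℓ).map (differential G)

/-- The magnitude homology group `MH_{k,ℓ}(G)` (integer coefficients). -/
abbrev MH (k ℓ : ℕ) : Type _ := cycles G k ℓ ⧸ (boundaries G k ℓ).submoduleOf (cycles G k ℓ)

end magnitude

/-! ### Arrangements -/

/-- An arrangement in `ℝ^d`: a finite set of linear hyperplanes, that is, of linear subspaces of
dimension `d - 1`. -/
structure Arrangement (d : ℕ) where
  /-- the hyperplanes -/
  hyps : Finset (Submodule ℝ (Fin d → ℝ))
  /-- each of them has dimension `d - 1` -/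
  isHyp : ∀ h ∈ hyps, Module.finrank ℝ h + 1 = d

namespace Arrangement

variable {d : ℕ} (A : Arrangement d)

/-- The complement of the union of the hyperplanes. -/
def complement : Set (Fin d → ℝ) := {x | ∀ h ∈ A.hyps, x ∉ h}

/-- The chambers of the arrangement: the connected components of the complement. -/
def Chamber : Type :=
  {R : Set (Fin d → ℝ) // ∃ x ∈ A.complement, R = connectedComponentIn A.complement x}

/-- The linear hyperplane `h` separates `R` from `R'`: some linear functional with kernel `h` is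
positive on `R` and negative on `R'`. -/
def Separates (h : Submodule ℝ (Fin d → ℝ)) (R R' : Set (Fin d → ℝ)) : Prop :=
  ∃ f : (Fin d → ℝ) →ₗ[ℝ] ℝ, LinearMap.ker f = h ∧ (∀ x ∈ R, 0 < f x) ∧ ∀ y ∈ R', f y < 0

theorem Separates.symm {h : Submodule ℝ (Fin d → ℝ)} {R R' : Set (Fin d → ℝ)}
    (hs : Separates h R R') : Separates h R' R := by
  obtain ⟨f, h1, h2, h3⟩ := hs
  refine ⟨-f, ?_, ?_, ?_⟩
  · rw [← h1]; ext z; simp
  · intro x hx; simpa using h3 x hx
  · intro x hx; simpa using h2 x hx

theorem Chamber.nonempty {A : Arrangement d} (R : A.Chamber) : ∃ x, x ∈ R.1 := by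
  obtain ⟨R, x, hx, rfl⟩ := R
  exact ⟨x, mem_connectedComponentIn hx⟩

/-- The tope graph of the arrangement: its vertices are the chambers, two chambers being adjacent
when exactly one hyperplane of the arrangement separates them. -/
def topeGraph : SimpleGraph A.Chamber where
  Adj R R' := ∃! h, h ∈ A.hyps ∧ Separates h R.1 R'.1
  symm := ⟨by
    rintro R R' ⟨h, ⟨h1, h2⟩, h3⟩
    exact ⟨h, ⟨h1, h2.symm⟩, fun h' h'' => h3 h' ⟨h''.1, h''.2.symm⟩⟩⟩
  loopless := ⟨by
    rintro R ⟨h, ⟨_, f, _, h2, h3⟩, _⟩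
    obtain ⟨x, hx⟩ := R.nonempty
    exact absurd (h2 x hx) (not_lt.2 (h3 x hx).le)⟩

/-- The intersection lattice `L(A)`: the set of all intersections of subsets of `A` (the empty
intersection being `ℝ^d`), ordered by reverse inclusion. -/
abbrev IntersectionLattice : Type :=
  {X : Submodule ℝ (Fin d → ℝ) // ∃ S : Finset (Submodule ℝ (Fin d → ℝ)), S ⊆ A.hyps ∧
    X = sInf (S : Set (Submodule ℝ (Fin d → ℝ)))}ᵒᵈ

end Arrangement

end Pool.Agent.T6.H82.MA
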