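import Mathlib
import Pool.Agent.T6.H82.MA.Count2
import Pool.Agent.T6.H82.MA.Defs

/-!
# Magnitude homology as the homology of a complex of words
-/

set_option autoImplicit false

namespace Pool.Agent.T6.H82.MA

open Finsupp

section general

variable {V : Type*}

theorem bd_eq_sum (x : List V) :
    bd x = ∑ i ∈ Finset.range x.length, (-1 : ℤ) ^ i • single (x.eraseIdx i) (1 : ℤ) := by
  induction x with
  | nil => simp [bd]
  | cons a x ih =>
    rw [bd_cons, ih, map_sum, List.length_cons, Finset.sum_range_succ']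
    simp only [List.eraseIdx_cons_succ, map_smul, mp_single, List.eraseIdx_cons_zero, pow_zero,
      one_smul, pow_succ]
    rw [sub_eq_add_neg, add_comm, ← Finset.sum_neg_distrib]
    congr 1
    apply Finset.sum_congr rfl
    intro i _
    rw [mul_neg, mul_one, neg_smul]

variable (G : SimpleGraph V)

/-- all tuples of length `ℓ` -/
def Tall (ℓ : ℕ) : Set (List V) := {x | x ≠ [] ∧ x.IsChain (· ≠ ·) ∧ tupleLength G x = ℓ}

theorem tupleLength_append (l : List V) (a : V) (r : List V) :
    tupleLength G (l ++ a :: r) = tupleLength G (l ++ [a]) + tupleLength G (a :: r) := by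
  induction l with
  | nil => simp [tupleLength]
  | cons x l ih =>
    cases l with
    | nil => simp [tupleLength]
    | cons y l =>
      simp only [List.cons_append, tupleLength] at ih ⊢
      rw [ih, add_assoc]

theorem isChain_append' (l : List V) (a : V) (r : List V) :
    (l ++ a :: r).IsChain (· ≠ ·) ↔ (l ++ [a]).IsChain (· ≠ ·) ∧ (a :: r).IsChain (· ≠ ·) := by
  induction l with
  | nil => simp
  | cons x l ih =>
    cases l with
    | nil => simp [List.isChain_cons_cons]
    | cons y l =>
      simp only [List.cons_append, List.isChain_cons_cons] at ih ⊢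
      rw [ih, and_assoc]

/-- the metric axioms which are needed -/
structure Met : Prop where
  pos : ∀ x y : V, x ≠ y → 0 < G.dist x y

variable {G} (hG : Met G)

include hG

theorem erase_mem_iff {ℓ : ℕ} {x : List V} (hx : x ∈ Tall G ℓ) {i : ℕ} (hi : i < x.length) :
    x.eraseIdx i ∈ Tall G ℓ ↔ (i ∈ Finset.Ico 1 (x.length - 1) ∧ Smooth G x i) := by
  obtain ⟨h1, h2, h3⟩ := hx
  constructor
  · intro h
    obtain ⟨h4, h5, h6⟩ := h
    -- not the first entry
    have hi0 : i ≠ 0 := by
      rintro rfl
      cases x with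
      | nil => exact h1 rfl
      | cons a t =>
        cases t with
        | nil => simp at h4
        | cons b t =>
          rw [List.eraseIdx_cons_zero] at h6
          rw [List.isChain_cons_cons] at h2
          have := hG.pos a b h2.1
          rw [tupleLength, h6] at h3
          omega
    -- decompose
    obtain ⟨l, b, r, hx, hl⟩ : ∃ l b r, x = l ++ b :: r ∧ l.length = i := by
      refine ⟨x.take i, x[i], x.drop (i + 1), ?_, ?_⟩
      · rw [← List.drop_eq_getElem_cons hi, List.take_append_drop]
      · rw [List.length_take]; omega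
    rcases l.eq_nil_or_concat with rfl | ⟨l', a, rfl⟩
    · simp at hl; omega
    · rw [List.concat_eq_append] at hx hl
      have hx' : x = l' ++ a :: b :: r := by rw [hx]; simp
      cases r with
      | nil =>
        exfalso
        have e1 : x.eraseIdx i = l' ++ [a] := by
          rw [hx', List.eraseIdx_append_of_length_le (by simp at hl; omega)]
          have : i - l'.length = 1 := by simp at hl; omega
          rw [this]; rfl
        rw [e1] at h6
        rw [hx', tupleLength_append, h6] at h3
        rw [hx', isChain_append', List.isChain_cons_cons] at h2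
        have := hG.pos a b h2.2.1
        simp only [tupleLength] at h3
        omega
      | cons c r =>
        have e1 : x.eraseIdx i = l' ++ a :: c :: r := by
          rw [hx', List.eraseIdx_append_of_length_le (by simp at hl; omega)]
          have : i - l'.length = 1 := by simp at hl; omega
          rw [this]; rfl
        rw [e1, tupleLength_append, tupleLength] at h6
        rw [hx', tupleLength_append, tupleLength, tupleLength] at h3
        refine ⟨?_, l', a, b, c, r, hx', ?_, by omega⟩
        · rw [Finset.mem_Ico, hx']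
          simp at hl ⊢
          omega
        · simp at hl; omega
  · rintro ⟨_, l, a, b, c, r, hx, hl, hd⟩
    have e1 : x.eraseIdx i = l ++ a :: c :: r := by
      rw [hx, List.eraseIdx_append_of_length_le (by omega)]
      have : i - l.length = 1 := by omega
      rw [this]; rfl
    rw [e1]
    rw [hx, tupleLength_append, tupleLength, tupleLength] at h3
    rw [hx, isChain_append', List.isChain_cons_cons, List.isChain_cons_cons] at h2
    refine ⟨by simp, ?_, ?_⟩
    · rw [isChain_append', List.isChain_cons_cons]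
      refine ⟨h2.1, ?_, h2.2.2.2⟩
      rintro rfl
      have := hG.pos a b h2.2.1
      rw [SimpleGraph.dist_self] at hd
      omega
    · rw [tupleLength_append, tupleLength]
      omega

theorem DX_eq_differential {ℓ : ℕ} {c : Chn V} (hc : On (Tall G ℓ) c) :
    DX (Tall G ℓ) c = differential G c := by
  classical
  apply lin_ext_on (DX (Tall G ℓ)) (differential G) _ hc
  intro x hx
  rw [DX_apply, ← bd_eq, bd_eq_sum, map_sum]
  rw [differential, Finsupp.linearCombination_single, one_smul]
  have hsub : Finset.Ico 1 (x.length - 1) ⊆ Finset.range x.length := by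
    intro i hi
    rw [Finset.mem_Ico] at hi
    rw [Finset.mem_range]; omega
  rw [← Finset.sum_subset hsub]
  · apply Finset.sum_congr rfl
    intro i hi
    rw [map_smul]
    congr 1
    have hi' := Finset.mem_range.1 (hsub hi)
    by_cases hs : Smooth G x i
    · rw [if_pos hs, res_eq_self]
      exact on_single ((erase_mem_iff hG hx hi').2 ⟨hi, hs⟩) 1
    · rw [if_neg hs, res_eq_zero]
      intro w hw
      rw [on_single_eq hw]
      intro h
      exact hs ((erase_mem_iff hG hx hi').1 h).2
  · intro i hi hi'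
    rw [map_smul, res_eq_zero, smul_zero]
    intro w hw
    rw [on_single_eq hw]
    intro h
    exact hi' ((erase_mem_iff hG hx (Finset.mem_range.1 hi)).1 h).1

theorem mem_MC {k ℓ : ℕ} {c : Chn V} : c ∈ MC G k ℓ ↔ On (Tall G ℓ ∩ Len V (k + 1)) c := by
  rw [MC, Finsupp.mem_supported]
  constructor
  · intro h w hw
    have := h (by simpa using hw : w ∈ (c.support : Set (List V)))
    obtain ⟨h1, h2, h3⟩ := this
    refine ⟨⟨?_, h2, h3⟩, h1⟩
    rintro rfl
    simp at h1
  · intro h w hw
    obtain ⟨⟨_, h2, h3⟩, h1⟩ := h w (by simpa using hw)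
    exact ⟨h1, h2, h3⟩

theorem cycles_eq (k ℓ : ℕ) : cycles G k ℓ = Cyc (Tall G ℓ) (k + 1) := by
  ext c
  rw [cycles, Submodule.mem_inf, mem_MC hG, LinearMap.mem_ker, mem_Cyc]
  constructor
  · rintro ⟨h1, h2⟩
    exact ⟨h1, by rw [DX_eq_differential hG (on_inter.1 h1).1]; exact h2⟩
  · rintro ⟨h1, h2⟩
    exact ⟨h1, by rw [← DX_eq_differential hG (on_inter.1 h1).1]; exact h2⟩

theorem boundaries_eq (k ℓ : ℕ) : boundaries G k ℓ = Bou (Tall G ℓ) (k + 1) := by
  ext c
  rw [boundaries, Submodule.mem_map, mem_Bou]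
  constructor
  · rintro ⟨b, hb, rfl⟩
    rw [mem_MC hG] at hb
    exact ⟨b, hb, DX_eq_differential hG (on_inter.1 hb).1⟩
  · rintro ⟨b, hb, rfl⟩
    exact ⟨b, (mem_MC hG).2 hb, (DX_eq_differential hG (on_inter.1 hb).1).symm⟩

theorem MH_eq (k ℓ : ℕ) : Nonempty (MH G k ℓ ≃ₗ[ℤ] H (Tall G ℓ) (k + 1)) := by
  unfold MH H
  rw [cycles_eq hG, boundaries_eq hG]
  exact ⟨LinearEquiv.refl _ _⟩

end general

section map

variable {α β : Type*}

theorem D_map (χ : α → β) (c : Chn α) :
    D (Finsupp.lmapDomain ℤ ℤ (List.map χ) c) = Finsupp.lmapDomain ℤ ℤ (List.map χ) (D c) := by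
  have h1 : ∀ w : List α, bd (w.map χ) = Finsupp.lmapDomain ℤ ℤ (List.map χ) (bd w) := by
    intro w
    induction w with
    | nil => simp [bd]
    | cons a w ih =>
      rw [List.map_cons, bd, ih, bd, map_sub]
      simp only [lmapDomain_apply, mapDomain_single]
      rw [← mapDomain_comp, ← mapDomain_comp]
      rfl
  induction c using Finsupp.induction_linear with
  | zero => simp
  | add f g hf hg => rw [map_add, map_add, hf, hg, map_add, map_add]
  | single w n =>
    rw [D_single, map_smul, ← h1]
    simp [D_single]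

/-- transport along an injective relabelling of the letters -/
theorem H_map (χ : α → β) (hχ : Function.Injective χ) (X : Set (List α)) (n : ℕ) :
    Nonempty (H X n ≃ₗ[ℤ] H ((List.map χ) '' X) n) := by
  have hinj : Function.Injective (List.map χ) := List.map_injective_iff.2 hχ
  set μ : Chn α →ₗ[ℤ] Chn β := Finsupp.lmapDomain ℤ ℤ (List.map χ) with hμ
  have hμinj : Function.Injective μ := by
    intro a b h
    exact mapDomain_injective hinj h
  have happ : ∀ (c : Chn α) (w : List α), μ c (w.map χ) = c w := by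
    intro c w
    simp only [hμ, lmapDomain_apply]
    exact mapDomain_apply hinj c w
  have hsupp : ∀ (c : Chn α) (w : List β), μ c w ≠ 0 → ∃ u, c u ≠ 0 ∧ w = u.map χ := by
    classical
    intro c w h
    have h3 : w ∈ (mapDomain (List.map χ) c).support := by simpa [hμ] using h
    have h4 := Finsupp.mapDomain_support h3
    rw [Finset.mem_image] at h4
    obtain ⟨v, hv, rfl⟩ := h4
    exact ⟨v, by simpa using hv, rfl⟩
  have hres : ∀ (Y : Set (List α)) (c : Chn α), μ (res Y c) = res ((List.map χ) '' Y) (μ c) := by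
    intro Y c
    ext w
    by_cases hw : w ∈ (List.map χ) '' Y
    · obtain ⟨u, hu, rfl⟩ := hw
      rw [happ, res_apply_of_mem (Set.mem_image_of_mem _ hu), happ, res_apply_of_mem hu]
    · rw [res_apply_of_notMem hw]
      by_contra hne
      obtain ⟨u, hu, rfl⟩ := hsupp _ _ hne
      exact hw ⟨u, on_res _ _ _ hu, rfl⟩
  have hDX : ∀ c : Chn α, DX ((List.map χ) '' X) (μ c) = μ (DX X c) := by
    intro c
    rw [DX_apply, D_map, ← hres]
    rfl
  have hOn : ∀ {n : ℕ} {c : Chn α}, On (X ∩ Len α n) c →
      On ((List.map χ) '' X ∩ Len β n) (μ c) := by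
    intro n c hc w hw
    obtain ⟨u, hu, rfl⟩ := hsupp _ _ hw
    have := hc u hu
    exact ⟨⟨u, this.1, rfl⟩, by show (u.map χ).length = n; rw [List.length_map]; exact this.2⟩
  have hOn' : ∀ {n : ℕ} {c : Chn β}, On ((List.map χ) '' X ∩ Len β n) c →
      ∃ c', On (X ∩ Len α n) c' ∧ μ c' = c := by
    intro n c hc
    refine ⟨Finsupp.comapDomain (List.map χ) c hinj.injOn, ?_, ?_⟩
    · intro w hw
      rw [comapDomain_apply] at hw
      obtain ⟨⟨u, hu, hu'⟩, h2⟩ := hc _ hw
      rw [hinj hu'] at hu
      refine ⟨hu, ?_⟩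
      have h3 : (w.map χ).length = n := h2
      rw [List.length_map] at h3
      exact h3
    · simp only [hμ, lmapDomain_apply]
      apply mapDomain_comapDomain _ hinj
      intro w hw
      obtain ⟨⟨u, _, hu'⟩, _⟩ := hc w (by simpa using hw)
      exact ⟨u, hu'⟩
  apply quot_equiv _ _ _ _ μ
  · intro c hc
    exact ⟨hOn hc.1, by rw [hDX, hc.2, map_zero]⟩
  · intro c hc
    constructor
    · rintro ⟨b, hb, hbD⟩
      obtain ⟨b', hb', rfl⟩ := hOn' hb
      rw [hDX] at hbD
      exact ⟨b', hb', hμinj hbD⟩
    · rintro ⟨b, hb, rfl⟩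
      exact ⟨μ b, hOn hb, hDX b⟩
  · intro c hc
    obtain ⟨c', hc', rfl⟩ := hOn' hc.1
    refine ⟨c', ⟨hc', ?_⟩, by rw [sub_self]; exact Submodule.zero_mem _⟩
    have h1 := hc.2
    rw [hDX] at h1
    exact hμinj (by rw [h1, map_zero])

end map

/-- The magnitude homology of a graph whose vertices are the chambers of an oriented matroid,
with the metric given by the number of separating elements. -/
theorem MH_rank {E : Type*} [Fintype E] [DecidableEq E] (M : OM E) {V : Type*}
    (G : SimpleGraph V) (χ : V → Cov E) (hχ : Function.Injective χ)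
    (hCh : ∀ x : Cov E, x ∈ M.Ch ↔ ∃ v, χ v = x)
    (hdist : ∀ v w, G.dist v w = ∑ e, sep (χ v) (χ w) e) (k ℓ : ℕ) :
    Nonempty (MH G k ℓ ≃ₗ[ℤ] (Fin (M.T (fun _ => 0) ℓ k) → ℤ)) := by
  have hG : Met G := ⟨by
    intro x y hxy
    rw [hdist, Nat.pos_iff_ne_zero]
    intro h0
    apply sep_ne_zero_of_ne (fun h => hxy (hχ h) : χ x ≠ χ y)
    funext e
    exact (Finset.sum_eq_zero_iff.1 h0) e (Finset.mem_univ e)⟩
  have hlen : ∀ (x : V) (l : List V), tupleLength G (x :: l) = ∑ e, md (χ x) (l.map χ) e := by
    intro x l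
    induction l generalizing x with
    | nil => simp [tupleLength, md]
    | cons y l ih =>
      rw [tupleLength, ih, hdist, List.map_cons, md_cons, ← Finset.sum_add_distrib]
      rfl
  have hchain : ∀ l : List V, (l.map χ).IsChain (· ≠ ·) ↔ l.IsChain (· ≠ ·) := by
    intro l
    rw [List.isChain_map]
    constructor
    · intro h; exact h.imp (fun a b hab h => hab (by rw [h]))
    · intro h; exact h.imp (fun a b hab h => hab (hχ h))
  have himg : (List.map χ) '' (Tall G ℓ) = M.All ℓ := by
    ext w
    constructor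
    · rintro ⟨x, ⟨h1, h2, h3⟩, rfl⟩
      cases x with
      | nil => exact absurd rfl h1
      | cons a t =>
        refine ⟨χ a, t.map χ, rfl, (hCh _).2 ⟨a, rfl⟩, ?_, ?_, ?_⟩
        · intro y hy
          rw [List.mem_map] at hy
          obtain ⟨v, _, rfl⟩ := hy
          exact (hCh _).2 ⟨v, rfl⟩
        · have := (hchain (a :: t)).2 h2
          rwa [List.map_cons] at this
        · rw [← hlen, h3]
    · rintro ⟨C, v, rfl, h1, h2, h3, h4⟩
      have hex : ∀ l : List (Cov E), (∀ x ∈ l, x ∈ M.Ch) → ∃ l' : List V, l'.map χ = l := by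
        intro l hl
        induction l with
        | nil => exact ⟨[], rfl⟩
        | cons x l ih =>
          obtain ⟨l', hl'⟩ := ih (fun y hy => hl y (by simp [hy]))
          obtain ⟨y, hy⟩ := (hCh x).1 (hl x (by simp))
          exact ⟨y :: l', by simp [hl', hy]⟩
      obtain ⟨a, rfl⟩ := (hCh C).1 h1
      obtain ⟨t, rfl⟩ := hex v h2
      refine ⟨a :: t, ⟨by simp, ?_, ?_⟩, rfl⟩
      · rw [← List.map_cons, hchain] at h3; exact h3
      · rw [hlen]; exact h4
  obtain ⟨e1⟩ := MH_eq hG k ℓ
  obtain ⟨e2⟩ := H_map χ hχ (Tall G ℓ) (k + 1)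
  rw [himg] at e2
  obtain ⟨e3⟩ := OM.homIs_All M ℓ (k + 1)
  exact ⟨e1.trans (e2.trans e3)⟩

end Pool.Agent.T6.H82.MA
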