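import Mathlib
import Pool.Agent.T6.H82.MA.Bridge

/-!
# The covectors of a hyperplane arrangement
-/

set_option autoImplicit false

open Set

namespace Pool.Agent.T6.H82.MA

namespace Arrangement

variable {d : ℕ} {A : Arrangement d}

theorem Chamber.subset (R : A.Chamber) : R.1 ⊆ A.complement := by
  obtain ⟨R, x, hx, rfl⟩ := R
  exact connectedComponentIn_subset _ _

/-- The chamber containing a given point of the complement. -/
def chamberOf (x : Fin d → ℝ) (hx : x ∈ A.complement) : A.Chamber :=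
  ⟨connectedComponentIn A.complement x, x, hx, rfl⟩

theorem mem_chamberOf (x : Fin d → ℝ) (hx : x ∈ A.complement) : x ∈ (chamberOf x hx).1 :=
  mem_connectedComponentIn hx

theorem Chamber.eq_chamberOf (R : A.Chamber) {x : Fin d → ℝ} (hx : x ∈ R.1) :
    R = chamberOf x (R.subset hx) := by
  obtain ⟨R, y, hy, rfl⟩ := R
  apply Subtype.ext
  exact connectedComponentIn_eq hx

theorem Chamber.sign_const (R : A.Chamber) {f : (Fin d → ℝ) →ₗ[ℝ] ℝ}
    (hf : LinearMap.ker f ∈ A.hyps) {x y : Fin d → ℝ} (hx : x ∈ R.1) (hy : y ∈ R.1)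
    (h : 0 < f x) : 0 < f y := by
  by_contra hcon
  have hyne : f y ≠ 0 := fun h0 => R.subset hy _ hf (LinearMap.mem_ker.2 h0)
  have hylt : f y < 0 := lt_of_le_of_ne (not_lt.1 hcon) hyne
  have hpre : IsPreconnected R.1 := by
    obtain ⟨R, z, hz, rfl⟩ := R
    exact isPreconnected_connectedComponentIn
  have hcont : ContinuousOn f R.1 := (LinearMap.continuous_of_finiteDimensional f).continuousOn
  obtain ⟨z, hz, hz0⟩ := hpre.intermediate_value hy hx hcont ⟨hylt.le, h.le⟩
  exact R.subset hz _ hf (LinearMap.mem_ker.2 hz0)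

theorem ne_top_of_mem {h : Submodule ℝ (Fin d → ℝ)} (hh : h ∈ A.hyps) : h ≠ ⊤ := by
  rintro rfl
  have h1 := A.isHyp ⊤ hh
  rw [finrank_top] at h1
  simp at h1

theorem exists_functional {h : Submodule ℝ (Fin d → ℝ)} (hh : h ∈ A.hyps) :
    ∃ f : (Fin d → ℝ) →ₗ[ℝ] ℝ, LinearMap.ker f = h := by
  obtain ⟨b, hb⟩ : ∃ b, b ∉ h := by
    by_contra hcon
    push Not at hcon
    exact ne_top_of_mem hh (eq_top_iff.2 fun x _ => hcon x)
  obtain ⟨f, hf, hfm⟩ := Submodule.exists_dual_map_eq_bot_of_notMem hb inferInstance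
  have hle : h ≤ LinearMap.ker f := by
    intro x hx
    have : f x ∈ Submodule.map f h := Submodule.mem_map_of_mem hx
    rw [hfm] at this
    simpa using this
  have hfne : f ≠ 0 := by
    rintro rfl
    simp at hf
  have h1 := Module.Dual.finrank_ker_add_one_of_ne_zero hfne
  have h2 := A.isHyp h hh
  refine ⟨f, ?_⟩
  symm
  apply Submodule.eq_of_le_of_finrank_eq hle
  have : Module.finrank ℝ (Fin d → ℝ) = d := by simp
  omega

variable (A)

/-- a linear functional with kernel `h` -/
noncomputable def fn (h : A.hyps) : (Fin d → ℝ) →ₗ[ℝ] ℝ := (exists_functional h.2).choose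

theorem ker_fn (h : A.hyps) : LinearMap.ker (A.fn h) = h.1 := (exists_functional h.2).choose_spec

theorem fn_eq_zero {h : A.hyps} {v : Fin d → ℝ} : A.fn h v = 0 ↔ v ∈ h.1 := by
  rw [← A.ker_fn h, LinearMap.mem_ker]

/-- the sign vector of a point -/
noncomputable def sgn (v : Fin d → ℝ) : Cov A.hyps := fun h => SignType.sign (A.fn h v)

theorem sgn_eq_zero {v : Fin d → ℝ} {h : A.hyps} : A.sgn v h = 0 ↔ v ∈ h.1 := by
  rw [sgn, sign_eq_zero_iff, A.fn_eq_zero]

noncomputable instance : DecidableEq A.hyps := Classical.decEq _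

open Classical in
/-- the hyperplanes containing a subspace -/
noncomputable def hs (X : Submodule ℝ (Fin d → ℝ)) : Finset A.hyps :=
  Finset.univ.filter fun h => X ≤ h.1

theorem mem_hs {X : Submodule ℝ (Fin d → ℝ)} {h : A.hyps} : h ∈ A.hs X ↔ X ≤ h.1 := by
  simp [hs]

/-- the intersection of a set of hyperplanes -/
def fl (S : Finset A.hyps) : Submodule ℝ (Fin d → ℝ) := ⨅ h ∈ S, h.1

theorem fl_le {S : Finset A.hyps} {h : A.hyps} (hh : h ∈ S) : A.fl S ≤ h.1 :=
  iInf₂_le h hh

theorem le_fl {S : Finset A.hyps} {X : Submodule ℝ (Fin d → ℝ)} (h : ∀ h ∈ S, X ≤ h.1) :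
    X ≤ A.fl S := le_iInf₂ h

theorem fl_anti {S T : Finset A.hyps} (h : S ⊆ T) : A.fl T ≤ A.fl S :=
  A.le_fl fun _ hh => A.fl_le (h hh)

/-- membership in the intersection lattice -/
def IsFlat (X : Submodule ℝ (Fin d → ℝ)) : Prop :=
  ∃ S : Finset (Submodule ℝ (Fin d → ℝ)), S ⊆ A.hyps ∧ X = sInf (S : Set _)

theorem isFlat_fl (S : Finset A.hyps) : A.IsFlat (A.fl S) := by
  classical
  refine ⟨S.image Subtype.val, ?_, ?_⟩
  · intro x hx
    rw [Finset.mem_image] at hx
    obtain ⟨h, _, rfl⟩ := hx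
    exact h.2
  · rw [fl]
    apply le_antisymm
    · apply le_sInf
      intro x hx
      rw [Finset.mem_coe, Finset.mem_image] at hx
      obtain ⟨h, hh, rfl⟩ := hx
      exact iInf₂_le h hh
    · apply le_iInf₂
      intro h hh
      apply sInf_le
      rw [Finset.mem_coe, Finset.mem_image]
      exact ⟨h, hh, rfl⟩

variable {A}

theorem fl_hs {X : Submodule ℝ (Fin d → ℝ)} (hX : A.IsFlat X) : A.fl (A.hs X) = X := by
  obtain ⟨S, hS, rfl⟩ := hX
  apply le_antisymm
  · apply le_sInf
    intro x hx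
    have hx' : x ∈ A.hyps := hS hx
    exact A.fl_le (h := ⟨x, hx'⟩) (A.mem_hs.2 (sInf_le hx))
  · exact A.le_fl fun h hh => A.mem_hs.1 hh

variable (A)

/-- generic points of subspaces -/
theorem generic (U : Submodule ℝ (Fin d → ℝ)) :
    ∃ u ∈ U, ∀ h ∈ A.hyps, u ∈ h → U ≤ h := by
  classical
  let s : Finset (Submodule ℝ U) := (A.hyps.filter fun h => ¬ U ≤ h).image
    (fun h => h.comap U.subtype)
  have htop : (⊤ : Submodule ℝ U) ∉ s := by
    intro h
    rw [Finset.mem_image] at h
    obtain ⟨k, hk, hk'⟩ := h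
    rw [Finset.mem_filter] at hk
    apply hk.2
    intro x hx
    have : (⟨x, hx⟩ : U) ∈ Submodule.comap U.subtype k := by rw [hk']; trivial
    exact this
  have h1 := Subspace.biUnion_ne_univ_of_top_notMem htop
  obtain ⟨u, hu⟩ : ∃ u : U, u ∉ ⋃ p ∈ s, (p : Set U) := by
    by_contra hcon
    push Not at hcon
    exact h1 (Set.eq_univ_of_forall hcon)
  refine ⟨u, u.2, ?_⟩
  intro h hh huh
  by_contra hUh
  apply hu
  rw [Set.mem_iUnion₂]
  exact ⟨h.comap U.subtype, Finset.mem_image.2 ⟨h, Finset.mem_filter.2 ⟨hh, hUh⟩, rfl⟩, huh⟩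

theorem Z_sgn (v : Fin d → ℝ) {h : A.hyps} : h ∈ Z (A.sgn v) ↔ v ∈ h.1 := by
  rw [mem_Z, A.sgn_eq_zero]

theorem exists_Z_eq (X : Submodule ℝ (Fin d → ℝ)) : ∃ u ∈ X, Z (A.sgn u) = A.hs X := by
  obtain ⟨u, hu, h⟩ := A.generic X
  refine ⟨u, hu, ?_⟩
  ext k
  rw [A.Z_sgn, A.mem_hs]
  exact ⟨fun hk => h k.1 k.2 hk, fun hk => hk hu⟩

theorem hs_fl_sgn (v : Fin d → ℝ) : A.hs (A.fl (Z (A.sgn v))) = Z (A.sgn v) := by
  ext h
  rw [A.mem_hs, A.Z_sgn]
  constructor
  · intro hh
    apply hh
    rw [fl]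
    simp only [Submodule.mem_iInf]
    intro k hk
    exact A.Z_sgn v |>.1 hk
  · intro hh
    exact A.fl_le ((A.Z_sgn v).2 hh)

/-- the codimension of a subspace -/
noncomputable def codim (X : Submodule ℝ (Fin d → ℝ)) : ℕ := d - Module.finrank ℝ X

theorem finrank_le (X : Submodule ℝ (Fin d → ℝ)) : Module.finrank ℝ X ≤ d := by
  have := Submodule.finrank_le X
  simpa using this

/-- the intersection with a hyperplane not containing the subspace -/
theorem finrank_inf {X : Submodule ℝ (Fin d → ℝ)} {h : Submodule ℝ (Fin d → ℝ)} (hh : h ∈ A.hyps)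
    (hX : ¬ X ≤ h) : Module.finrank ℝ (X ⊓ h : Submodule ℝ (Fin d → ℝ)) + 1
      = Module.finrank ℝ X := by
  have h1 := Submodule.finrank_sup_add_finrank_inf_eq X h
  have h2 : X ⊔ h = ⊤ := by
    have h3 : h < X ⊔ h := lt_of_le_of_ne le_sup_right (fun heq => hX (heq ▸ le_sup_left))
    have h4 := Submodule.finrank_lt_finrank_of_lt h3
    have h5 := A.isHyp h hh
    have h6 := finrank_le (X ⊔ h)
    apply Submodule.eq_top_of_finrank_eq
    simp
    omega
  rw [h2, finrank_top] at h1
  have h5 := A.isHyp h hh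
  simp at h1
  omega

/-- covering relations in the intersection lattice change the codimension by one -/
theorem codim_cover {X Y : Submodule ℝ (Fin d → ℝ)} (hX : A.IsFlat X) (hY : A.IsFlat Y)
    (hlt : X < Y) (hcov : ∀ K, A.IsFlat K → X ≤ K → K ≤ Y → K = X ∨ K = Y) :
    codim X = codim Y + 1 := by
  obtain ⟨h, hh, hYh⟩ : ∃ h ∈ A.hs X, ¬ Y ≤ h.1 := by
    by_contra hcon
    push Not at hcon
    have : Y ≤ X := by
      rw [← fl_hs hX]
      exact A.le_fl hcon
    exact absurd this (not_le_of_gt hlt)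
  have hK : A.IsFlat (Y ⊓ h.1) := by
    classical
    have : Y ⊓ h.1 = A.fl (insert h (A.hs Y)) := by
      apply le_antisymm
      · apply A.le_fl
        intro k hk
        rw [Finset.mem_insert] at hk
        rcases hk with rfl | hk
        · exact inf_le_right
        · exact inf_le_left.trans (A.mem_hs.1 hk)
      · apply le_inf
        · rw [← fl_hs hY]
          conv_rhs => rw [← fl_hs hY]
          rw [fl_hs hY]
          exact A.fl_anti (Finset.subset_insert _ _)
        · exact A.fl_le (Finset.mem_insert_self _ _)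
    rw [this]
    exact A.isFlat_fl _
  have hXh : X ≤ h.1 := A.mem_hs.1 hh
  have h1 : Y ⊓ h.1 = X := by
    rcases hcov _ hK (le_inf hlt.le hXh) inf_le_left with h2 | h2
    · exact h2
    · exact absurd (inf_eq_left.1 h2) hYh
  have h2 := A.finrank_inf h.2 hYh
  rw [h1] at h2
  have h3 := finrank_le Y
  unfold codim
  omega

theorem sign_add_small {ι : Type*} [Finite ι] (a b : ι → ℝ) :
    ∃ ε : ℝ, 0 < ε ∧ ∀ i, SignType.sign (a i + ε * b i)
      = if SignType.sign (a i) = 0 then SignType.sign (b i) else SignType.sign (a i) := by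
  have h : ∀ i, ∀ᶠ ε : ℝ in nhdsWithin 0 (Set.Ioi 0), SignType.sign (a i + ε * b i)
      = if SignType.sign (a i) = 0 then SignType.sign (b i) else SignType.sign (a i) := by
    intro i
    by_cases h0 : a i = 0
    · filter_upwards [self_mem_nhdsWithin] with ε hε
      have hε' : (0 : ℝ) < ε := hε
      rw [h0, zero_add, sign_zero, if_pos rfl, sign_mul, sign_pos hε', one_mul]
    · have h1 : SignType.sign (a i) ≠ 0 := by rwa [Ne, sign_eq_zero_iff]
      have hc : Filter.Tendsto (fun ε : ℝ => a i + ε * b i) (nhdsWithin 0 (Set.Ioi 0))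
          (nhds (a i)) := by
        have : Continuous (fun ε : ℝ => a i + ε * b i) := by fun_prop
        have h2 := this.tendsto 0
        simp only [zero_mul, add_zero] at h2
        exact h2.mono_left nhdsWithin_le_nhds
      rcases lt_or_gt_of_ne h0 with hlt | hgt
      · filter_upwards [hc.eventually (gt_mem_nhds hlt)] with ε hε
        rw [if_neg h1, sign_neg hε, sign_neg hlt]
      · filter_upwards [hc.eventually (lt_mem_nhds hgt)] with ε hε
        rw [if_neg h1, sign_pos hε, sign_pos hgt]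
  have h2 : ∀ᶠ ε : ℝ in nhdsWithin 0 (Set.Ioi 0), ∀ i, SignType.sign (a i + ε * b i)
      = if SignType.sign (a i) = 0 then SignType.sign (b i) else SignType.sign (a i) :=
    Filter.eventually_all.2 h
  obtain ⟨ε, h3, h4⟩ := (h2.and self_mem_nhdsWithin).exists
  exact ⟨ε, h4, h3⟩

theorem sgn_cmp (v w : Fin d → ℝ) : ∃ u, A.sgn u = cmp (A.sgn v) (A.sgn w) := by
  obtain ⟨ε, _, hε⟩ := sign_add_small (fun h : A.hyps => A.fn h v) (fun h => A.fn h w)
  refine ⟨v + ε • w, ?_⟩
  funext h
  have := hε h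
  rw [sgn, map_add, map_smul, smul_eq_mul, this]
  rfl

theorem sgn_neg (v : Fin d → ℝ) : A.sgn (-v) = ng (A.sgn v) := by
  funext h
  rw [sgn, map_neg, Left.sign_neg]
  rfl

/-- first crossing on the segment from `p` to `x` -/
theorem crossing {ι : Type*} [Finite ι] (p x : ι → ℝ) (h0 : ∀ i, p i = 0 → x i = 0)
    (hex : ∃ i, p i * x i < 0) :
    ∃ t : ℝ, 0 < t ∧ t < 1 ∧ (∀ i, SignType.sign (p i + t * (x i - p i)) = 0 ∨
      SignType.sign (p i + t * (x i - p i)) = SignType.sign (p i)) ∧
      (∃ i, p i ≠ 0 ∧ p i + t * (x i - p i) = 0) ∧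
      ∀ i, p i + t * (x i - p i) = 0 → p i ≠ 0 → p i * x i < 0 := by
  classical
  cases nonempty_fintype ι
  let S : Finset ι := Finset.univ.filter fun i => p i * x i < 0
  have hS : S.Nonempty := by
    obtain ⟨i, hi⟩ := hex
    exact ⟨i, by simpa [S] using hi⟩
  obtain ⟨i₀, hi₀, hmin⟩ := S.exists_min_image (fun i => p i / (p i - x i)) hS
  have hneg : ∀ i ∈ S, p i * x i < 0 := fun i hi => by simpa [S] using hi
  have hfrac : ∀ i ∈ S, 0 < p i / (p i - x i) ∧ p i / (p i - x i) < 1 := by
    intro i hi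
    have h1 := hneg i hi
    rcases lt_or_gt_of_ne (show p i ≠ 0 from fun h => by rw [h, zero_mul] at h1; exact lt_irrefl _ h1) with h2 | h2
    · have h3 : 0 < x i := by
        by_contra h; push Not at h; nlinarith
      have h4 : p i - x i < 0 := by linarith
      exact ⟨div_pos_of_neg_of_neg h2 h4, by rw [div_lt_one_of_neg h4]; linarith⟩
    · have h3 : x i < 0 := by
        by_contra h; push Not at h; nlinarith
      have h4 : 0 < p i - x i := by linarith
      exact ⟨div_pos h2 h4, by rw [div_lt_one h4]; linarith⟩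
  set t : ℝ := p i₀ / (p i₀ - x i₀) with ht
  obtain ⟨ht0, ht1⟩ := hfrac i₀ hi₀
  have hzero : p i₀ + t * (x i₀ - p i₀) = 0 := by
    have h1 : p i₀ - x i₀ ≠ 0 := by
      intro h
      rw [h, div_zero] at ht0
      exact lt_irrefl _ ht0
    rw [ht]
    field_simp
    ring
  -- the sign at time `t`
  have key : ∀ i, (p i * x i < 0 ∨ 0 ≤ p i * x i) := fun i => lt_or_ge _ _
  have hsame : ∀ i, p i ≠ 0 → 0 ≤ p i * x i →
      SignType.sign (p i + t * (x i - p i)) = SignType.sign (p i) := by
    intro i hp hpx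
    rcases lt_or_gt_of_ne hp with h2 | h2
    · have h3 : x i ≤ 0 := by
        by_contra h; push Not at h; nlinarith
      have h4 : p i + t * (x i - p i) < 0 := by nlinarith
      rw [sign_neg h4, sign_neg h2]
    · have h3 : 0 ≤ x i := by
        by_contra h; push Not at h; nlinarith
      have h4 : 0 < p i + t * (x i - p i) := by nlinarith
      rw [sign_pos h4, sign_pos h2]
  refine ⟨t, ht0, ht1, ?_, ⟨i₀, ?_, hzero⟩, ?_⟩
  · intro i
    by_cases hp : p i = 0
    · left
      rw [hp, h0 i hp]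
      simp
    · rcases key i with h1 | h1
      · have hi : i ∈ S := by simpa [S] using h1
        have h2 := hmin i hi
        rcases lt_or_gt_of_ne hp with h3 | h3
        · have h4 : 0 < x i := by
            by_contra h; push Not at h; nlinarith
          have h5 : p i - x i < 0 := by linarith
          have h6 : p i ≤ t * (p i - x i) := by
            have := (le_div_iff_of_neg h5).1 h2
            linarith
          have h7 : p i + t * (x i - p i) ≤ 0 := by nlinarith
          rcases h7.eq_or_lt with h8 | h8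
          · left; rw [h8, sign_zero]
          · right; rw [sign_neg h8, sign_neg h3]
        · have h4 : x i < 0 := by
            by_contra h; push Not at h; nlinarith
          have h5 : 0 < p i - x i := by linarith
          have h6 : t * (p i - x i) ≤ p i := by
            have := (le_div_iff₀ h5).1 h2
            linarith
          have h7 : 0 ≤ p i + t * (x i - p i) := by nlinarith
          rcases h7.eq_or_lt with h8 | h8
          · left; rw [← h8, sign_zero]
          · right; rw [sign_pos h8, sign_pos h3]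
      · exact Or.inr (hsame i hp h1)
  · intro h
    have := hneg i₀ hi₀
    rw [h, zero_mul] at this
    exact lt_irrefl _ this
  · intro i hi hp
    rcases key i with h1 | h1
    · exact h1
    · have := hsame i hp h1
      rw [hi, sign_zero] at this
      exact absurd (sign_eq_zero_iff.1 this.symm) hp

theorem sign_mul_neg_iff {a b : ℝ} :
    (SignType.sign b ≠ 0 ∧ SignType.sign b = - SignType.sign a) ↔ a * b < 0 := by
  rcases lt_trichotomy a 0 with ha | ha | ha <;> rcases lt_trichotomy b 0 with hb | hb | hb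
  · simp [sign_neg ha, sign_neg hb]; nlinarith
  · simp [hb]
  · simp [sign_neg ha, sign_pos hb]; nlinarith
  · simp [ha, sign_neg hb]
  · simp [ha, hb]
  · simp [ha, sign_pos hb]
  · simp [sign_pos ha, sign_neg hb]; nlinarith
  · simp [hb]
  · simp [sign_pos ha, sign_pos hb]; nlinarith

/-- the oriented matroid of an arrangement -/
noncomputable def om : OM A.hyps where
  L := Set.range A.sgn
  zero_mem := ⟨0, by funext h; simp [sgn]⟩
  ng_mem := by
    rintro _ ⟨v, rfl⟩
    exact ⟨-v, A.sgn_neg v⟩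
  cmp_mem := by
    rintro _ _ ⟨v, rfl⟩ ⟨w, rfl⟩
    exact A.sgn_cmp v w
  cross := by
    rintro _ _ ⟨p, rfl⟩ ⟨x, rfl⟩ h0 ⟨e, he1, he2⟩
    obtain ⟨t, ht0, ht1, h1, ⟨i, h2, h3⟩, h4⟩ := crossing (fun h : A.hyps => A.fn h p)
      (fun h => A.fn h x) (by
        intro h hp
        have : A.sgn p h = 0 := by rw [sgn, hp, sign_zero]
        have := h0 h this
        rwa [sgn, sign_eq_zero_iff] at this) ⟨e, sign_mul_neg_iff.1 ⟨he1, he2⟩⟩
    have hval : ∀ h : A.hyps, A.fn h (p + t • (x - p)) = A.fn h p + t * (A.fn h x - A.fn h p) := by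
      intro h
      rw [map_add, map_smul, map_sub, smul_eq_mul]
    refine ⟨A.sgn (p + t • (x - p)), ⟨_, rfl⟩, ?_, ?_⟩
    · rw [lt_iff_exists]
      refine ⟨?_, i, ?_, ?_⟩
      · intro h
        rw [sgn, sgn, hval]
        exact h1 h
      · rw [sgn, hval, h3, sign_zero]
      · rw [sgn, Ne, sign_eq_zero_iff]; exact h2
    · intro h hh hp
      rw [sgn, hval, sign_eq_zero_iff] at hh
      rw [sgn, Ne, sign_eq_zero_iff] at hp
      exact sign_mul_neg_iff.2 (h4 h hh hp)
  rk := fun S => codim (A.fl S)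
  rk_empty := by
    have : A.fl ∅ = ⊤ := by simp [fl]
    rw [this, codim, finrank_top]
    simp
  rk_cover := by
    rintro _ _ ⟨v, rfl⟩ ⟨w, rfl⟩ hlt hcov
    refine A.codim_cover (A.isFlat_fl _) (A.isFlat_fl _) ?_ ?_
    · refine lt_of_le_of_ne (A.fl_anti hlt.1) ?_
      intro heq
      have h1 := A.hs_fl_sgn v
      rw [← heq, A.hs_fl_sgn w] at h1
      exact hlt.ne h1.symm
    · intro K hK h1 h2
      obtain ⟨u, _, hu⟩ := A.exists_Z_eq K
      have h3 : Z (A.sgn v) ⊆ Z (A.sgn u) := by
        rw [hu]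
        intro h hh
        rw [A.mem_hs]
        exact h2.trans (A.fl_le hh)
      have h4 : Z (A.sgn u) ⊆ Z (A.sgn w) := by
        rw [hu, ← A.hs_fl_sgn w]
        intro h hh
        rw [A.mem_hs] at hh ⊢
        exact h1.trans hh
      rcases hcov _ ⟨u, rfl⟩ h3 h4 with h5 | h5
      · right
        rw [← fl_hs hK, ← hu, h5]
      · left
        rw [← fl_hs hK, ← hu, h5]

end Arrangement

end Pool.Agent.T6.H82.MA
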