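import Mathlib
import Pool.Agent.T6.H82.MA.Arr

/-!
# Tope graphs and intersection lattices in terms of covectors
-/

set_option autoImplicit false

open Set

namespace Pool.Agent.T6.H82.MA

namespace Arrangement

variable {d : ℕ} {A : Arrangement d}

/-- the sign vector of a chamber -/
noncomputable def Chamber.sg (R : A.Chamber) : Cov A.hyps := A.sgn R.nonempty.choose

theorem Chamber.sg_eq (R : A.Chamber) {v : Fin d → ℝ} (hv : v ∈ R.1) : R.sg = A.sgn v := by
  have hu := R.nonempty.choose_spec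
  set u := R.nonempty.choose
  show A.sgn u = A.sgn v
  funext h
  have hker : LinearMap.ker (A.fn h) ∈ A.hyps := by rw [A.ker_fn]; exact h.2
  have hker' : LinearMap.ker (-(A.fn h)) ∈ A.hyps := by
    have : LinearMap.ker (-(A.fn h)) = LinearMap.ker (A.fn h) := by ext z; simp
    rw [this]; exact hker
  have hune : A.fn h u ≠ 0 := fun h0 => R.subset hu _ h.2 (A.fn_eq_zero.1 h0)
  rw [sgn, sgn]
  rcases lt_or_gt_of_ne hune with hlt | hgt
  · have h1 := R.sign_const hker' hu hv (by simpa using hlt)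
    rw [sign_neg hlt, sign_neg (by simpa using h1)]
  · have h1 := R.sign_const hker hu hv hgt
    rw [sign_pos hgt, sign_pos h1]

theorem chamberOf_eq_of_sgn {x y : Fin d → ℝ} (hx : x ∈ A.complement) (hy : y ∈ A.complement)
    (h : A.sgn x = A.sgn y) : chamberOf x hx = chamberOf y hy := by
  have hseg : segment ℝ x y ⊆ A.complement := by
    rintro z ⟨a, b, ha, hb, hab, rfl⟩ k hk hz
    have h1 := congrFun h ⟨k, hk⟩
    rw [sgn, sgn] at h1
    have h2 : A.fn ⟨k, hk⟩ x ≠ 0 := fun h0 => hx k hk (A.fn_eq_zero.1 h0)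
    have h3 : A.fn ⟨k, hk⟩ y ≠ 0 := fun h0 => hy k hk (A.fn_eq_zero.1 h0)
    have hz' : A.fn ⟨k, hk⟩ (a • x + b • y) = 0 := A.fn_eq_zero.2 hz
    rw [map_add, map_smul, map_smul, smul_eq_mul, smul_eq_mul] at hz'
    rcases lt_or_gt_of_ne h2 with h4 | h4 <;> rcases lt_or_gt_of_ne h3 with h5 | h5
    · rcases ha.eq_or_lt with rfl | ha
      · have : b = 1 := by linarith
        subst this
        linarith
      · nlinarith [mul_nonpos_of_nonneg_of_nonpos hb h5.le, mul_neg_of_pos_of_neg ha h4]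
    · rw [sign_neg h4, sign_pos h5] at h1
      exact absurd h1 (by decide)
    · rw [sign_pos h4, sign_neg h5] at h1
      exact absurd h1 (by decide)
    · rcases ha.eq_or_lt with rfl | ha
      · have : b = 1 := by linarith
        subst this
        linarith
      · nlinarith [mul_nonneg hb h5.le, mul_pos ha h4]
  apply Subtype.ext
  apply connectedComponentIn_eq
  exact ((convex_segment x y).isPreconnected.subset_connectedComponentIn
    (left_mem_segment ℝ x y) hseg) (right_mem_segment ℝ x y)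

theorem sg_injective : Function.Injective (Chamber.sg (A := A)) := by
  intro R R' h
  obtain ⟨x, hx⟩ := R.nonempty
  obtain ⟨y, hy⟩ := R'.nonempty
  rw [R.eq_chamberOf hx, R'.eq_chamberOf hy]
  apply chamberOf_eq_of_sgn
  rw [← R.sg_eq hx, ← R'.sg_eq hy, h]

theorem mem_complement_iff {v : Fin d → ℝ} : v ∈ A.complement ↔ ∀ h, A.sgn v h ≠ 0 := by
  constructor
  · intro hv h h0
    exact hv h.1 h.2 (A.sgn_eq_zero.1 h0)
  · intro hv h hh hvh
    exact hv ⟨h, hh⟩ (A.sgn_eq_zero.2 hvh)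

theorem mem_Ch_iff (x : Cov A.hyps) : x ∈ A.om.Ch ↔ ∃ R : A.Chamber, R.sg = x := by
  constructor
  · rintro ⟨⟨v, rfl⟩, h⟩
    have hv : v ∈ A.complement := mem_complement_iff.2 h
    exact ⟨chamberOf v hv, (chamberOf v hv).sg_eq (mem_chamberOf v hv)⟩
  · rintro ⟨R, rfl⟩
    obtain ⟨x, hx⟩ := R.nonempty
    rw [R.sg_eq hx]
    exact ⟨⟨x, rfl⟩, mem_complement_iff.1 (R.subset hx)⟩

theorem separates_iff {R R' : A.Chamber} {h : A.hyps} :
    Separates h.1 R.1 R'.1 ↔ R.sg h ≠ R'.sg h := by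
  obtain ⟨x, hx⟩ := R.nonempty
  obtain ⟨y, hy⟩ := R'.nonempty
  have hxne : A.fn h x ≠ 0 := fun h0 => R.subset hx _ h.2 (A.fn_eq_zero.1 h0)
  have hyne : A.fn h y ≠ 0 := fun h0 => R'.subset hy _ h.2 (A.fn_eq_zero.1 h0)
  have hkn : LinearMap.ker (-(A.fn h)) = h.1 := by
    rw [← A.ker_fn h]; ext z; simp
  rw [R.sg_eq hx, R'.sg_eq hy, sgn, sgn]
  constructor
  · rintro ⟨g, hg, hgR, hgR'⟩ heq
    have hgx := hgR x hx
    have hgy := hgR' y hy
    have hfg : (g y) • A.fn h = (A.fn h y) • g := by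
      apply Module.Dual.eq_of_ker_eq_of_apply_eq y
      · ext z
        simp only [LinearMap.mem_ker, LinearMap.smul_apply, smul_eq_mul, mul_eq_zero, hgy.ne,
          hyne, false_or]
        rw [← LinearMap.mem_ker, ← LinearMap.mem_ker, hg, A.ker_fn]
      · simp [mul_comm]
      · simp [hgy.ne, hyne]
    have h1 := congrArg (fun l : (Fin d → ℝ) →ₗ[ℝ] ℝ => l x) hfg
    simp only [LinearMap.smul_apply, smul_eq_mul] at h1
    rcases lt_or_gt_of_ne hyne with h2 | h2
    · have h3 : A.fn h x < 0 := by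
        rw [sign_neg h2] at heq
        exact sign_eq_neg_one_iff.1 heq
      nlinarith [mul_pos_of_neg_of_neg hgy h3, mul_neg_of_neg_of_pos h2 hgx]
    · have h3 : 0 < A.fn h x := by
        rw [sign_pos h2] at heq
        exact sign_eq_one_iff.1 heq
      nlinarith [mul_neg_of_neg_of_pos hgy h3, mul_pos h2 hgx]
  · intro hne
    rcases lt_or_gt_of_ne hxne with h1 | h1 <;> rcases lt_or_gt_of_ne hyne with h2 | h2
    · exact absurd (by rw [sign_neg h1, sign_neg h2]) hne
    · refine ⟨-(A.fn h), hkn, ?_, ?_⟩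
      · intro z hz
        exact R.sign_const (f := -(A.fn h)) (by rw [hkn]; exact h.2) hx hz (by simpa using h1)
      · intro z hz
        have := R'.sign_const (f := A.fn h) (by rw [A.ker_fn]; exact h.2) hy hz h2
        simpa using this
    · refine ⟨A.fn h, A.ker_fn h, ?_, ?_⟩
      · intro z hz
        exact R.sign_const (f := A.fn h) (by rw [A.ker_fn]; exact h.2) hx hz h1
      · intro z hz
        have := R'.sign_const (f := -(A.fn h)) (by rw [hkn]; exact h.2) hy hz (by simpa using h2)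
        simpa using this
    · exact absurd (by rw [sign_pos h1, sign_pos h2]) hne

/-- the number of separating hyperplanes -/
noncomputable def nsep (R R' : A.Chamber) : ℕ := ∑ h, sep R.sg R'.sg h

theorem nsep_triangle (R R' R'' : A.Chamber) : nsep R R'' ≤ nsep R R' + nsep R' R'' := by
  unfold nsep
  rw [← Finset.sum_add_distrib]
  exact Finset.sum_le_sum fun h _ => sep_triangle _ _ _ h

theorem adj_iff {R R' : A.Chamber} : A.topeGraph.Adj R R' ↔ nsep R R' = 1 := by
  constructor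
  · rintro ⟨h, ⟨h1, h2⟩, h3⟩
    unfold nsep
    rw [Finset.sum_eq_single (⟨h, h1⟩ : A.hyps)]
    · have := (separates_iff (h := ⟨h, h1⟩)).1 h2
      unfold sep
      rw [if_neg this]
    · intro k _ hk
      rw [sep_eq_zero]
      by_contra hne
      have := h3 k.1 ⟨k.2, separates_iff.2 hne⟩
      exact hk (Subtype.ext this)
    · intro h; exact absurd (Finset.mem_univ _) h
  · intro h
    unfold nsep at h
    obtain ⟨k, hk⟩ : ∃ k, sep R.sg R'.sg k ≠ 0 := by
      by_contra hcon
      push Not at hcon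
      rw [Finset.sum_eq_zero (fun k _ => hcon k)] at h
      exact absurd h (by simp)
    refine ⟨k.1, ⟨k.2, separates_iff.2 (fun h => hk (sep_eq_zero.2 h))⟩, ?_⟩
    rintro h' ⟨h1, h2⟩
    by_contra hne
    have h3 := (separates_iff (h := ⟨h', h1⟩)).1 h2
    have h4 : ∑ x ∈ ({k, ⟨h', h1⟩} : Finset A.hyps), sep R.sg R'.sg x
        ≤ ∑ x, sep R.sg R'.sg x := Finset.sum_le_sum_of_subset (Finset.subset_univ _)
    rw [h, Finset.sum_pair (fun heq => hne (congrArg Subtype.val heq).symm)] at h4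
    have h5 : sep R.sg R'.sg ⟨h', h1⟩ ≠ 0 := fun h => h3 (sep_eq_zero.1 h)
    omega

theorem nsep_le_length {R R' : A.Chamber} (p : A.topeGraph.Walk R R') : nsep R R' ≤ p.length := by
  induction p with
  | nil =>
    unfold nsep
    rw [Finset.sum_eq_zero]
    · simp
    · intro h _; exact sep_eq_zero.2 rfl
  | cons hadj p ih =>
    rw [SimpleGraph.Walk.length_cons]
    have h1 := adj_iff.1 hadj
    have h2 := nsep_triangle _ _ _ |>.trans (add_le_add h1.le ih)
    omega

/-- a hyperplane, as a zero set, is a singleton -/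
theorem hs_hyp (h : A.hyps) : A.hs h.1 = {h} := by
  ext k
  rw [A.mem_hs, Finset.mem_singleton]
  constructor
  · intro hle
    apply Subtype.ext
    symm
    apply Submodule.eq_of_le_of_finrank_eq hle
    have h1 := A.isHyp h.1 h.2
    have h2 := A.isHyp k.1 k.2
    omega
  · rintro rfl; exact le_rfl

/-- a step towards another chamber -/
theorem exists_closer {R R' : A.Chamber} (hne : R ≠ R') :
    ∃ R₁ : A.Chamber, nsep R R₁ = 1 ∧ nsep R₁ R' + 1 = nsep R R' := by
  classical
  have hz := (mem_Ch_iff R.sg).2 ⟨R, rfl⟩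
  have hy := (mem_Ch_iff R'.sg).2 ⟨R', rfl⟩
  obtain ⟨G, hG, _, hGz, hGe, hcov⟩ := A.om.step_exists (B := fun _ => 0) hz.1 hy.1
    (fun e => ⟨fun h => absurd h (hz.2 e), fun h => absurd h (hy.2 e)⟩)
    (fun _ => Or.inl rfl) (fun _ => Or.inl rfl) (fun h => hne (sg_injective h))
  -- the zero set of `G` is a singleton
  obtain ⟨k, hk, hzk⟩ := hGz.exists_zero
  have hZG : Z G = {k} := by
    obtain ⟨u, _, hu⟩ := A.exists_Z_eq k.1
    rw [hs_hyp] at hu
    have hZz : Z R.sg = ∅ := OM.Z_chamber hz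
    rcases hcov _ ⟨u, rfl⟩ (by rw [hZz]; exact Finset.empty_subset _)
      (by rw [hu]; intro x hx; rw [Finset.mem_singleton] at hx; subst hx; exact mem_Z.2 hk)
      with h | h
    · rw [hu, hZz] at h
      exact absurd h (Finset.singleton_ne_empty k)
    · rw [← h, hu]
  have hGk : ∀ e, G e = 0 ↔ e = k := by
    intro e
    rw [← mem_Z, hZG, Finset.mem_singleton]
  -- the next chamber
  have hnx : cmp G (ng R.sg) ∈ A.om.Ch := by
    refine ⟨A.om.cmp_mem hG (A.om.ng_mem hz.1), ?_⟩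
    intro e he
    rw [cmp_eq_zero, ng_zero] at he
    exact hz.2 e he.2
  obtain ⟨R₁, hR₁⟩ := (mem_Ch_iff _).1 hnx
  have hval : ∀ e, R₁.sg e = if e = k then - R.sg e else R.sg e := by
    intro e
    rw [hR₁]
    by_cases he : e = k
    · rw [if_pos he, cmp_of_zero ((hGk e).2 he)]; rfl
    · have hGe' : G e ≠ 0 := fun h => he ((hGk e).1 h)
      rw [if_neg he, cmp_of_ne hGe', hGz.1.eq_of_ne hGe']
  have hRR : R'.sg k = - R.sg k := hGe k hk hzk
  refine ⟨R₁, ?_, ?_⟩
  · unfold nsep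
    rw [Finset.sum_eq_single k]
    · unfold sep
      rw [hval k, if_pos rfl, if_neg]
      exact fun h => sg_ne hzk h.symm
    · intro e _ he
      rw [sep_eq_zero, hval e, if_neg he]
    · intro h; exact absurd (Finset.mem_univ _) h
  · unfold nsep
    rw [← Finset.sum_erase_add _ (fun h => sep R₁.sg R'.sg h) (Finset.mem_univ k),
      ← Finset.sum_erase_add _ (fun h => sep R.sg R'.sg h) (Finset.mem_univ k)]
    have h1 : sep R₁.sg R'.sg k = 0 := by
      rw [sep_eq_zero, hval k, if_pos rfl, hRR]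
    have h2 : sep R.sg R'.sg k = 1 := by
      unfold sep
      rw [if_neg]
      rw [hRR]
      exact fun h => sg_ne hzk h.symm
    rw [h1, h2]
    congr 1
    apply Finset.sum_congr rfl
    intro e he
    have he' : e ≠ k := Finset.ne_of_mem_erase he
    unfold sep
    rw [hval e, if_neg he']

theorem exists_walk (n : ℕ) : ∀ R R' : A.Chamber, nsep R R' = n →
    ∃ p : A.topeGraph.Walk R R', p.length = n := by
  induction n with
  | zero =>
    intro R R' h
    have : R = R' := by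
      apply sg_injective
      funext e
      exact sep_eq_zero.1 ((Finset.sum_eq_zero_iff.1 h) e (Finset.mem_univ e))
    subst this
    exact ⟨SimpleGraph.Walk.nil, rfl⟩
  | succ n ih =>
    intro R R' h
    have hne : R ≠ R' := by
      rintro rfl
      have : nsep R R = 0 := by
        unfold nsep
        exact Finset.sum_eq_zero fun e _ => sep_eq_zero.2 rfl
      omega
    obtain ⟨R₁, h1, h2⟩ := exists_closer hne
    obtain ⟨p, hp⟩ := ih R₁ R' (by omega)
    exact ⟨SimpleGraph.Walk.cons (adj_iff.2 h1) p, by rw [SimpleGraph.Walk.length_cons, hp]⟩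

theorem dist_eq (R R' : A.Chamber) : A.topeGraph.dist R R' = nsep R R' := by
  obtain ⟨p, hp⟩ := exists_walk (nsep R R') R R' rfl
  apply le_antisymm
  · rw [← hp]; exact SimpleGraph.dist_le p
  · obtain ⟨q, hq⟩ := (SimpleGraph.Walk.reachable p).exists_walk_length_eq_dist
    rw [← hq]; exact nsep_le_length q

/-! ### The lattice isomorphism -/

section lattice

variable {d' : ℕ} {A' : Arrangement d'}

/-- An isomorphism of intersection lattices in terms of subspaces. -/
structure LIso (A : Arrangement d) (A' : Arrangement d') where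
  /-- the map -/
  f : Submodule ℝ (Fin d → ℝ) → Submodule ℝ (Fin d' → ℝ)
  /-- the inverse map -/
  g : Submodule ℝ (Fin d' → ℝ) → Submodule ℝ (Fin d → ℝ)
  hf : ∀ X, A.IsFlat X → A'.IsFlat (f X)
  hg : ∀ X, A'.IsFlat X → A.IsFlat (g X)
  gf : ∀ X, A.IsFlat X → g (f X) = X
  fg : ∀ X, A'.IsFlat X → f (g X) = X
  le : ∀ X Y, A.IsFlat X → A.IsFlat Y → (X ≤ Y ↔ f X ≤ f Y)

/-- the inverse isomorphism -/
def LIso.symm (I : LIso A A') : LIso A' A where
  f := I.g
  g := I.f
  hf := I.hg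
  hg := I.hf
  gf := I.fg
  fg := I.gf
  le := fun X Y hX hY => by
    rw [I.le _ _ (I.hg X hX) (I.hg Y hY), I.fg X hX, I.fg Y hY]

theorem isFlat_top (A : Arrangement d) : A.IsFlat ⊤ :=
  ⟨∅, Finset.empty_subset _, by simp⟩

theorem isFlat_hyp (h : A.hyps) : A.IsFlat h.1 :=
  ⟨{h.1}, by simpa using h.2, by simp⟩

theorem LIso.top (I : LIso A A') : I.f ⊤ = ⊤ := by
  apply top_le_iff.1
  have h1 := (I.le (I.g ⊤) ⊤ (I.hg _ (isFlat_top A')) (isFlat_top A)).1 le_top
  rwa [I.fg _ (isFlat_top A')] at h1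

/-- every flat different from the whole space lies below another flat covering it -/
theorem exists_cover {X : Submodule ℝ (Fin d → ℝ)} (hX : A.IsFlat X) (hne : X ≠ ⊤) :
    ∃ Y, A.IsFlat Y ∧ X < Y ∧ ∀ K, A.IsFlat K → X ≤ K → K ≤ Y → K = X ∨ K = Y := by
  classical
  have hex : ∃ n, ∃ Y, A.IsFlat Y ∧ X < Y ∧ Module.finrank ℝ Y = n :=
    ⟨_, ⊤, isFlat_top A, lt_top_iff_ne_top.2 hne, rfl⟩
  obtain ⟨Y, hY, hXY, hn⟩ := Nat.find_spec hex
  refine ⟨Y, hY, hXY, ?_⟩
  intro K hK h1 h2
  by_contra hcon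
  push Not at hcon
  have h3 : X < K := lt_of_le_of_ne h1 (Ne.symm hcon.1)
  have h4 : K < Y := lt_of_le_of_ne h2 hcon.2
  have h5 := Nat.find_min' hex ⟨K, hK, h3, rfl⟩
  have h6 := Submodule.finrank_lt_finrank_of_lt h4
  omega

theorem LIso.codim_eq (I : LIso A A') : ∀ (n : ℕ) (X : Submodule ℝ (Fin d → ℝ)), A.IsFlat X →
    codim X = n → codim (I.f X) = n := by
  intro n
  induction n with
  | zero =>
    intro X _ h
    have : X = ⊤ := by
      apply Submodule.eq_top_of_finrank_eq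
      have := finrank_le X
      unfold codim at h
      simp
      omega
    rw [this, I.top, codim, finrank_top]
    simp
  | succ n ih =>
    intro X hX h
    have hne : X ≠ ⊤ := by
      rintro rfl
      rw [codim, finrank_top] at h
      simp at h
    obtain ⟨Y, hY, hXY, hcov⟩ := exists_cover hX hne
    have h1 := A.codim_cover hX hY hXY hcov
    have h2 := ih Y hY (by omega)
    have h3 : I.f X < I.f Y := by
      rw [lt_iff_le_not_ge, ← I.le _ _ hX hY, ← I.le _ _ hY hX]
      exact lt_iff_le_not_ge.1 hXY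
    have h4 := A'.codim_cover (I.hf X hX) (I.hf Y hY) h3 (by
      intro K hK h5 h6
      have h7 : X ≤ I.g K := by
        rw [I.le _ _ hX (I.hg K hK), I.fg K hK]; exact h5
      have h8 : I.g K ≤ Y := by
        rw [I.le _ _ (I.hg K hK) hY, I.fg K hK]; exact h6
      rcases hcov _ (I.hg K hK) h7 h8 with h9 | h9
      · left; rw [← h9, I.fg K hK]
      · right; rw [← h9, I.fg K hK])
    rw [h4, h2]

/-- hyperplanes go to hyperplanes -/
theorem LIso.hyp (I : LIso A A') (h : A.hyps) : ∃ k : A'.hyps, I.f h.1 = k.1 := by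
  have h1 : codim h.1 = 1 := by
    have := A.isHyp h.1 h.2
    unfold codim
    omega
  have h2 := I.codim_eq 1 h.1 (isFlat_hyp h) h1
  have h3 := I.hf _ (isFlat_hyp h)
  have hne : I.f h.1 ≠ ⊤ := by
    intro heq
    rw [heq, codim, finrank_top] at h2
    simp at h2
  obtain ⟨k, hk⟩ : ∃ k, k ∈ A'.hs (I.f h.1) := by
    by_contra hcon
    push Not at hcon
    apply hne
    rw [← fl_hs h3]
    have : A'.hs (I.f h.1) = ∅ := Finset.eq_empty_of_forall_notMem hcon
    rw [this]
    simp [fl]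
  refine ⟨k, ?_⟩
  apply Submodule.eq_of_le_of_finrank_eq (A'.mem_hs.1 hk)
  have h4 := A'.isHyp k.1 k.2
  have h5 := finrank_le (I.f h.1)
  unfold codim at h2
  omega

theorem LIso.card_le (I : LIso A A') (X : Submodule ℝ (Fin d → ℝ)) (hX : A.IsFlat X) :
    (A.hs X).card ≤ (A'.hs (I.f X)).card := by
  classical
  choose κ hκ using I.hyp
  apply Finset.card_le_card_of_injOn κ
  · intro h hh
    rw [Finset.mem_coe] at hh ⊢
    rw [A.mem_hs] at hh
    rw [A'.mem_hs, ← hκ, ← I.le _ _ hX (isFlat_hyp h)]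
    exact hh
  · intro h _ h' _ heq
    apply Subtype.ext
    rw [← I.gf _ (isFlat_hyp h), ← I.gf _ (isFlat_hyp h'), hκ, hκ, heq]

theorem LIso.card_eq (I : LIso A A') (X : Submodule ℝ (Fin d → ℝ)) (hX : A.IsFlat X) :
    (A'.hs (I.f X)).card = (A.hs X).card := by
  apply le_antisymm
  · have := I.symm.card_le (I.f X) (I.hf X hX)
    change (A'.hs (I.f X)).card ≤ (A.hs (I.g (I.f X))).card at this
    rwa [I.gf X hX] at this
  · exact I.card_le X hX

theorem mem_ZS_iff {S : Finset A.hyps} : S ∈ A.om.ZS ↔ A.hs (A.fl S) = S := by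
  constructor
  · rintro ⟨_, ⟨v, rfl⟩, rfl⟩
    exact A.hs_fl_sgn v
  · intro h
    obtain ⟨u, _, hu⟩ := A.exists_Z_eq (A.fl S)
    exact ⟨A.sgn u, ⟨u, rfl⟩, hu.trans h⟩

theorem hs_mem_ZS (X : Submodule ℝ (Fin d → ℝ)) : A.hs X ∈ A.om.ZS := by
  obtain ⟨u, _, hu⟩ := A.exists_Z_eq X
  exact ⟨A.sgn u, ⟨u, rfl⟩, hu⟩

theorem fl_le_iff {S T : Finset A.hyps} (hT : T ∈ A.om.ZS) :
    A.fl T ≤ A.fl S ↔ S ⊆ T := by
  constructor
  · intro h k hk
    rw [← mem_ZS_iff.1 hT, A.mem_hs]
    exact h.trans (A.fl_le hk)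
  · exact A.fl_anti

/-- the induced correspondence of zero sets -/
noncomputable def LIso.toZIso (I : LIso A A') : OM.ZIso A.om A'.om where
  φ S := A'.hs (I.f (A.fl S))
  ψ S := A.hs (I.g (A'.fl S))
  hφ _ _ := hs_mem_ZS _
  hψ _ _ := hs_mem_ZS _
  hl S hS := by
    rw [fl_hs (I.hf _ (A.isFlat_fl S)), I.gf _ (A.isFlat_fl S)]
    exact mem_ZS_iff.1 hS
  hr S hS := by
    rw [fl_hs (I.hg _ (A'.isFlat_fl S)), I.fg _ (A'.isFlat_fl S)]
    exact mem_ZS_iff.1 hS
  hle S hS T hT := by
    rw [← fl_le_iff hT, ← fl_le_iff (hs_mem_ZS _), fl_hs (I.hf _ (A.isFlat_fl S)),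
      fl_hs (I.hf _ (A.isFlat_fl T)), I.le _ _ (A.isFlat_fl T) (A.isFlat_fl S)]
  hrk S _ := by
    show codim (A'.fl (A'.hs (I.f (A.fl S)))) = codim (A.fl S)
    rw [fl_hs (I.hf _ (A.isFlat_fl S))]
    exact I.codim_eq _ _ (A.isFlat_fl S) rfl
  hcard S hS := by
    rw [I.card_eq _ (A.isFlat_fl S), mem_ZS_iff.1 hS]

/-- an order isomorphism of the intersection lattices gives a correspondence of flats -/
noncomputable def LIso.ofOrderIso (e : A.IntersectionLattice ≃o A'.IntersectionLattice) :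
    LIso A A' := by
  classical
  exact
  { f := fun X => if hX : A.IsFlat X then (OrderDual.ofDual (e (OrderDual.toDual ⟨X, hX⟩))).1 else ⊤
    g := fun X => if hX : A'.IsFlat X then
      (OrderDual.ofDual (e.symm (OrderDual.toDual ⟨X, hX⟩))).1 else ⊤
    hf := fun X hX => by
      rw [dif_pos hX]; exact (OrderDual.ofDual (e (OrderDual.toDual ⟨X, hX⟩))).2
    hg := fun X hX => by
      rw [dif_pos hX]; exact (OrderDual.ofDual (e.symm (OrderDual.toDual ⟨X, hX⟩))).2
    gf := fun X hX => by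
      have h1 : A'.IsFlat (OrderDual.ofDual (e (OrderDual.toDual ⟨X, hX⟩))).1 :=
        (OrderDual.ofDual (e (OrderDual.toDual ⟨X, hX⟩))).2
      rw [dif_pos hX, dif_pos h1]
      have h2 : (OrderDual.toDual ⟨(OrderDual.ofDual (e (OrderDual.toDual ⟨X, hX⟩))).1, h1⟩ :
        A'.IntersectionLattice) = e (OrderDual.toDual ⟨X, hX⟩) := rfl
      rw [h2, e.symm_apply_apply]
      rfl
    fg := fun X hX => by
      have h1 : A.IsFlat (OrderDual.ofDual (e.symm (OrderDual.toDual ⟨X, hX⟩))).1 :=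
        (OrderDual.ofDual (e.symm (OrderDual.toDual ⟨X, hX⟩))).2
      rw [dif_pos hX, dif_pos h1]
      have h2 : (OrderDual.toDual ⟨(OrderDual.ofDual (e.symm (OrderDual.toDual ⟨X, hX⟩))).1, h1⟩ :
        A.IntersectionLattice) = e.symm (OrderDual.toDual ⟨X, hX⟩) := rfl
      rw [h2, e.apply_symm_apply]
      rfl
    le := fun X Y hX hY => by
      rw [dif_pos hX, dif_pos hY]
      have h1 := e.le_iff_le (x := (OrderDual.toDual ⟨Y, hY⟩ : A.IntersectionLattice))
        (y := (OrderDual.toDual ⟨X, hX⟩ : A.IntersectionLattice))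
      exact h1.symm }

end lattice

/-- **Main theorem.** -/
theorem main {d d' : ℕ} (A : Arrangement d) (A' : Arrangement d')
    (e : A.IntersectionLattice ≃o A'.IntersectionLattice) (k ℓ : ℕ) :
    Nonempty (MH A.topeGraph k ℓ ≃+ MH A'.topeGraph k ℓ) := by
  obtain ⟨e1⟩ := MH_rank A.om A.topeGraph Chamber.sg sg_injective mem_Ch_iff dist_eq k ℓ
  obtain ⟨e2⟩ := MH_rank A'.om A'.topeGraph Chamber.sg sg_injective mem_Ch_iff dist_eq k ℓ
  have I := LIso.ofOrderIso e
  have J := I.toZIso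
  have hempty : ∀ S ∈ A.om.ZS, S = ∅ ↔ J.φ S = ∅ := by
    intro S hS
    rw [← Finset.card_eq_zero, ← Finset.card_eq_zero, J.hcard S hS]
  have hZempty : (∅ : Finset A.hyps) ∈ A.om.ZS := by
    have : A.hs ⊤ = ∅ := by
      rw [Finset.eq_empty_iff_forall_notMem]
      intro h hh
      rw [A.mem_hs, top_le_iff] at hh
      exact ne_top_of_mem h.2 hh
    rw [← this]; exact hs_mem_ZS _
  have huniv : ∀ {d : ℕ} (A : Arrangement d), Z (fun _ => (0 : SignType) : Cov A.hyps)
      = Finset.univ := by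
    intro d A; ext e; simp [mem_Z]
  have hZ0 : (Finset.univ : Finset A.hyps) ∈ A.om.ZS := ⟨_, A.om.zero_mem, huniv A⟩
  have hZ0' : (Finset.univ : Finset A'.hyps) ∈ A'.om.ZS := ⟨_, A'.om.zero_mem, huniv A'⟩
  have htop : Z (fun _ => (0 : SignType) : Cov A'.hyps)
      = J.φ (Z (fun _ => (0 : SignType) : Cov A.hyps)) := by
    rw [huniv, huniv]
    symm
    rw [Finset.eq_univ_iff_forall]
    intro h
    have h1 := (J.hle _ (J.hψ _ hZ0') _ hZ0).1 (Finset.subset_univ _)
    rw [J.hr _ hZ0'] at h1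
    exact h1 (Finset.mem_univ h)
  have hT := OM.T_iso J ((hempty _ hZempty).1 rfl) (fun S hS h => (hempty S hS).2 h) ℓ k
    (fun _ => 0) (fun _ => 0) A.om.zero_mem A'.om.zero_mem htop
  rw [hT] at e1
  exact ⟨(e1.trans e2.symm).toAddEquiv⟩

end Arrangement

end Pool.Agent.T6.H82.MA
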